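import Pool.Agent.K6.H60.RN.T3c

/-!
# Type (3): the hyperbolic case, ping-pong
-/

set_option autoImplicit false

namespace Pool.Agent.K6.H60.RN

open scoped Pointwise

variable {X : Type} {G : Subgroup (Equiv.Perm (ℕ → X))} {K : Type} [Group K]
  {φ : K →* Equiv.Perm (ℕ → X)}

theorem free_false (hno : ∀ H : Subgroup K, H.FiniteIndex → H = ⊤)
    (hcyc : ∀ H : Subgroup K, H ≠ ⊤ → IsCyclic H) {a : Fin 2 → K}
    (hinj : Function.Injective (FreeGroup.lift a)) : False := by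
  by_cases hr : (FreeGroup.lift a).range = ⊤
  · let e : FreeGroup (Fin 2) ≃* K := MulEquiv.ofBijective (FreeGroup.lift a)
      ⟨hinj, MonoidHom.range_eq_top.1 hr⟩
    let χ : FreeGroup (Fin 2) →* Multiplicative (ZMod 2) :=
      FreeGroup.lift (fun _ => Multiplicative.ofAdd (1 : ZMod 2))
    have h1 : (χ.comp e.symm.toMonoidHom).ker = ⊤ := hno _ inferInstance
    have h2 : e (FreeGroup.of 0) ∈ (χ.comp e.symm.toMonoidHom).ker := by rw [h1]; trivial
    have h3 : χ (FreeGroup.of 0) = 1 := by simpa [MonoidHom.mem_ker] using h2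
    have h4 : χ (FreeGroup.of 0) = Multiplicative.ofAdd (1 : ZMod 2) := FreeGroup.lift_apply_of
    rw [h4] at h3
    exact absurd h3 (by decide)
  · have h1 := cyc_comm (hcyc _ hr) (a := FreeGroup.lift a (FreeGroup.of 0))
      (b := FreeGroup.lift a (FreeGroup.of 1)) ⟨_, rfl⟩ ⟨_, rfl⟩
    rw [← map_mul, ← map_mul] at h1
    have h2 := hinj h1
    have h3 := congrArg (FreeGroup.lift (![Equiv.swap 0 1, Equiv.swap 1 2] :
      Fin 2 → Equiv.Perm (Fin 3))) h2
    simp only [map_mul, FreeGroup.lift_apply_of] at h3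
    exact absurd h3 (by decide)

theorem caseII [Finite X] [Nontrivial X] (hG : SelfSim G) (hV : ∀ k, InV G (φ k))
    (hno : ∀ H : Subgroup K, H.FiniteIndex → H = ⊤)
    (hcyc : ∀ H : Subgroup K, H ≠ ⊤ → IsCyclic H) {s : K} {p : ℕ → X}
    (hp : φ s p = p) (hc : 0 < c G φ s p) {m : ℕ}
    (hFx : ∀ x ∈ cl φ p, ¬ ∀ k, φ k x = x)
    (hM : ∀ x ∈ cl φ p, ∃ (w t : List X) (j i : ℤ), w.length = m ∧ t ≠ [] ∧
      Cm G (φ (s ^ j)) w (w ++ t) ∧ In w (φ (s ^ i) x)) : False := by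
  classical
  have hMc : ∀ x, x ∉ cl φ p → ∃ n, ∀ y, pre n y = pre n x → y ∉ cl φ p := fun x => cl_closed
  have hMi : ∀ x ∈ cl φ p, ∀ k : K, φ k x ∈ cl φ p := fun x hx k => cl_map hG hV hx k
  have hPf := finite_per hG hM
  obtain ⟨J, hJ, hper⟩ := common_period hPf (fun x hx => hx.2)
  have hne := fun x hx => per_ne hG hV hMi hM hJ hper (x := x) hx
  have hD := fun d x hx => typeD hG hV hMc hMi hM hJ hper d (x := x) hx
  set Per := {x | x ∈ cl φ p ∧ ∃ n : ℕ, 0 < n ∧ φ (s ^ n) x = x} with hPer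
  set a := s ^ J with ha
  have hpPer : p ∈ Per := ⟨self_cl' p, 1, one_pos, by rw [pow_one]; exact hp⟩
  have hcap : 0 < c G φ a p := by
    rw [ha, c_pow hG hV hp]
    positivity
  -- the element g
  obtain ⟨g, hg⟩ : ∃ g, φ g p ∉ Per := by
    by_contra hcon
    push Not at hcon
    exact orbit_infinite hno (hFx p (self_cl' p)) (hPf.subset (by rintro _ ⟨k, rfl⟩; exact hcon k))
  have hdisj : ∀ e ∈ Per, ∀ e' ∈ Per, φ g⁻¹ e ≠ e' := by
    intro e he e' he' h
    have h1 : φ g e' = e := by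
      rw [← h, map_inv]
      simp
    have h2 : φ a e = e := hper e he
    have h3 : φ (g * a * g⁻¹) e = e := by
      rw [map_mul, map_mul, Equiv.Perm.mul_apply, Equiv.Perm.mul_apply, h, hper e' he', h1]
    have hst : ptStab φ e ≠ ⊤ := by
      intro h4
      apply hFx e he.1
      intro k
      have : k ∈ ptStab φ e := by rw [h4]; trivial
      exact this
    have hcomm : a * (g * a * g⁻¹) = g * a * g⁻¹ * a := cyc_comm (hcyc _ hst) h2 h3
    obtain ⟨h4, h5⟩ := c_conj hG hV g a (hper p hpPer)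
    obtain ⟨n, hn, hr⟩ := pow_return (k := a) (x := φ g p) (finite_att hG hV (g * a * g⁻¹)) (by
      intro n
      obtain ⟨h6, h7⟩ := c_conj hG hV (a ^ n) (g * a * g⁻¹) h4
      have h8 : a ^ n * (g * a * g⁻¹) * (a ^ n)⁻¹ = g * a * g⁻¹ := by
        have : Commute (a ^ n) (g * a * g⁻¹) := Commute.pow_left hcomm n
        rw [this.eq]
        group
      rw [h8] at h6 h7
      exact ⟨h6, by rw [h7, h5]; exact hcap⟩)
    apply hg
    refine ⟨self_cl p g, J * n, Nat.mul_pos hJ hn, ?_⟩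
    rw [pow_mul]
    exact hr
  -- the choice of d
  have hd1 : ∀ e ∈ Per, ∀ᶠ d in Filter.atTop, 0 < c G φ a e →
      ∃ t : List X, Cm G (φ a) (pre d e) (pre d e ++ t) := by
    intro e he
    by_cases h : 0 < c G φ a e
    · obtain ⟨m0, hm0⟩ := contr_of_fix hG hV (hper e he) h
      filter_upwards [Filter.eventually_ge_atTop m0] with d hd _
      obtain ⟨t, -, -, ht⟩ := hm0 d hd
      exact ⟨t, ht⟩
    · exact Filter.Eventually.of_forall (fun d h' => absurd h' h)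
  have hd1' : ∀ e ∈ Per, ∀ᶠ d in Filter.atTop, c G φ a e < 0 →
      ∃ t : List X, Cm G (φ a⁻¹) (pre d e) (pre d e ++ t) := by
    intro e he
    by_cases h : c G φ a e < 0
    · obtain ⟨m0, hm0⟩ := contr_of_fix hG hV (fix_inv (hper e he)) (by
        rw [c_inv_fix hG hV (hper e he)]
        omega)
      filter_upwards [Filter.eventually_ge_atTop m0] with d hd _
      obtain ⟨t, -, -, ht⟩ := hm0 d hd
      exact ⟨t, ht⟩
    · exact Filter.Eventually.of_forall (fun d h' => absurd h' h)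
  have hd2 : ∀ e ∈ Per, ∀ e' ∈ Per, ∀ᶠ d in Filter.atTop, e ≠ e' → pre d e ≠ pre d e' := by
    intro e he e' he'
    by_cases h : e = e'
    · exact Filter.Eventually.of_forall (fun d h' => absurd h h')
    · obtain ⟨n, hn⟩ : ∃ n, pre n e ≠ pre n e' := by
        by_contra hcon
        push Not at hcon
        exact h (ext_pre hcon)
      filter_upwards [Filter.eventually_ge_atTop n] with d hd _ h'
      exact hn (pre_mono hd h')
  have hd3 : ∀ e ∈ Per, ∀ e' ∈ Per, ∀ᶠ d in Filter.atTop,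
      ∀ x, pre d x = pre d e → pre d (φ g⁻¹ x) ≠ pre d e' := by
    intro e he e' he'
    obtain ⟨n, hn⟩ : ∃ n, pre n (φ g⁻¹ e) ≠ pre n e' := by
      by_contra hcon
      push Not at hcon
      exact hdisj e he e' he' (ext_pre hcon)
    obtain ⟨n', hn'⟩ := (hV g⁻¹).cont hG n e
    filter_upwards [Filter.eventually_ge_atTop (max n n')] with d hd x hx h'
    apply hn
    rw [← hn' x (pre_mono (le_trans (le_max_right _ _) hd) hx)]
    exact pre_mono (le_trans (le_max_left _ _) hd) h'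
  have hd2' : ∀ᶠ d in Filter.atTop, ∀ e ∈ Per, ∀ e' ∈ Per, e ≠ e' → pre d e ≠ pre d e' :=
    (Filter.eventually_all_finite hPf).2 fun e he => (Filter.eventually_all_finite hPf).2 (hd2 e he)
  have hd3' : ∀ᶠ d in Filter.atTop, ∀ e ∈ Per, ∀ e' ∈ Per,
      ∀ x, pre d x = pre d e → pre d (φ g⁻¹ x) ≠ pre d e' :=
    (Filter.eventually_all_finite hPf).2 fun e he => (Filter.eventually_all_finite hPf).2 (hd3 e he)
  obtain ⟨d, ⟨⟨k1, k1'⟩, k2⟩, k3⟩ := ((((Filter.eventually_all_finite hPf).2 hd1).and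
    ((Filter.eventually_all_finite hPf).2 hd1')).and hd2' |>.and hd3').exists
  set Up : Set (ℕ → X) := {x | ∃ e ∈ Per, 0 < c G φ a e ∧ pre d x = pre d e} with hUp
  set Um : Set (ℕ → X) := {x | ∃ e ∈ Per, c G φ a e < 0 ∧ pre d x = pre d e} with hUm
  have hUpa : ∀ x ∈ Up, φ a x ∈ Up := by
    rintro x ⟨e, he, hce, hx⟩
    obtain ⟨t, ht⟩ := k1 e he hce
    exact ⟨e, he, hce, in_pre_iff.1 (in_append (ht.in (in_pre_iff.2 hx)))⟩
  have hUma : ∀ x ∈ Um, φ a⁻¹ x ∈ Um := by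
    rintro x ⟨e, he, hce, hx⟩
    obtain ⟨t, ht⟩ := k1' e he hce
    exact ⟨e, he, hce, in_pre_iff.1 (in_append (ht.in (in_pre_iff.2 hx)))⟩
  have hUpo : ∀ x ∈ Up, ∀ y, pre d y = pre d x → y ∈ Up := by
    rintro x ⟨e, he, hce, hx⟩ y hy
    exact ⟨e, he, hce, hy.trans hx⟩
  have hUmo : ∀ x ∈ Um, ∀ y, pre d y = pre d x → y ∈ Um := by
    rintro x ⟨e, he, hce, hx⟩ y hy
    exact ⟨e, he, hce, hy.trans hx⟩
  have hUpUm : ∀ x ∈ Up, x ∉ Um := by
    rintro x ⟨e, he, hce, hx⟩ ⟨e', he', hce', hx'⟩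
    refine k2 e he e' he' ?_ (hx.symm.trans hx')
    rintro rfl
    omega
  have hUall : ∀ x, x ∈ Up ∨ x ∈ Um → ¬ (φ g⁻¹ x ∈ Up ∨ φ g⁻¹ x ∈ Um) := by
    intro x hx hx'
    obtain ⟨e, he, h1⟩ : ∃ e ∈ Per, pre d x = pre d e := by
      rcases hx with ⟨e, he, -, h⟩ | ⟨e, he, -, h⟩ <;> exact ⟨e, he, h⟩
    obtain ⟨e', he', h1'⟩ : ∃ e ∈ Per, pre d (φ g⁻¹ x) = pre d e := by
      rcases hx' with ⟨e, he, -, h⟩ | ⟨e, he, -, h⟩ <;> exact ⟨e, he, h⟩
    exact k3 e he e' he' x h1 h1'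
  have hD' : ∀ x ∈ cl φ p, (∃ n : ℕ, φ (a ^ n) x ∈ Up) ∨ ∃ n : ℕ, φ (a⁻¹ ^ n) x ∈ Um := by
    intro x hx
    obtain ⟨e, he, n, h | h⟩ := hD d x hx
    · exact Or.inl ⟨n, e, he, h.1, h.2⟩
    · exact Or.inr ⟨n, e, he, h.1, h.2⟩
  -- every point outside of Um goes to Up
  have hF : ∀ x ∈ cl φ p, x ∉ Um → ∃ n : ℕ, φ (a ^ n) x ∈ Up := by
    set Λ : Set (ℕ → X) := {x | x ∈ cl φ p ∧ ∀ n : ℕ, φ (a ^ n) x ∉ Up} with hΛ
    obtain ⟨k, hk⟩ := unif (C := Λ) (by
      intro x hx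
      by_cases hxM : x ∈ cl φ p
      · have h1 : ∃ n : ℕ, φ (a ^ n) x ∈ Up := by
          by_contra hcon
          push Not at hcon
          exact hx ⟨hxM, hcon⟩
        obtain ⟨n, hn⟩ := h1
        obtain ⟨n', hn'⟩ := (hV (a ^ n)).cont hG d x
        refine ⟨n', fun y hy hyΛ => hyΛ.2 n ?_⟩
        exact hUpo _ hn _ (hn' y hy)
      · obtain ⟨n, hn⟩ := hMc x hxM
        exact ⟨n, fun y hy hyΛ => hn y hy hyΛ.1⟩)
      (fun k x => φ (a⁻¹ ^ k) x ∈ Um) (by
        intro k x hx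
        obtain ⟨n', hn'⟩ := (hV (a⁻¹ ^ k)).cont hG d x
        exact ⟨n', fun y hy => hUmo _ hx _ (hn' y hy)⟩)
      (by
        intro k x hx
        rw [pow_succ', map_mul, Equiv.Perm.mul_apply]
        exact hUma _ hx)
      (by
        intro x hx
        rcases hD' x hx.1 with ⟨n, hn⟩ | h
        · exact absurd hn (hx.2 n)
        · exact h)
    intro x hx hxm
    by_contra hcon
    push Not at hcon
    have h1 : φ (a ^ k) x ∈ Λ := by
      refine ⟨hMi x hx _, fun n => ?_⟩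
      rw [← Equiv.Perm.mul_apply, ← map_mul, ← pow_add]
      exact hcon _
    have h2 := hk _ h1
    apply hxm
    rw [← Equiv.Perm.mul_apply, ← map_mul, inv_pow, inv_mul_cancel, map_one] at h2
    exact h2
  obtain ⟨n1, hn1⟩ := unif (C := {x | x ∈ cl φ p ∧ x ∉ Um}) (by
      intro x hx
      by_cases hxM : x ∈ cl φ p
      · have h1 : x ∈ Um := by
          by_contra hcon
          exact hx ⟨hxM, hcon⟩
        exact ⟨d, fun y hy hyc => hyc.2 (hUmo _ h1 _ hy)⟩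
      · obtain ⟨n, hn⟩ := hMc x hxM
        exact ⟨n, fun y hy hyΛ => hn y hy hyΛ.1⟩)
      (fun k x => φ (a ^ k) x ∈ Up) (by
        intro k x hx
        obtain ⟨n', hn'⟩ := (hV (a ^ k)).cont hG d x
        exact ⟨n', fun y hy => hUpo _ hx _ (hn' y hy)⟩)
      (by
        intro k x hx
        rw [pow_succ', map_mul, Equiv.Perm.mul_apply]
        exact hUpa _ hx)
      (fun x hx => hF x hx.1 hx.2)
  set A := a ^ n1 with hA
  have hA1 : ∀ x ∈ cl φ p, x ∉ Um → φ A x ∈ Up := fun x hx hxm => hn1 x ⟨hx, hxm⟩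
  have hA2 : ∀ x ∈ cl φ p, x ∉ Up → φ A⁻¹ x ∈ Um := by
    intro x hx hxp
    by_contra hcon
    apply hxp
    have := hA1 (φ A⁻¹ x) (hMi x hx _) hcon
    have h2 : φ A (φ A⁻¹ x) = x := by rw [map_inv]; simp
    rwa [h2] at this
  -- ping-pong on the closure
  let act : MulAction K (cl φ p) :=
    { smul := fun k x => ⟨φ k x.1, hMi x.1 x.2 k⟩
      one_smul := fun x => Subtype.ext (by
        show φ 1 x.1 = x.1
        simp)
      mul_smul := fun k k' x => Subtype.ext (by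
        show φ (k * k') x.1 = φ k (φ k' x.1)
        rw [map_mul, Equiv.Perm.mul_apply]) }
  have hact : ∀ (k : K) (x : cl φ p), ((k • x : cl φ p) : ℕ → X) = φ k x := fun k x => rfl
  have hB : ∀ x : ℕ → X, φ g⁻¹ (φ (g * A * g⁻¹) x) = φ A (φ g⁻¹ x) := by
    intro x
    rw [← Equiv.Perm.mul_apply, ← Equiv.Perm.mul_apply, ← map_mul, ← map_mul]
    congr 2
    group
  have hB' : ∀ x : ℕ → X, φ g⁻¹ (φ (g * A * g⁻¹)⁻¹ x) = φ A⁻¹ (φ g⁻¹ x) := by
    intro x
    rw [← Equiv.Perm.mul_apply, ← Equiv.Perm.mul_apply, ← map_mul, ← map_mul]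
    congr 2
    group
  refine free_false hno hcyc (FreeGroup.injective_lift_of_ping_pong (![A, g * A * g⁻¹])
    (α := cl φ p)
    (![{x | (x : ℕ → X) ∈ Up}, {x | φ g⁻¹ (x : ℕ → X) ∈ Up}] : Fin 2 → Set (cl φ p))
    (![{x | (x : ℕ → X) ∈ Um}, {x | φ g⁻¹ (x : ℕ → X) ∈ Um}] : Fin 2 → Set (cl φ p))
    ?_ ?_ ?_ ?_ ?_ ?_)
  · intro i
    fin_cases i
    · exact ⟨⟨p, self_cl' p⟩, p, hpPer, hcap, rfl⟩
    · refine ⟨⟨φ g p, self_cl p g⟩, ?_⟩
      show φ g⁻¹ (φ g p) ∈ Up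
      have : φ g⁻¹ (φ g p) = p := by rw [map_inv]; simp
      rw [this]
      exact ⟨p, hpPer, hcap, rfl⟩
  · intro i j hij
    fin_cases i <;> fin_cases j
    · exact absurd rfl hij
    · exact Set.disjoint_left.2 fun x hx hx' => hUall x (Or.inl hx) (Or.inl hx')
    · exact Set.disjoint_left.2 fun x hx hx' => hUall x (Or.inl hx') (Or.inl hx)
    · exact absurd rfl hij
  · intro i j hij
    fin_cases i <;> fin_cases j
    · exact absurd rfl hij
    · exact Set.disjoint_left.2 fun x hx hx' => hUall x (Or.inr hx) (Or.inr hx')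
    · exact Set.disjoint_left.2 fun x hx hx' => hUall x (Or.inr hx') (Or.inr hx)
    · exact absurd rfl hij
  · intro i j
    fin_cases i <;> fin_cases j
    · exact Set.disjoint_left.2 fun x hx hx' => hUpUm _ hx hx'
    · exact Set.disjoint_left.2 fun x hx hx' => hUall x (Or.inl hx) (Or.inr hx')
    · exact Set.disjoint_left.2 fun x hx hx' => hUall x (Or.inr hx') (Or.inl hx)
    · exact Set.disjoint_left.2 fun x hx hx' => hUpUm _ hx hx'
  · intro i
    fin_cases i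
    · rintro _ ⟨x, hx, rfl⟩
      exact hA1 x x.2 hx
    · rintro _ ⟨x, hx, rfl⟩
      show φ g⁻¹ (φ (g * A * g⁻¹) x) ∈ Up
      rw [hB]
      exact hA1 _ (hMi _ x.2 _) hx
  · intro i
    fin_cases i
    · rintro _ ⟨x, hx, rfl⟩
      exact hA2 x x.2 hx
    · rintro _ ⟨x, hx, rfl⟩
      show φ g⁻¹ (φ (g * A * g⁻¹)⁻¹ x) ∈ Um
      rw [hB']
      exact hA2 _ (hMi _ x.2 _) hx

end Pool.Agent.K6.H60.RN
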