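import Mathlib

/-!
# Sequences, words, cones, and the groups `V(G)`: basic lemmas
-/

set_option autoImplicit false

namespace Pool.Agent.K6.H60.RN

variable {X : Type}

/-- the sequence `a x₀ x₁ …` -/
def cons (a : X) (x : ℕ → X) : ℕ → X
  | 0 => a
  | n + 1 => x n

/-- the sequence `u x` -/
def ap : List X → (ℕ → X) → ℕ → X
  | [], x => x
  | a :: u, x => cons a (ap u x)

/-- the first `n` letters -/
def pre : ℕ → (ℕ → X) → List X
  | 0, _ => []
  | n + 1, x => x 0 :: pre n (fun k => x (k + 1))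

/-- without the first `n` letters -/
def dr (n : ℕ) (x : ℕ → X) : ℕ → X := fun k => x (k + n)

@[simp] theorem cons_zero (a : X) (x : ℕ → X) : cons a x 0 = a := rfl

@[simp] theorem cons_succ (a : X) (x : ℕ → X) (n : ℕ) : cons a x (n + 1) = x n := rfl

theorem cons_inj {a b : X} {x y : ℕ → X} (h : cons a x = cons b y) : a = b ∧ x = y := by
  refine ⟨congrFun h 0, funext fun n => ?_⟩
  exact congrFun h (n + 1)

theorem cons_eta (x : ℕ → X) : cons (x 0) (fun k => x (k + 1)) = x := by
  funext n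
  cases n <;> rfl

@[simp] theorem pre_length (n : ℕ) (x : ℕ → X) : (pre n x).length = n := by
  induction n generalizing x with
  | zero => rfl
  | succ n ih => simp [pre, ih]

theorem pre_cons (n : ℕ) (a : X) (x : ℕ → X) : pre (n + 1) (cons a x) = a :: pre n x := rfl

theorem pre_ap (u : List X) (n : ℕ) (x : ℕ → X) : pre (u.length + n) (ap u x) = u ++ pre n x := by
  induction u with
  | nil => simp [ap]
  | cons a u ih =>
    have : (a :: u).length + n = (u.length + n) + 1 := by simp; omega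
    rw [this]
    show pre (u.length + n + 1) (cons a (ap u x)) = _
    rw [pre_cons, ih]
    rfl

theorem pre_ap' (u : List X) (x : ℕ → X) : pre u.length (ap u x) = u := by
  have := pre_ap u 0 x
  simpa [pre] using this

theorem ap_append (u w : List X) (x : ℕ → X) : ap (u ++ w) x = ap u (ap w x) := by
  induction u with
  | nil => rfl
  | cons a u ih => show cons a (ap (u ++ w) x) = cons a (ap u (ap w x)); rw [ih]

theorem ap_inj {u v : List X} {x y : ℕ → X} (hl : u.length = v.length) (h : ap u x = ap v y) :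
    u = v ∧ x = y := by
  induction u generalizing v with
  | nil =>
    cases v with
    | nil => exact ⟨rfl, h⟩
    | cons b v => simp at hl
  | cons a u ih =>
    cases v with
    | nil => simp at hl
    | cons b v =>
      obtain ⟨h1, h2⟩ := cons_inj h
      obtain ⟨h3, h4⟩ := ih (by simpa using hl) h2
      exact ⟨by rw [h1, h3], h4⟩

theorem ap_pre_dr (n : ℕ) (x : ℕ → X) : ap (pre n x) (dr n x) = x := by
  induction n generalizing x with
  | zero => rfl
  | succ n ih =>
    show cons (x 0) (ap (pre n (fun k => x (k + 1))) (dr (n + 1) x)) = x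
    have := ih (fun k => x (k + 1))
    have h2 : dr n (fun k => x (k + 1)) = dr (n + 1) x := by
      funext k; simp [dr]; congr 1
    rw [h2] at this
    rw [this]
    exact cons_eta x

theorem pre_add (n k : ℕ) (x : ℕ → X) : pre (n + k) x = pre n x ++ pre k (dr n x) := by
  have h := pre_ap (pre n x) k (dr n x)
  rw [ap_pre_dr, pre_length] at h
  exact h

theorem pre_mono {n k : ℕ} (h : k ≤ n) {x y : ℕ → X} (e : pre n x = pre n y) :
    pre k x = pre k y := by
  obtain ⟨j, rfl⟩ := Nat.exists_eq_add_of_le h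
  rw [pre_add, pre_add] at e
  exact (List.append_inj e (by simp)).1

theorem pre_succ_eq {n : ℕ} {x y : ℕ → X} (e : pre (n + 1) x = pre (n + 1) y) : x n = y n := by
  rw [pre_add, pre_add] at e
  have h := (List.append_inj e (by simp)).2
  simp [pre, dr] at h
  exact h

theorem ext_pre {x y : ℕ → X} (h : ∀ n, pre n x = pre n y) : x = y :=
  funext fun n => pre_succ_eq (h (n + 1))

theorem pre_of_lt {n : ℕ} {x y : ℕ → X} (h : ∀ k < n, x k = y k) : pre n x = pre n y := by
  induction n generalizing x y with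
  | zero => rfl
  | succ n ih =>
    simp only [pre]
    rw [h 0 (by omega), ih (fun k hk => h (k + 1) (by omega))]

/-- `x` is in the cone of `u` -/
def In (u : List X) (x : ℕ → X) : Prop := pre u.length x = u

theorem in_ap (u : List X) (x : ℕ → X) : In u (ap u x) := pre_ap' u x

theorem in_iff {u : List X} {x : ℕ → X} : In u x ↔ ∃ y, x = ap u y := by
  constructor
  · intro h
    exact ⟨dr u.length x, by rw [← h]; simp [ap_pre_dr]⟩
  · rintro ⟨y, rfl⟩
    exact in_ap u y

theorem in_pre (n : ℕ) (x : ℕ → X) : In (pre n x) x := by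
  simp [In]

theorem in_append {u w : List X} {x : ℕ → X} (h : In (u ++ w) x) : In u x := by
  obtain ⟨y, rfl⟩ := in_iff.1 h
  rw [ap_append]
  exact in_ap _ _

theorem in_pre_iff {n : ℕ} {x y : ℕ → X} : In (pre n x) y ↔ pre n y = pre n x := by
  simp [In]

theorem in_eq_append {u : List X} {x : ℕ → X} (h : In u x) (n : ℕ) :
    pre (u.length + n) x = u ++ pre n (dr u.length x) := by
  rw [pre_add, h]

/-! ## self-similar groups and cone maps -/

/-- The group `G` of permutations of the sequences is self-similar: for `g ∈ G` and a letter `a` there are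
a letter `b` and `g' ∈ G` such that `g (a x) = b g'(x)` for all `x`. -/
def SelfSim (G : Subgroup (Equiv.Perm (ℕ → X))) : Prop :=
  ∀ g ∈ G, ∀ a : X, ∃ b : X, ∃ g' ∈ G, ∀ x, g (cons a x) = cons b (g' x)

/-- `h` maps the cone of `u` to the cone of `v` by an element of `G` -/
def Cm (G : Subgroup (Equiv.Perm (ℕ → X))) (h : Equiv.Perm (ℕ → X)) (u v : List X) : Prop :=
  ∃ g ∈ G, ∀ x, h (ap u x) = ap v (g x)

/-- `h` is in `V(G)` -/
def InV (G : Subgroup (Equiv.Perm (ℕ → X))) (h : Equiv.Perm (ℕ → X)) : Prop :=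
  ∃ m : ℕ, ∀ u : List X, u.length = m → ∃ v : List X, Cm G h u v

variable {G : Subgroup (Equiv.Perm (ℕ → X))}

theorem SelfSim.word (hG : SelfSim G) (w : List X) {g : Equiv.Perm (ℕ → X)} (hg : g ∈ G) :
    ∃ w' : List X, w'.length = w.length ∧ ∃ g' ∈ G, ∀ x, g (ap w x) = ap w' (g' x) := by
  induction w generalizing g with
  | nil => exact ⟨[], rfl, g, hg, fun x => rfl⟩
  | cons a w ih =>
    obtain ⟨b, g1, hg1, h1⟩ := hG g hg a
    obtain ⟨w', hw', g2, hg2, h2⟩ := ih hg1
    refine ⟨b :: w', by simp [hw'], g2, hg2, fun x => ?_⟩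
    show g (cons a (ap w x)) = cons b (ap w' (g2 x))
    rw [h1, h2]

theorem Cm.one (u : List X) : Cm G 1 u u := ⟨1, G.one_mem, fun _ => rfl⟩

theorem Cm.mul {h k : Equiv.Perm (ℕ → X)} {u v w : List X} (hk : Cm G k v w) (hh : Cm G h u v) :
    Cm G (k * h) u w := by
  obtain ⟨g, hg, e⟩ := hh
  obtain ⟨g', hg', e'⟩ := hk
  exact ⟨g' * g, G.mul_mem hg' hg, fun x => by
    rw [Equiv.Perm.mul_apply, e, e', Equiv.Perm.mul_apply]⟩

theorem Cm.inv {h : Equiv.Perm (ℕ → X)} {u v : List X} (hh : Cm G h u v) : Cm G h⁻¹ v u := by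
  obtain ⟨g, hg, e⟩ := hh
  refine ⟨g⁻¹, G.inv_mem hg, fun x => ?_⟩
  rw [Equiv.Perm.inv_eq_iff_eq, e]
  simp

theorem Cm.restrict (hG : SelfSim G) {h : Equiv.Perm (ℕ → X)} {u v : List X} (hh : Cm G h u v)
    (w : List X) : ∃ w' : List X, w'.length = w.length ∧ Cm G h (u ++ w) (v ++ w') := by
  obtain ⟨g, hg, e⟩ := hh
  obtain ⟨w', hw', g', hg', e'⟩ := hG.word w hg
  refine ⟨w', hw', g', hg', fun x => ?_⟩
  rw [ap_append, e, e', ap_append]

theorem Cm.in {h : Equiv.Perm (ℕ → X)} {u v : List X} (hh : Cm G h u v) {x : ℕ → X} (hx : In u x) :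
    In v (h x) := by
  obtain ⟨g, hg, e⟩ := hh
  obtain ⟨y, rfl⟩ := in_iff.1 hx
  rw [e]
  exact in_ap _ _

theorem Cm.surj {h : Equiv.Perm (ℕ → X)} {u v : List X} (hh : Cm G h u v) {y : ℕ → X}
    (hy : In v y) : ∃ x, In u x ∧ h x = y := by
  obtain ⟨g, hg, e⟩ := hh
  obtain ⟨z, rfl⟩ := in_iff.1 hy
  exact ⟨ap u (g⁻¹ z), in_ap _ _, by rw [e]; simp⟩

theorem exists_seq_ne [Nontrivial X] (n : ℕ) (z : ℕ → X) : ∃ y, pre n y = pre n z ∧ y n ≠ z n := by
  obtain ⟨a, ha⟩ := exists_ne (z n)
  classical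
  refine ⟨Function.update z n a, ?_, by simp [ha]⟩
  apply pre_of_lt
  intro k hk
  rw [Function.update_of_ne (by omega)]

theorem cone_le [Nontrivial X] {u v : List X} (h : ∀ x, In u x → In v x) :
    v.length ≤ u.length := by
  by_contra hlt
  push Not at hlt
  obtain ⟨a⟩ := (inferInstance : Nonempty X)
  set z : ℕ → X := ap u (fun _ => a) with hz
  obtain ⟨y, hy1, hy2⟩ := exists_seq_ne u.length z
  have hu : In u z := in_ap _ _
  have hu' : In u y := by
    unfold In at hu ⊢
    rw [hy1, hu]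
  have h1 := h z hu
  have h2 := h y hu'
  unfold In at h1 h2
  have h3 : pre v.length y = pre v.length z := by rw [h1, h2]
  have h4 := pre_mono (k := u.length + 1) (by omega) h3
  exact hy2 (pre_succ_eq h4)

theorem cone_eq [Nontrivial X] {u v : List X} (h : ∀ x, In u x ↔ In v x) : u = v := by
  have h1 := cone_le fun x => (h x).1
  have h2 := cone_le fun x => (h x).2
  obtain ⟨a⟩ := (inferInstance : Nonempty X)
  have h3 : In v (ap u (fun _ => a)) := (h _).1 (in_ap _ _)
  have h4 : In u (ap u (fun _ => a)) := in_ap _ _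
  have h5 : u.length = v.length := by omega
  unfold In at h3 h4
  rw [← h5] at h3
  rw [← h4, h3]

theorem Cm.unique [Nontrivial X] {h : Equiv.Perm (ℕ → X)} {u v v' : List X} (h1 : Cm G h u v)
    (h2 : Cm G h u v') : v = v' := by
  apply cone_eq
  intro x
  constructor
  · intro hx
    obtain ⟨y, hy, rfl⟩ := h1.surj hx
    exact h2.in hy
  · intro hx
    obtain ⟨y, hy, rfl⟩ := h2.surj hx
    exact h1.in hy

/-- the images of the points of a cone determine the word -/
theorem Cm.preEq {h : Equiv.Perm (ℕ → X)} {u v : List X} (hh : Cm G h u v) {x : ℕ → X}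
    (hx : In u x) : v = pre v.length (h x) := (hh.in hx).symm

theorem Cm.atPre (hG : SelfSim G) {h : Equiv.Perm (ℕ → X)} {u v : List X} (hh : Cm G h u v)
    {x : ℕ → X} (hx : In u x) (n : ℕ) :
    Cm G h (pre (u.length + n) x) (pre (v.length + n) (h x)) := by
  rw [in_eq_append hx n]
  obtain ⟨w', hw', h1⟩ := hh.restrict hG (pre n (dr u.length x))
  have h2 : In (u ++ pre n (dr u.length x)) x := by
    unfold In
    rw [List.length_append, pre_length, in_eq_append hx n]
  have h3 := h1.preEq h2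
  have h4 : (v ++ w').length = v.length + n := by simp [hw']
  rw [h4] at h3
  rw [← h3]
  exact h1

/-! ## the cocycle -/

open Classical in
/-- the change of the length of the prefixes of `x` under `h` -/
noncomputable def cc (G : Subgroup (Equiv.Perm (ℕ → X))) (h : Equiv.Perm (ℕ → X)) (x : ℕ → X) : ℤ :=
  if H : ∃ n : ℤ, ∃ u v : List X, In u x ∧ Cm G h u v ∧ (v.length : ℤ) - u.length = n then H.choose
  else 0

theorem cc_aux [Nontrivial X] (hG : SelfSim G) {h : Equiv.Perm (ℕ → X)} {x : ℕ → X}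
    {u v u' v' : List X} (hu : In u x) (hu' : In u' x) (h1 : Cm G h u v) (h2 : Cm G h u' v')
    (hle : u.length ≤ u'.length) :
    (v.length : ℤ) - u.length = (v'.length : ℤ) - u'.length := by
  obtain ⟨n, hn⟩ := Nat.exists_eq_add_of_le hle
  have h3 := h1.atPre hG hu n
  rw [← hn, hu'] at h3
  have h4 := h3.unique h2
  have h5 := congrArg List.length h4
  rw [pre_length] at h5
  omega

theorem cc_eq [Nontrivial X] (hG : SelfSim G) {h : Equiv.Perm (ℕ → X)} {x : ℕ → X}
    {u v : List X} (hu : In u x) (h1 : Cm G h u v) :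
    cc G h x = (v.length : ℤ) - u.length := by
  have H : ∃ n : ℤ, ∃ u v : List X, In u x ∧ Cm G h u v ∧ (v.length : ℤ) - u.length = n :=
    ⟨_, u, v, hu, h1, rfl⟩
  have e : cc G h x = H.choose := by
    unfold cc
    rw [dif_pos H]
  obtain ⟨u', v', hu', h1', e'⟩ := H.choose_spec
  rw [e, ← e']
  rcases le_total u.length u'.length with hle | hle
  · exact (cc_aux hG hu hu' h1 h1' hle).symm
  · exact cc_aux hG hu' hu h1' h1 hle

/-- from depth `m` on `h` acts by cone maps -/
def Good (G : Subgroup (Equiv.Perm (ℕ → X))) (h : Equiv.Perm (ℕ → X)) (m : ℕ) : Prop :=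
  ∀ u : List X, m ≤ u.length → ∃ v, Cm G h u v

theorem InV.good (hG : SelfSim G) {h : Equiv.Perm (ℕ → X)} (hh : InV G h) : ∃ m, Good G h m := by
  obtain ⟨m, hm⟩ := hh
  refine ⟨m, fun u hu => ?_⟩
  obtain ⟨v, hv⟩ := hm (u.take m) (by simp [hu])
  obtain ⟨w', -, h1⟩ := hv.restrict hG (u.drop m)
  rw [List.take_append_drop] at h1
  exact ⟨_, h1⟩

theorem Good.mono {h : Equiv.Perm (ℕ → X)} {m n : ℕ} (hh : Good G h m) (hmn : m ≤ n) :
    Good G h n := fun u hu => hh u (hmn.trans hu)

/-- at depth at least `m` the image of the prefix of `x` is the prefix of `h x` of the right length -/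
theorem Good.cm [Nontrivial X] (hG : SelfSim G) {h : Equiv.Perm (ℕ → X)} {m : ℕ} (hh : Good G h m)
    {n : ℕ} (hn : m ≤ n) (x : ℕ → X) :
    ∃ k : ℕ, (k : ℤ) = n + cc G h x ∧ Cm G h (pre n x) (pre k (h x)) := by
  obtain ⟨v, hv⟩ := hh (pre n x) (by simpa using hn)
  refine ⟨v.length, ?_, ?_⟩
  · rw [cc_eq hG (in_pre n x) hv, pre_length]
    ring
  · rw [← hv.preEq (in_pre n x)]
    exact hv

theorem cc_one [Nontrivial X] (hG : SelfSim G) (x : ℕ → X) : cc G 1 x = 0 := by
  rw [cc_eq hG (in_pre 0 x) (Cm.one _)]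
  simp

theorem cc_mul [Nontrivial X] (hG : SelfSim G) {h k : Equiv.Perm (ℕ → X)} (hh : InV G h)
    (hk : InV G k) (x : ℕ → X) : cc G (k * h) x = cc G k (h x) + cc G h x := by
  obtain ⟨m, hm⟩ := hh.good hG
  obtain ⟨m', hm'⟩ := hk.good hG
  obtain ⟨n, hn1, hn2⟩ : ∃ n : ℕ, m ≤ n ∧ (m' : ℤ) ≤ n + cc G h x :=
    ⟨m + m' + (cc G h x).natAbs, by omega, by omega⟩
  obtain ⟨k1, e1, c1⟩ := hm.cm hG hn1 x
  obtain ⟨k2, e2, c2⟩ := hm'.cm hG (n := k1) (by omega) (h x)
  have := cc_eq hG (in_pre n x) (c2.mul c1)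
  rw [pre_length, pre_length] at this
  omega

theorem cc_inv [Nontrivial X] (hG : SelfSim G) {h : Equiv.Perm (ℕ → X)} (hh : InV G h)
    (x : ℕ → X) : cc G h⁻¹ (h x) = - cc G h x := by
  obtain ⟨m, hm⟩ := hh.good hG
  obtain ⟨k1, e1, c1⟩ := hm.cm hG le_rfl x
  have := cc_eq hG (in_pre k1 (h x)) c1.inv
  rw [pre_length, pre_length] at this
  omega

theorem finite_words [Finite X] (m : ℕ) : {u : List X | u.length = m}.Finite :=
  List.finite_length_eq X m

theorem cc_bdd [Finite X] [Nontrivial X] (hG : SelfSim G) {h : Equiv.Perm (ℕ → X)} (hh : InV G h) :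
    ∃ C : ℕ, ∀ x, |cc G h x| ≤ C := by
  classical
  obtain ⟨m, hm⟩ := hh
  choose! v hv using hm
  obtain ⟨B, hB⟩ := ((finite_words (X := X) m).image (fun u => (v u).length)).bddAbove
  refine ⟨B + m, fun x => ?_⟩
  have h1 := cc_eq hG (in_pre m x) (hv (pre m x) (by simp))
  rw [pre_length] at h1
  have h2 : (v (pre m x)).length ≤ B := hB ⟨pre m x, by simp, rfl⟩
  rw [h1, abs_le]
  constructor <;> push_cast <;> omega

/-- elements of `G` preserve equality of prefixes -/
theorem SelfSim.pre_eq (hG : SelfSim G) {g : Equiv.Perm (ℕ → X)} (hg : g ∈ G) {n : ℕ}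
    {x y : ℕ → X} (h : pre n x = pre n y) : pre n (g x) = pre n (g y) := by
  obtain ⟨w', hw', g', hg', e⟩ := hG.word (pre n x) hg
  have h1 := e (dr n x)
  have h2 := e (dr n y)
  rw [ap_pre_dr] at h1
  rw [h, ap_pre_dr] at h2
  have h3 : w'.length = n := by simpa using hw'
  rw [h1, h2]
  have h4 := pre_ap' w' (g' (dr n x))
  have h5 := pre_ap' w' (g' (dr n y))
  rw [h3] at h4 h5
  rw [h4, h5]

end Pool.Agent.K6.H60.RN
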