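import Pool.Agent.K6.H60.RN.Path

/-!
# Bounded cocycles
-/

set_option autoImplicit false

namespace Pool.Agent.K6.H60.RN

variable {X : Type} {G : Subgroup (Equiv.Perm (ℕ → X))} {K : Type*} [Group K]
  {φ : K →* Equiv.Perm (ℕ → X)}

/-- the stabilizer of a cone -/
def stabC (G : Subgroup (Equiv.Perm (ℕ → X))) (φ : K →* Equiv.Perm (ℕ → X)) (u : List X) :
    Subgroup K where
  carrier := {k | Cm G (φ k) u u}
  one_mem' := by simpa using Cm.one (G := G) u
  mul_mem' := fun ha hb => by
    show Cm G (φ (_ * _)) u u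
    rw [map_mul]
    exact Cm.mul ha hb
  inv_mem' := fun ha => by
    show Cm G (φ (_⁻¹)) u u
    rw [map_inv]
    exact Cm.inv ha

theorem mem_stabC {u : List X} {k : K} : k ∈ stabC G φ u ↔ Cm G (φ k) u u := Iff.rfl

theorem finIdx_of_map (P : Subgroup K) {β : Type*} (f : K → β) (hf : (Set.range f).Finite)
    (h : ∀ a b, f a = f b → a⁻¹ * b ∈ P) : P.FiniteIndex := by
  have h1 : Finite (Set.range f) := hf
  have h2 : Function.Injective (fun q : K ⧸ P => (⟨f q.out, ⟨q.out, rfl⟩⟩ : Set.range f)) := by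
    intro a b hab
    have h3 : f a.out = f b.out := congrArg Subtype.val hab
    have h4 := h _ _ h3
    have h5 : (QuotientGroup.mk a.out : K ⧸ P) = QuotientGroup.mk b.out := QuotientGroup.eq.2 h4
    rwa [QuotientGroup.out_eq', QuotientGroup.out_eq'] at h5
  have h3 : Finite (K ⧸ P) := Finite.of_injective _ h2
  exact Subgroup.finiteIndex_of_finite_quotient

theorem stabC_finite [Finite X] [Nontrivial X] (hG : SelfSim G) (hV : ∀ k, InV G (φ k))
    (D : Data G φ) {x : ℕ → X} {M n : ℕ} (hx : ∀ h : K, |c G φ h x| ≤ M) (hn : D.m + M ≤ n) :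
    (stabC G φ (pre n x)).FiniteIndex := by
  choose j hj1 hj2 using bounded_cm hG hV D hx hn
  refine finIdx_of_map _ (fun k => pre (j k) (φ k x)) ?_ ?_
  · refine (List.finite_length_le X (n + M)).subset ?_
    rintro _ ⟨k, rfl⟩
    have h1 := hj1 k
    have h2 := (abs_le.1 (hx k)).2
    show (pre (j k) (φ k x)).length ≤ n + M
    rw [pre_length]
    omega
  · intro a b hab
    rw [mem_stabC, map_mul, map_inv]
    have h1 := hj2 b
    rw [← hab] at h1
    exact (hj2 a).inv.mul h1

theorem fixed_of_bounded [Finite X] [Nontrivial X] (hG : SelfSim G) (hV : ∀ k, InV G (φ k))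
    (hno : ∀ H : Subgroup K, H.FiniteIndex → H = ⊤)
    (D : Data G φ) {x : ℕ → X} {M : ℕ} (hx : ∀ h : K, |c G φ h x| ≤ M) (k : K) : φ k x = x := by
  apply ext_pre
  intro n
  have h1 := hno _ (stabC_finite hG hV D hx (n := n + (D.m + M)) (by omega))
  have h2 : k ∈ stabC G φ (pre (n + (D.m + M)) x) := by rw [h1]; trivial
  have h3 := (mem_stabC.1 h2).in (in_pre _ x)
  rw [in_pre_iff] at h3
  exact pre_mono (by omega) h3

theorem rf_of_bounded [Finite X] [Nontrivial X] (hG : SelfSim G) (hV : ∀ k, InV G (φ k))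
    (D : Data G φ) {M : ℕ} (hx : ∀ (x : ℕ → X) (h : K), |c G φ h x| ≤ M) {k : K} (hk : φ k ≠ 1) :
    ∃ P : Subgroup K, P.FiniteIndex ∧ k ∉ P := by
  obtain ⟨x, hx1⟩ : ∃ x, φ k x ≠ x := by
    by_contra hcon
    push Not at hcon
    exact hk (Equiv.ext hcon)
  obtain ⟨n, hn⟩ : ∃ n, pre n (φ k x) ≠ pre n x := by
    by_contra hcon
    push Not at hcon
    exact hx1 (ext_pre hcon)
  refine ⟨stabC G φ (pre (n + (D.m + M)) x), stabC_finite hG hV D (hx x) (by omega), ?_⟩
  intro h2
  have h3 := (mem_stabC.1 h2).in (in_pre _ x)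
  rw [in_pre_iff] at h3
  exact hn (pre_mono (by omega) h3)

theorem finite_of_conj (hc : Finite (ConjClasses K))
    (hrf : ∀ k : K, k ≠ 1 → ∃ P : Subgroup K, P.FiniteIndex ∧ k ∉ P) : Finite K := by
  classical
  have h1 : ∀ q : ConjClasses K, ∃ P : Subgroup K, P.FiniteIndex ∧ P.Normal ∧
      (Quotient.out q ≠ 1 → Quotient.out q ∉ P) := by
    intro q
    by_cases h : Quotient.out q = 1
    · exact ⟨⊤, inferInstance, inferInstance, fun h' => absurd h h'⟩
    · obtain ⟨P, hP, hPq⟩ := hrf _ h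
      refine ⟨P.normalCore, inferInstance, inferInstance, fun _ h' => hPq (P.normalCore_le h')⟩
  choose P hP hPn hPq using h1
  have h2 : (⨅ q, P q).FiniteIndex := Subgroup.finiteIndex_iInf hP
  have h3 : (⨅ q, P q) = ⊥ := by
    rw [eq_bot_iff]
    intro k hk
    rw [Subgroup.mem_bot]
    by_contra hk1
    have h4 : IsConj (Quotient.out (ConjClasses.mk k)) k := by
      rw [← ConjClasses.mk_eq_mk_iff_isConj]
      exact Quotient.out_eq _
    obtain ⟨g, hg⟩ := isConj_iff.1 h4.symm
    have h5 : Quotient.out (ConjClasses.mk k) ≠ 1 := by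
      intro h6
      rw [h6] at h4
      exact hk1 (isConj_one_right.1 h4)
    apply hPq (ConjClasses.mk k) h5
    rw [← hg]
    exact (hPn _).conj_mem _ ((Subgroup.mem_iInf.1 hk) _) g
  rw [h3] at h2
  apply Nat.finite_of_card_ne_zero
  rw [← Subgroup.index_bot]
  exact h2.index_ne_zero

/-! ## sections -/

theorem sec_unique {u : List X} {g g' : Equiv.Perm (ℕ → X)} (h : ∀ x, ap u (g x) = ap u (g' x)) :
    g = g' := Equiv.ext fun x => (ap_inj rfl (h x)).2

/-- the section at `u` -/
noncomputable def secHom (G : Subgroup (Equiv.Perm (ℕ → X))) (φ : K →* Equiv.Perm (ℕ → X))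
    (u : List X) : stabC G φ u →* G where
  toFun k := ⟨Classical.choose k.2, (Classical.choose_spec k.2).1⟩
  map_one' := by
    apply Subtype.ext
    apply sec_unique (u := u)
    intro x
    rw [← (Classical.choose_spec (1 : stabC G φ u).2).2 x]
    simp
  map_mul' a b := by
    apply Subtype.ext
    apply sec_unique (u := u)
    intro x
    rw [← (Classical.choose_spec (a * b).2).2 x]
    simp only [Subgroup.coe_mul, map_mul, Equiv.Perm.mul_apply]
    rw [(Classical.choose_spec b.2).2 x, (Classical.choose_spec a.2).2 _]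

theorem secHom_spec (u : List X) (k : stabC G φ u) (x : ℕ → X) :
    φ k (ap u x) = ap u ((secHom G φ u k : Equiv.Perm (ℕ → X)) x) :=
  (Classical.choose_spec k.2).2 x

end Pool.Agent.K6.H60.RN
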