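import Pool.Agent.K6.H60.RN.T56

/-!
# Closures of orbits, compactness
-/

set_option autoImplicit false

namespace Pool.Agent.K6.H60.RN

variable {X : Type} {G : Subgroup (Equiv.Perm (ℕ → X))} {K : Type*} [Group K]
  {φ : K →* Equiv.Perm (ℕ → X)}

/-- continuity -/
theorem InV.cont [Nontrivial X] (hG : SelfSim G) {h : Equiv.Perm (ℕ → X)} (hh : InV G h) (n : ℕ)
    (x : ℕ → X) : ∃ n', ∀ y, pre n' y = pre n' x → pre n (h y) = pre n (h x) := by
  obtain ⟨m, hm⟩ := hh.good hG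
  obtain ⟨n', h1, h2⟩ : ∃ n' : ℕ, m ≤ n' ∧ (n : ℤ) ≤ n' + cc G h x :=
    ⟨m + n + (cc G h x).natAbs, by omega, by omega⟩
  obtain ⟨k, ek, hk⟩ := hm.cm hG h1 x
  refine ⟨n', fun y hy => ?_⟩
  have h3 := hk.in (in_pre_iff.2 hy)
  rw [in_pre_iff] at h3
  exact pre_mono (by omega) h3

/-- compactness of the space of sequences -/
theorem unif [Finite X] {C : Set (ℕ → X)} (hC : ∀ x, x ∉ C → ∃ n, ∀ y, pre n y = pre n x → y ∉ C)
    (P : ℕ → (ℕ → X) → Prop) (hP : ∀ k x, P k x → ∃ n, ∀ y, pre n y = pre n x → P k y)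
    (hmono : ∀ k x, P k x → P (k + 1) x) (hcov : ∀ x ∈ C, ∃ k, P k x) : ∃ k, ∀ x ∈ C, P k x := by
  letI : TopologicalSpace X := ⊥
  haveI : DiscreteTopology X := ⟨rfl⟩
  have hopen : ∀ S : Set (ℕ → X), (∀ x ∈ S, ∃ n, ∀ y, pre n y = pre n x → y ∈ S) → IsOpen S := by
    intro S hS
    rw [isOpen_iff_mem_nhds]
    intro x hx
    obtain ⟨n, hn⟩ := hS x hx
    have h1 : (Set.pi (Set.Iio n) (fun k => ({x k} : Set X))) ∈ nhds x := by
      apply set_pi_mem_nhds (Set.finite_Iio n)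
      intro k _
      exact (isOpen_discrete _).mem_nhds rfl
    apply Filter.mem_of_superset h1
    intro y hy
    apply hn
    apply pre_of_lt
    intro k hk
    exact hy k hk
  have hcl : IsClosed C := by
    rw [← isOpen_compl_iff]
    exact hopen _ hC
  have hcomp : IsCompact C := hcl.isCompact
  have hmono' : ∀ i j, i ≤ j → ∀ x, P i x → P j x := by
    intro i j hij x hx
    obtain ⟨k, rfl⟩ := Nat.exists_eq_add_of_le hij
    clear hij
    induction k with
    | zero => exact hx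
    | succ k ih => exact hmono _ _ ih
  obtain ⟨k, hk⟩ := hcomp.elim_directed_cover (fun k => {x | P k x}) (fun k => hopen _ (hP k))
    (fun x hx => by
      obtain ⟨k, hk⟩ := hcov x hx
      exact Set.mem_iUnion.2 ⟨k, hk⟩)
    (fun i j => ⟨max i j, fun x hx => hmono' _ _ (le_max_left _ _) x hx,
      fun x hx => hmono' _ _ (le_max_right _ _) x hx⟩)
  exact ⟨k, hk⟩

/-- the closure of the orbit -/
def cl (φ : K →* Equiv.Perm (ℕ → X)) (x : ℕ → X) : Set (ℕ → X) :=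
  {y | ∀ n, ∃ k : K, pre n (φ k x) = pre n y}

theorem self_cl (x : ℕ → X) (k : K) : φ k x ∈ cl φ x := fun _ => ⟨k, rfl⟩

theorem self_cl' (x : ℕ → X) : x ∈ cl φ x := fun n => ⟨1, by simp⟩

theorem cl_trans [Nontrivial X] (hG : SelfSim G) (hV : ∀ k, InV G (φ k)) {x y z : ℕ → X}
    (hy : y ∈ cl φ x) (hz : z ∈ cl φ y) : z ∈ cl φ x := by
  intro n
  obtain ⟨k, hk⟩ := hz n
  obtain ⟨n', hn'⟩ := (hV k).cont hG n y
  obtain ⟨k', hk'⟩ := hy n'
  refine ⟨k * k', ?_⟩
  rw [map_mul, Equiv.Perm.mul_apply, hn' _ hk', hk]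

theorem cl_map [Nontrivial X] (hG : SelfSim G) (hV : ∀ k, InV G (φ k)) {x y : ℕ → X}
    (hy : y ∈ cl φ x) (k : K) : φ k y ∈ cl φ x := cl_trans hG hV hy (self_cl y k)

theorem cl_closed {x y : ℕ → X} (hy : y ∉ cl φ x) :
    ∃ n, ∀ z, pre n z = pre n y → z ∉ cl φ x := by
  unfold cl at hy
  simp only [Set.mem_setOf_eq, not_forall, not_exists] at hy
  obtain ⟨n, hn⟩ := hy
  refine ⟨n, fun z hz hzc => ?_⟩
  obtain ⟨k, hk⟩ := hzc n
  exact hn k (hk.trans hz)

theorem cl_iff_near {x y : ℕ → X} (h : ∀ n, ∃ z ∈ cl φ x, pre n z = pre n y) : y ∈ cl φ x := by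
  intro n
  obtain ⟨z, hz, e⟩ := h n
  obtain ⟨k, hk⟩ := hz n
  exact ⟨k, hk.trans e⟩

/-- the stabilizer of a point -/
def ptStab (φ : K →* Equiv.Perm (ℕ → X)) (x : ℕ → X) : Subgroup K where
  carrier := {k | φ k x = x}
  one_mem' := by simp
  mul_mem' := fun {a b} ha hb => by
    show φ (a * b) x = x
    rw [map_mul, Equiv.Perm.mul_apply, show φ b x = x from hb, show φ a x = x from ha]
  inv_mem' := fun {a} ha => by
    show φ a⁻¹ x = x
    exact fix_inv ha

theorem mem_ptStab {x : ℕ → X} {k : K} : k ∈ ptStab φ x ↔ φ k x = x := Iff.rfl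

theorem ptStab_finite {x : ℕ → X} (h : (Set.range fun k : K => φ k x).Finite) :
    (ptStab φ x).FiniteIndex := by
  refine finIdx_of_map _ (fun k => φ k x) h ?_
  intro a b hab
  show φ (a⁻¹ * b) x = x
  rw [map_mul, Equiv.Perm.mul_apply, ← show φ a x = φ b x from hab, map_inv]
  simp

/-- pigeonhole for powers -/
theorem pow_return {A : Set (ℕ → X)} (hA : A.Finite) {k : K} {x : ℕ → X}
    (h : ∀ n : ℕ, φ (k ^ n) x ∈ A) : ∃ n : ℕ, 0 < n ∧ φ (k ^ n) x = x := by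
  have h1 : ¬ Function.Injective (fun n : ℕ => (⟨φ (k ^ n) x, h n⟩ : A)) := by
    intro hinj
    have : Finite A := hA
    exact not_injective_infinite_finite _ hinj
  unfold Function.Injective at h1
  push Not at h1
  obtain ⟨i, j, e, hij⟩ := h1
  have e' : φ (k ^ i) x = φ (k ^ j) x := congrArg Subtype.val e
  clear e
  wlog hlt : i < j generalizing i j
  · exact this j i hij.symm e'.symm (by omega)
  obtain ⟨q, hq⟩ := Nat.exists_eq_add_of_lt hlt
  refine ⟨q + 1, by omega, ?_⟩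
  have h1 : k ^ j = k ^ i * k ^ (q + 1) := by rw [← pow_add]; congr 1
  rw [h1, map_mul, Equiv.Perm.mul_apply] at e'
  exact ((φ (k ^ i)).injective e').symm

end Pool.Agent.K6.H60.RN
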