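import Pool.Agent.K6.H60.RN.Base

/-!
# Contractions: elements which map a cone strictly into itself
-/

set_option autoImplicit false

namespace Pool.Agent.K6.H60.RN

variable {X : Type} {G : Subgroup (Equiv.Perm (ℕ → X))}

theorem Cm.pow (hG : SelfSim G) {h : Equiv.Perm (ℕ → X)} {w t : List X} (hh : Cm G h w (w ++ t))
    (k : ℕ) : ∃ t' : List X, t'.length = k * t.length ∧ Cm G (h ^ k) w (w ++ t') := by
  induction k with
  | zero => exact ⟨[], by simp, by simpa using Cm.one w⟩
  | succ k ih =>
    obtain ⟨t', ht', h1⟩ := ih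
    obtain ⟨t'', ht'', h2⟩ := hh.restrict hG t'
    refine ⟨t ++ t'', by rw [List.length_append, ht'', ht']; ring, ?_⟩
    rw [pow_succ', ← List.append_assoc]
    exact h2.mul h1

/-- uniqueness of the fixed point of a contraction -/
theorem Cm.fix_unique (hG : SelfSim G) {h : Equiv.Perm (ℕ → X)} {w t : List X}
    (hh : Cm G h w (w ++ t)) (ht : t ≠ []) {x y : ℕ → X} (hx : In w x) (hy : In w y)
    (ex : h x = x) (ey : h y = y) : x = y := by
  obtain ⟨g, hg, e⟩ := hh
  obtain ⟨x', rfl⟩ := in_iff.1 hx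
  obtain ⟨y', rfl⟩ := in_iff.1 hy
  have e1 : x' = ap t (g x') := by
    have h1 := e x'
    rw [ex, ap_append] at h1
    exact (ap_inj rfl h1).2
  have e2 : y' = ap t (g y') := by
    have h1 := e y'
    rw [ey, ap_append] at h1
    exact (ap_inj rfl h1).2
  have ht' : 0 < t.length := List.length_pos_iff.2 ht
  have key : ∀ n, pre n x' = pre n y' := by
    intro n
    induction n with
    | zero => rfl
    | succ n ih =>
      have h3 : pre (t.length + n) x' = pre (t.length + n) y' := by
        rw [e1, e2, pre_ap, pre_ap]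
        have h4 : g (ap t (g x')) = g x' := by rw [← e1]
        have h5 : g (ap t (g y')) = g y' := by rw [← e2]
        rw [hG.pre_eq hg (ih)]
      exact pre_mono (by omega) h3
  rw [ext_pre key]

/-- existence of the fixed point of a contraction -/
theorem Cm.fix_exists [Nonempty X] (hG : SelfSim G) {h : Equiv.Perm (ℕ → X)} {w t : List X}
    (hh : Cm G h w (w ++ t)) (ht : t ≠ []) : ∃ p, In w p ∧ h p = p := by
  obtain ⟨g, hg, e⟩ := hh
  have ht' : 0 < t.length := List.length_pos_iff.2 ht
  obtain ⟨a⟩ := (inferInstance : Nonempty X)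
  set F : (ℕ → X) → (ℕ → X) := fun x => ap t (g x) with hF
  have hF1 : ∀ n x y, pre n x = pre n y → pre (n + 1) (F x) = pre (n + 1) (F y) := by
    intro n x y hxy
    have h3 : pre (t.length + n) (F x) = pre (t.length + n) (F y) := by
      rw [hF]
      simp only
      rw [pre_ap, pre_ap, hG.pre_eq hg hxy]
    exact pre_mono (by omega) h3
  set s : ℕ → (ℕ → X) := fun k => F^[k] (fun _ => a) with hs
  have hs1 : ∀ k, s (k + 1) = F (s k) := fun k => by
    rw [hs]
    exact Function.iterate_succ_apply' F k _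
  have hs2 : ∀ k, pre k (s k) = pre k (s (k + 1)) := by
    intro k
    induction k with
    | zero => rfl
    | succ k ih =>
      rw [hs1 k, hs1 (k + 1)]
      exact hF1 k _ _ ih
  have hs3 : ∀ k j, pre k (s k) = pre k (s (k + j)) := by
    intro k j
    induction j with
    | zero => rfl
    | succ j ih =>
      rw [ih, ← Nat.add_assoc]
      exact pre_mono (by omega) (hs2 (k + j))
  set p : ℕ → X := fun n => s (n + 1) n with hp
  have hp1 : ∀ n, pre n p = pre n (s n) := by
    intro n
    apply pre_of_lt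
    intro k hk
    obtain ⟨j, rfl⟩ := Nat.exists_eq_add_of_le (Nat.succ_le_of_lt hk)
    have := pre_succ_eq (hs3 (k + 1) j)
    rw [hp]
    exact this
  have hp2 : F p = p := by
    apply ext_pre
    intro n
    have h1 := hF1 n p (s n) (hp1 n)
    rw [← hs1 n, ← hp1 (n + 1)] at h1
    exact pre_mono (by omega) h1
  refine ⟨ap w p, in_ap _ _, ?_⟩
  rw [e, ap_append]
  have : ap t (g p) = p := hp2
  rw [this]

/-- points of the cone converge to the fixed point -/
theorem Cm.conv (hG : SelfSim G) {h : Equiv.Perm (ℕ → X)} {w t : List X} (hh : Cm G h w (w ++ t))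
    (ht : t ≠ []) {p x : ℕ → X} (hp : In w p) (ep : h p = p) (hx : In w x) {n k : ℕ} (hk : n ≤ k) :
    pre n ((h ^ k) x) = pre n p := by
  obtain ⟨t', ht', h1⟩ := hh.pow hG k
  have h2 := h1.in hx
  have h3 := h1.in hp
  have h4 : (h ^ k) p = p := by
    clear h1 h2 h3 ht' hk
    induction k with
    | zero => rfl
    | succ k ih => rw [pow_succ', Equiv.Perm.mul_apply, ih, ep]
  rw [h4] at h3
  unfold In at h2 h3
  have h5 : 0 < t.length := List.length_pos_iff.2 ht
  have h6 : n ≤ (w ++ t').length := by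
    rw [List.length_append, ht']
    nlinarith
  exact pre_mono h6 (h2.trans h3.symm)

/-- the fixed point has a positive cocycle -/
theorem Cm.cc_fix [Nontrivial X] (hG : SelfSim G) {h : Equiv.Perm (ℕ → X)} {w t : List X}
    (hh : Cm G h w (w ++ t)) {x : ℕ → X} (hx : In w x) : cc G h x = t.length := by
  rw [cc_eq hG hx hh, List.length_append]
  push_cast
  ring

/-! ## actions -/

variable {K : Type*} [Group K] {φ : K →* Equiv.Perm (ℕ → X)}

/-- the cocycle of an action -/
noncomputable def c (G : Subgroup (Equiv.Perm (ℕ → X))) (φ : K →* Equiv.Perm (ℕ → X)) (k : K)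
    (x : ℕ → X) : ℤ := cc G (φ k) x

variable [Nontrivial X] (hG : SelfSim G) (hV : ∀ k, InV G (φ k))
include hG hV

theorem c_mul (k h : K) (x : ℕ → X) : c G φ (k * h) x = c G φ k (φ h x) + c G φ h x := by
  unfold c
  rw [map_mul]
  exact cc_mul hG (hV h) (hV k) x

omit hV in
theorem c_one (x : ℕ → X) : c G φ (1 : K) x = 0 := by
  unfold c
  rw [map_one]
  exact cc_one hG x

theorem c_inv (k : K) (x : ℕ → X) : c G φ k⁻¹ (φ k x) = - c G φ k x := by
  unfold c
  rw [map_inv]
  exact cc_inv hG (hV k) x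

theorem c_pow {k : K} {x : ℕ → X} (hx : φ k x = x) (n : ℕ) : c G φ (k ^ n) x = n * c G φ k x := by
  induction n with
  | zero => simp [c_one hG]
  | succ n ih =>
    rw [pow_succ, c_mul hG hV, hx, ih]
    push_cast
    ring

theorem c_inv_fix {k : K} {x : ℕ → X} (hx : φ k x = x) : c G φ k⁻¹ x = - c G φ k x := by
  have := c_inv hG hV k x
  rwa [hx] at this

omit [Nontrivial X] hG hV in
theorem fix_inv {k : K} {x : ℕ → X} (hx : φ k x = x) : φ k⁻¹ x = x := by
  rw [map_inv, Equiv.Perm.inv_eq_iff_eq, hx]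

omit [Nontrivial X] hG hV in
theorem fix_pow {k : K} {x : ℕ → X} (hx : φ k x = x) (n : ℕ) : φ (k ^ n) x = x := by
  induction n with
  | zero => simp
  | succ n ih => rw [pow_succ, map_mul, Equiv.Perm.mul_apply, hx, ih]

omit [Nontrivial X] hG hV in
theorem fix_zpow {k : K} {x : ℕ → X} (hx : φ k x = x) (n : ℤ) : φ (k ^ n) x = x := by
  have h1 : k ∈ (MulAction.stabilizer (Equiv.Perm (ℕ → X)) x).comap φ := by
    simpa using hx
  have h2 := Subgroup.zpow_mem _ h1 n
  simpa using h2

theorem c_zpow {k : K} {x : ℕ → X} (hx : φ k x = x) (n : ℤ) : c G φ (k ^ n) x = n * c G φ k x := by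
  cases n with
  | ofNat n => simpa using c_pow hG hV hx n
  | negSucc n =>
    rw [zpow_negSucc, c_inv_fix hG hV (fix_pow hx _), c_pow hG hV hx]
    push_cast
    rw [Int.negSucc_eq]
    ring

theorem c_conj (g k : K) {x : ℕ → X} (hx : φ k x = x) :
    φ (g * k * g⁻¹) (φ g x) = φ g x ∧ c G φ (g * k * g⁻¹) (φ g x) = c G φ k x := by
  have h0 : φ g⁻¹ (φ g x) = x := by rw [map_inv]; simp
  constructor
  · rw [map_mul, map_mul, Equiv.Perm.mul_apply, Equiv.Perm.mul_apply, h0, hx]
  · rw [c_mul hG hV, h0, c_mul hG hV, hx, c_inv hG hV]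
    ring

/-- if `k` fixes `p` with a positive cocycle, then `k` contracts a cone of each large depth -/
theorem contr_of_fix {k : K} {p : ℕ → X} (hp : φ k p = p) (hc : 0 < c G φ k p) :
    ∃ m : ℕ, ∀ n, m ≤ n → ∃ t : List X, t ≠ [] ∧ (t.length : ℤ) = c G φ k p ∧
      Cm G (φ k) (pre n p) (pre n p ++ t) := by
  obtain ⟨m, hm⟩ := (hV k).good hG
  refine ⟨m, fun n hn => ?_⟩
  obtain ⟨j, ej, hj⟩ := hm.cm hG hn p
  have h1 : n ≤ j := by
    have : cc G (φ k) p = c G φ k p := rfl
    omega
  obtain ⟨i, rfl⟩ := Nat.exists_eq_add_of_le h1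
  rw [hp, pre_add] at hj
  refine ⟨pre i (dr n p), ?_, ?_, hj⟩
  · intro h0
    have : i = 0 := by
      have := congrArg List.length h0
      simpa using this
    subst this
    have : cc G (φ k) p = c G φ k p := rfl
    omega
  · rw [pre_length]
    have : cc G (φ k) p = c G φ k p := rfl
    omega

theorem stable_of_fix {k : K} {p : ℕ → X} (hp : φ k p = p) (hc : c G φ k p = 0) :
    ∃ m : ℕ, ∀ n, m ≤ n → Cm G (φ k) (pre n p) (pre n p) := by
  obtain ⟨m, hm⟩ := (hV k).good hG
  refine ⟨m, fun n hn => ?_⟩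
  obtain ⟨j, ej, hj⟩ := hm.cm hG hn p
  have h1 : n = j := by
    have : cc G (φ k) p = c G φ k p := rfl
    omega
  rw [← h1, hp] at hj
  exact hj

/-- finitely many attracting fixed points -/
theorem finite_att [Finite X] (k : K) : {x | φ k x = x ∧ 0 < c G φ k x}.Finite := by
  obtain ⟨m, hm⟩ := (hV k).good hG
  refine Set.Finite.of_finite_image (f := pre m) ((finite_words (X := X) m).subset ?_) ?_
  · rintro _ ⟨x, -, rfl⟩
    simp
  · rintro x ⟨hx, hxc⟩ y ⟨hy, hyc⟩ e
    obtain ⟨j, ej, hj⟩ := hm.cm hG le_rfl x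
    have h1 : m ≤ j := by
      have : cc G (φ k) x = c G φ k x := rfl
      omega
    obtain ⟨i, rfl⟩ := Nat.exists_eq_add_of_le h1
    rw [hx, pre_add] at hj
    have h2 : pre i (dr m x) ≠ [] := by
      intro h0
      have : i = 0 := by
        have := congrArg List.length h0
        simpa using this
      subst this
      have : cc G (φ k) x = c G φ k x := rfl
      omega
    exact hj.fix_unique hG h2 (in_pre m x) (in_pre_iff.2 e.symm) hx hy

end Pool.Agent.K6.H60.RN
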