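import Pool.Agent.K6.H60.RN.T3

/-!
# The group of the almost automorphisms of a regular rooted tree
-/

set_option autoImplicit false

namespace Pool.Agent.K6.H60.RN

variable {X : Type}

/-- `g` preserves the lengths of common prefixes -/
def IsAut (g : Equiv.Perm (ℕ → X)) : Prop := ∀ n x y, pre n (g x) = pre n (g y) ↔ pre n x = pre n y

theorem IsAut.inv {g : Equiv.Perm (ℕ → X)} (h : IsAut g) : IsAut g⁻¹ := by
  intro n x y
  rw [← h n]
  simp

/-- the automorphism group of the tree -/
def treeAut (X : Type) : Subgroup (Equiv.Perm (ℕ → X)) where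
  carrier := {g | IsAut g}
  one_mem' := fun n x y => Iff.rfl
  mul_mem' := fun {a b} ha hb n x y => by
    rw [Equiv.Perm.mul_apply, Equiv.Perm.mul_apply, ha n, hb n]
  inv_mem' := fun {a} ha => IsAut.inv ha

theorem mem_treeAut {g : Equiv.Perm (ℕ → X)} : g ∈ treeAut X ↔ IsAut g := Iff.rfl

theorem selfSim_treeAut : SelfSim (treeAut X) := by
  intro g hg a
  have hg' : IsAut g := hg
  have hgi := hg'.inv
  set x0 : ℕ → X := fun _ => a with hx0
  set b := g (cons a x0) 0 with hb
  have h1 : ∀ x, g (cons a x) 0 = b := by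
    intro x
    have h2 : pre 1 (g (cons a x)) = pre 1 (g (cons a x0)) := (hg' 1 _ _).2 rfl
    exact pre_succ_eq h2
  have h2 : ∀ y, g⁻¹ (cons b y) 0 = a := by
    intro y
    have h3 : pre 1 (g⁻¹ (cons b y)) = pre 1 (g⁻¹ (g (cons a x0))) := by
      rw [hgi 1]
      rfl
    have h4 := pre_succ_eq h3
    rw [h4]
    simp
  have h3 : ∀ x, cons b (fun n => g (cons a x) (n + 1)) = g (cons a x) := by
    intro x
    rw [← h1 x]
    exact cons_eta _
  have h4 : ∀ y, cons a (fun n => g⁻¹ (cons b y) (n + 1)) = g⁻¹ (cons b y) := by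
    intro y
    conv_lhs => rw [← h2 y]
    exact cons_eta _
  let g' : Equiv.Perm (ℕ → X) :=
    { toFun := fun x n => g (cons a x) (n + 1)
      invFun := fun y n => g⁻¹ (cons b y) (n + 1)
      left_inv := by
        intro x
        simp only
        rw [h3 x]
        simp
      right_inv := by
        intro y
        simp only
        rw [h4 y]
        simp }
  refine ⟨b, g', ?_, fun x => (h3 x).symm⟩
  intro n x y
  have h5 := hg' (n + 1) (cons a x) (cons a y)
  rw [← h3 x, ← h3 y, pre_cons, pre_cons, pre_cons, pre_cons] at h5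
  simp only [List.cons.injEq, true_and] at h5
  exact h5

/-- `h` is an almost automorphism -/
def AlmostAut (h : Equiv.Perm (ℕ → X)) : Prop :=
  ∃ m : ℕ, ∀ u : List X, u.length = m → ∃ (v : List X) (g : Equiv.Perm (ℕ → X)), IsAut g ∧
    ∀ x, h (ap u x) = ap v (g x)

theorem AlmostAut.inV {h : Equiv.Perm (ℕ → X)} (hh : AlmostAut h) : InV (treeAut X) h := by
  obtain ⟨m, hm⟩ := hh
  refine ⟨m, fun u hu => ?_⟩
  obtain ⟨v, g, hg, e⟩ := hm u hu
  exact ⟨v, g, hg, e⟩

variable {K : Type} [Group K] {φ : K →* Equiv.Perm (ℕ → X)} {G : Subgroup (Equiv.Perm (ℕ → X))}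

theorem type5_trivial [Finite X] [Nontrivial X] (hG : SelfSim G) (hV : ∀ k, InV G (φ k))
    (hK : Group.FG K) (hd : ∀ g : K, ∀ m : ℕ, 1 ≤ m → ∃ h : K, h ^ m = g) (x : ℕ → X) (k : K) :
    φ k x = x := by
  obtain ⟨D⟩ := exists_data hG hV hK
  rcases dich hG hV D with h | ⟨γ, p, hp, hc⟩
  · exact fixed_of_bounded hG hV (R673.MG.complete_no_fi hd) D (h x) k
  · exact absurd hc (no_att_of_div hG hV hd hp)

theorem type6_finite [Finite X] [Nontrivial X] (hG : SelfSim G) (hV : ∀ k, InV G (φ k))
    (hK : Group.FG K) (hc : Finite (ConjClasses K)) : Finite φ.range := by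
  have hV' : ∀ k : φ.range, InV G (φ.range.subtype k) := by
    rintro ⟨_, k, rfl⟩
    exact hV k
  have hK' : Group.FG φ.range := by
    have := hK
    exact Group.fg_range φ
  have hc' : Finite (ConjClasses φ.range) := by
    refine Finite.of_surjective (ConjClasses.map φ.rangeRestrict) ?_
    exact ConjClasses.map_surjective φ.rangeRestrict_surjective
  obtain ⟨D⟩ := exists_data hG hV' hK'
  rcases dich hG hV' D with h | ⟨γ, p, hp, hcc⟩
  · refine finite_of_conj hc' fun k hk => rf_of_bounded hG hV' D h ?_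
    intro h1
    apply hk
    exact Subtype.ext h1
  · exact absurd hcc (no_att_of_conj hG hV' hc' hp)

end Pool.Agent.K6.H60.RN
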