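import Pool.Agent.K6.H60.RN.Contr

/-!
# The path lemma: unbounded cocycles give contractions of cones of bounded depth
-/

set_option autoImplicit false

namespace Pool.Agent.K6.H60.RN

variable {X : Type} {G : Subgroup (Equiv.Perm (ℕ → X))} {K : Type*} [Group K]
  {φ : K →* Equiv.Perm (ℕ → X)}

/-- the product `sₙ ⋯ s₁` for the list `[s₁, …, sₙ]` -/
def ev : List K → K
  | [] => 1
  | s :: l => ev l * s

theorem ev_append (l l' : List K) : ev (l ++ l') = ev l' * ev l := by
  induction l with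
  | nil => simp [ev]
  | cons s l ih => show ev (l ++ l') * s = ev l' * (ev l * s); rw [ih, mul_assoc]

theorem ev_surj {S : Set K} (hS : Subgroup.closure S = ⊤) (k : K) :
    ∃ l : List K, (∀ s ∈ l, s ∈ S ∪ S⁻¹) ∧ ev l = k := by
  have hk : k ∈ Subgroup.closure S := by rw [hS]; trivial
  induction hk using Subgroup.closure_induction with
  | mem x hx => exact ⟨[x], by simp [hx], by simp [ev]⟩
  | one => exact ⟨[], by simp, rfl⟩
  | mul x y _ _ hx hy =>
    obtain ⟨l, hl, e⟩ := hx
    obtain ⟨l', hl', e'⟩ := hy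
    refine ⟨l' ++ l, ?_, by rw [ev_append, e, e']⟩
    intro s hs
    rcases List.mem_append.1 hs with h | h
    · exact hl' s h
    · exact hl s h
  | inv x _ hx =>
    obtain ⟨l, hl, e⟩ := hx
    refine ⟨(l.map (·⁻¹)).reverse, ?_, ?_⟩
    · intro s hs
      rw [List.mem_reverse, List.mem_map] at hs
      obtain ⟨a, ha, rfl⟩ := hs
      rcases hl a ha with h | h
      · exact Or.inr (by simpa using h)
      · exact Or.inl h
    · rw [← e]
      clear e hl
      induction l with
      | nil => simp [ev]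
      | cons s l ih =>
        rw [List.map_cons, List.reverse_cons, ev_append, ih]
        simp [ev]

/-- generators with uniform constants -/
structure Data (G : Subgroup (Equiv.Perm (ℕ → X))) (φ : K →* Equiv.Perm (ℕ → X)) where
  S : Set K
  m : ℕ
  C : ℕ
  gen : ∀ k : K, ∃ l : List K, (∀ s ∈ l, s ∈ S) ∧ ev l = k
  good : ∀ s ∈ S, Good G (φ s) m
  bdd : ∀ s ∈ S, ∀ x, |c G φ s x| ≤ C

theorem exists_data [Finite X] [Nontrivial X] (hG : SelfSim G) (hV : ∀ k, InV G (φ k))
    (hK : Group.FG K) : Nonempty (Data G φ) := by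
  classical
  obtain ⟨S0, hS0, hS0f⟩ := Group.fg_iff.1 hK
  have hf : (S0 ∪ S0⁻¹).Finite := hS0f.union hS0f.inv
  choose m hm using fun k => (hV k).good hG
  choose C hC using fun k => cc_bdd hG (hV k)
  obtain ⟨M, hM⟩ := (hf.image m).bddAbove
  obtain ⟨B, hB⟩ := (hf.image C).bddAbove
  refine ⟨⟨S0 ∪ S0⁻¹, M, B, ev_surj hS0, fun s hs => (hm s).mono (hM ⟨s, hs, rfl⟩), fun s hs x => ?_⟩⟩
  have h1 : C s ≤ B := hB ⟨s, hs, rfl⟩
  have h2 := hC s x
  have h3 : |c G φ s x| = |cc G (φ s) x| := rfl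
  rw [h3]
  exact h2.trans (by exact_mod_cast h1)

variable [Nontrivial X]

theorem path_valid (hG : SelfSim G) (hV : ∀ k, InV G (φ k)) (D : Data G φ) (l : List K)
    (hl : ∀ s ∈ l, s ∈ D.S) (x : ℕ → X) (L : ℕ)
    (hL : ∀ i, (D.m : ℤ) ≤ L + c G φ (ev (l.take i)) x) :
    ∃ L' : ℕ, (L' : ℤ) = L + c G φ (ev l) x ∧ Cm G (φ (ev l)) (pre L x) (pre L' (φ (ev l) x)) := by
  induction l generalizing x L with
  | nil =>
    refine ⟨L, by simp [ev, c_one hG], ?_⟩
    simpa [ev] using Cm.one (G := G) (pre L x)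
  | cons s l ih =>
    have h0 := hL 0
    simp only [List.take_zero, ev, c_one hG, add_zero] at h0
    obtain ⟨j, ej, hj⟩ := (D.good s (hl s (by simp))).cm hG (n := L) (by exact_mod_cast h0) x
    have ej' : (j : ℤ) = L + c G φ s x := ej
    obtain ⟨L', e1, h1⟩ := ih (fun a ha => hl a (by simp [ha])) (φ s x) j (by
      intro i
      have h2 := hL (i + 1)
      simp only [List.take_succ_cons, ev] at h2
      rw [c_mul hG hV] at h2
      omega)
    refine ⟨L', ?_, ?_⟩
    · simp only [ev]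
      rw [c_mul hG hV]
      omega
    · simp only [ev]
      rw [map_mul, Equiv.Perm.mul_apply]
      exact h1.mul hj

theorem path_first (hG : SelfSim G) (hV : ∀ k, InV G (φ k)) (D : Data G φ) (h : K)
    (x : ℕ → X) (k : ℕ) (hk : c G φ h x ≤ -k) :
    ∃ g : K, ∃ L : ℕ, D.m + k ≤ L ∧ L ≤ D.m + k + D.C ∧ ∃ w : List X, w.length = D.m ∧
      Cm G (φ g) w (pre L x) := by
  classical
  obtain ⟨l, hl, rfl⟩ := D.gen h
  have hex : ∃ i, c G φ (ev (l.take i)) x ≤ -k := ⟨l.length, by simpa using hk⟩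
  set i := Nat.find hex with hi
  have hi1 : c G φ (ev (l.take i)) x ≤ -k := Nat.find_spec hex
  have hi2 : ∀ j, j < i → -(k : ℤ) < c G φ (ev (l.take j)) x := fun j hj => by
    have := Nat.find_min hex hj
    push Not at this
    exact this
  have hi3 : -(k : ℤ) - D.C ≤ c G φ (ev (l.take i)) x := by
    rcases Nat.eq_zero_or_pos i with h0 | h0
    · rw [h0]
      simp only [List.take_zero, ev, c_one hG]
      omega
    · obtain ⟨j, hj⟩ : ∃ j, i = j + 1 := ⟨i - 1, by omega⟩
      have h1 := hi2 j (by omega)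
      rcases Nat.lt_or_ge j l.length with h2 | h2
      · rw [hj, List.take_add_one, ev_append, c_mul hG hV, List.getElem?_eq_getElem h2]
        simp only [Option.toList, ev, one_mul]
        have h3 := D.bdd (l[j]) (hl _ (List.getElem_mem h2)) (φ (ev (l.take j)) x)
        have h4 := (abs_le.1 h3).1
        omega
      · have h3 : l.take i = l.take j := by
          rw [List.take_of_length_le (by omega), List.take_of_length_le (by omega)]
        rw [h3]
        omega
  obtain ⟨L, hL⟩ : ∃ L : ℕ, (L : ℤ) = D.m - c G φ (ev (l.take i)) x :=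
    ⟨(D.m - c G φ (ev (l.take i)) x).toNat, by omega⟩
  obtain ⟨L', e1, h1⟩ := path_valid hG hV D (l.take i) (fun s hs => hl s (List.mem_of_mem_take hs))
    x L (by
      intro j
      rw [List.take_take]
      rcases Nat.lt_or_ge j i with h2 | h2
      · rw [min_eq_left h2.le]
        have := hi2 j h2
        omega
      · rw [min_eq_right h2]
        omega)
  have h2 : L' = D.m := by omega
  refine ⟨(ev (l.take i))⁻¹, L, by omega, by omega, pre L' (φ (ev (l.take i)) x), by
    rw [pre_length, h2], ?_⟩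
  rw [map_inv]
  exact h1.inv

/-- the bound -/
noncomputable def Data.M (D : Data G φ) : ℕ := Nat.card {u : List X // u.length = D.m} * (D.C + 1)

theorem path_pigeon [Finite X] (hG : SelfSim G) (hV : ∀ k, InV G (φ k)) (D : Data G φ) (h : K)
    (x : ℕ → X) (hh : c G φ h x ≤ -D.M) :
    ∃ w : List X, w.length = D.m ∧ ∃ g g' : K, ∃ L L' : ℕ, L < L' ∧ L' ≤ D.m + D.M + D.C ∧
      Cm G (φ g) w (pre L x) ∧ Cm G (φ g') w (pre L' x) := by
  classical
  set N := Nat.card {u : List X // u.length = D.m} with hN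
  have hfin : Finite {u : List X // u.length = D.m} := (finite_words (X := X) D.m).to_subtype
  have h1 : ∀ j : Fin (N + 1), ∃ g : K, ∃ L : ℕ, D.m + j * (D.C + 1) ≤ L ∧
      L ≤ D.m + j * (D.C + 1) + D.C ∧ ∃ w : List X, w.length = D.m ∧ Cm G (φ g) w (pre L x) := by
    intro j
    apply path_first hG hV D h x
    have h2 : (j : ℕ) * (D.C + 1) ≤ D.M := by
      unfold Data.M
      exact Nat.mul_le_mul_right _ (by omega)
    have h3 : ((j * (D.C + 1) : ℕ) : ℤ) ≤ D.M := by exact_mod_cast h2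
    omega
  choose g L hL1 hL2 w hw hc using h1
  obtain ⟨i, j, hij, e⟩ : ∃ i j : Fin (N + 1), i ≠ j ∧
      (⟨w i, hw i⟩ : {u : List X // u.length = D.m}) = ⟨w j, hw j⟩ := by
    by_contra hcon
    push Not at hcon
    have hinj : Function.Injective
        (fun i : Fin (N + 1) => (⟨w i, hw i⟩ : {u : List X // u.length = D.m})) := by
      intro a b hab
      by_contra hne
      exact hcon a b hne hab
    have := Nat.card_le_card_of_injective _ hinj
    rw [Nat.card_fin] at this
    omega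
  have e' : w i = w j := congrArg Subtype.val e
  have hlt : ∀ a b : Fin (N + 1), a < b → L a < L b := by
    intro a b hab
    have h2 := hL2 a
    have h3 := hL1 b
    have h4 : (a : ℕ) + 1 ≤ b := hab
    have h5 : ((a : ℕ) + 1) * (D.C + 1) ≤ b * (D.C + 1) := Nat.mul_le_mul_right _ h4
    have h6 : ((a : ℕ) + 1) * (D.C + 1) = a * (D.C + 1) + (D.C + 1) := by ring
    omega
  have hub : ∀ a : Fin (N + 1), L a ≤ D.m + D.M + D.C := by
    intro a
    have h2 := hL2 a
    have h3 : (a : ℕ) * (D.C + 1) ≤ D.M := by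
      unfold Data.M
      exact Nat.mul_le_mul_right _ (by omega)
    omega
  rcases lt_or_gt_of_ne hij with h2 | h2
  · exact ⟨w i, hw i, g i, g j, L i, L j, hlt i j h2, hub j, hc i, by rw [e']; exact hc j⟩
  · exact ⟨w i, hw i, g j, g i, L j, L i, hlt j i h2, hub i, by rw [e']; exact hc j, hc i⟩

/-- large values of the cocycle give a contraction of a cone of depth `D.m` which the orbit meets -/
theorem path_contr [Finite X] (hG : SelfSim G) (hV : ∀ k, InV G (φ k)) (D : Data G φ) (h : K)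
    (x : ℕ → X) (hh : c G φ h x ≤ -D.M) :
    ∃ w : List X, w.length = D.m ∧ ∃ γ : K, ∃ t : List X, t ≠ [] ∧ Cm G (φ γ) w (w ++ t) ∧
      ∃ g : K, In w (φ g x) := by
  obtain ⟨w, hw, g, g', L, L', hlt, -, h1, h2⟩ := path_pigeon hG hV D h x hh
  obtain ⟨n, rfl⟩ := Nat.exists_eq_add_of_lt hlt
  rw [Nat.add_assoc, pre_add] at h2
  obtain ⟨t, ht, h3⟩ := h1.inv.restrict hG (pre (n + 1) (dr L x))
  refine ⟨w, hw, g⁻¹ * g', t, ?_, ?_, g⁻¹, ?_⟩
  · intro h0
    rw [h0] at ht
    simp at ht
  · rw [map_mul, map_inv]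
    exact h3.mul h2
  · rw [map_inv]
    exact h1.inv.in (in_pre L x)

/-- the same with the absolute value -/
theorem path_contr' [Finite X] (hG : SelfSim G) (hV : ∀ k, InV G (φ k)) (D : Data G φ) (h : K)
    (x : ℕ → X) (hh : (D.M : ℤ) ≤ |c G φ h x|) :
    ∃ w : List X, w.length = D.m ∧ ∃ γ : K, ∃ t : List X, t ≠ [] ∧ Cm G (φ γ) w (w ++ t) ∧
      ∃ g : K, In w (φ g x) := by
  rcases le_abs.1 hh with h1 | h1
  · have h2 : c G φ h⁻¹ (φ h x) ≤ -D.M := by
      rw [c_inv hG hV]
      omega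
    obtain ⟨w, hw, γ, t, ht, h3, g, hg⟩ := path_contr hG hV D _ _ h2
    exact ⟨w, hw, γ, t, ht, h3, g * h, by rw [map_mul]; exact hg⟩
  · exact path_contr hG hV D h x (by omega)

/-- bounded cocycle at `x`: all elements act by cone maps on the prefix of `x` of depth `≥ m + M` -/
theorem bounded_cm (hG : SelfSim G) (hV : ∀ k, InV G (φ k)) (D : Data G φ) {x : ℕ → X} {M n : ℕ}
    (hx : ∀ h : K, |c G φ h x| ≤ M) (hn : D.m + M ≤ n) (h : K) :
    ∃ k : ℕ, (k : ℤ) = n + c G φ h x ∧ Cm G (φ h) (pre n x) (pre k (φ h x)) := by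
  obtain ⟨l, hl, rfl⟩ := D.gen h
  apply path_valid hG hV D l hl x n
  intro i
  have := (abs_le.1 (hx (ev (l.take i)))).1
  omega

end Pool.Agent.K6.H60.RN
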