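import Pool.Agent.K6.H60.RN.Cl
import Pool.Agent.N6.W.Semi
import Pool.Agent.N6.W.Milnor

/-!
# Groups without free semigroups: isolation of attracting fixed points
-/

set_option autoImplicit false

namespace Pool.Agent.K6.H60.RN

open Pool.Agent.H785R3.GrowthA (FreePair)

variable {X : Type} {G : Subgroup (Equiv.Perm (ℕ → X))} {K : Type} [Group K]
  {φ : K →* Equiv.Perm (ℕ → X)}

theorem pp {C : Set (ℕ → X)} (hC : C.Nonempty) {a b : K} (ha : ∀ x ∈ C, φ a x ∈ C)
    (hb : ∀ x ∈ C, φ b x ∈ C) (hab : ∀ x ∈ C, ∀ y ∈ C, φ a x ≠ φ b y) : FreePair a b := by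
  have hev : ∀ l : List Bool, ∀ x ∈ C, φ (Pool.Agent.H785R3.GrowthA.ev a b l) x ∈ C := by
    intro l
    induction l with
    | nil => intro x hx; simpa using hx
    | cons t l ih =>
      intro x hx
      rw [Pool.Agent.H785R3.GrowthA.ev_cons, map_mul, Equiv.Perm.mul_apply]
      cases t
      · exact ha _ (ih x hx)
      · exact hb _ (ih x hx)
  obtain ⟨x, hx⟩ := hC
  intro l
  induction l with
  | nil =>
    intro l' hl _
    exact (List.length_eq_zero_iff.1 hl.symm).symm
  | cons t l ih =>
    intro l' hl e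
    cases l' with
    | nil => simp at hl
    | cons t' l' =>
      rw [Pool.Agent.H785R3.GrowthA.ev_cons, Pool.Agent.H785R3.GrowthA.ev_cons] at e
      have hl' : l.length = l'.length := by simpa using hl
      cases t <;> cases t'
      · simp only [Bool.false_eq_true, if_false] at e
        rw [ih l' hl' (mul_left_cancel e)]
      · exfalso
        simp only [Bool.false_eq_true, if_false, if_true] at e
        apply hab _ (hev l x hx) _ (hev l' x hx)
        rw [← Equiv.Perm.mul_apply, ← map_mul, e, map_mul, Equiv.Perm.mul_apply]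
      · exfalso
        simp only [Bool.false_eq_true, if_false, if_true] at e
        apply hab _ (hev l' x hx) _ (hev l x hx)
        rw [← Equiv.Perm.mul_apply, ← map_mul, ← e, map_mul, Equiv.Perm.mul_apply]
      · simp only [if_true] at e
        rw [ih l' hl' (mul_left_cancel e)]

theorem exists_pre_ne {x y : ℕ → X} (h : x ≠ y) : ∃ n, pre n x ≠ pre n y := by
  by_contra hcon
  push Not at hcon
  exact h (ext_pre hcon)

/-- the fixed point of a contraction is isolated in its orbit -/
theorem isolate [Nontrivial X] (hG : SelfSim G) (hV : ∀ k, InV G (φ k))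
    (hNF : ∀ a b : K, ¬ FreePair a b) {γ : K} {w t : List X} (hC : Cm G (φ γ) w (w ++ t))
    (ht : t ≠ []) {p : ℕ → X} (hp : In w p) (ep : φ γ p = p) {g : K} (hg : In w (φ g p)) :
    φ g p = p := by
  by_contra hne
  obtain ⟨n0, hn0⟩ := exists_pre_ne hne
  obtain ⟨n1, hn1⟩ := (hV g).cont hG (max n0 w.length) p
  refine hNF (γ ^ n0) (g * γ ^ n1) (pp (φ := φ) (C := {x | In w x}) ⟨p, hp⟩ ?_ ?_ ?_)
  · intro x hx
    obtain ⟨t', -, h1⟩ := hC.pow hG n0
    rw [map_pow]
    exact in_append (h1.in hx)
  · intro x hx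
    have h1 := hC.conv hG ht hp ep hx (n := n1) le_rfl
    have h2 := hn1 _ h1
    rw [map_mul, Equiv.Perm.mul_apply, map_pow]
    have h3 := pre_mono (le_max_right n0 w.length) h2
    show pre w.length _ = w
    rw [h3]
    exact hg
  · intro x hx y hy e
    have h1 := hC.conv hG ht hp ep hx (n := n0) le_rfl
    have h2 := hn1 _ (hC.conv hG ht hp ep hy (n := n1) le_rfl)
    have h3 := pre_mono (le_max_left n0 w.length) h2
    rw [map_mul, Equiv.Perm.mul_apply, map_pow, map_pow] at e
    rw [← e, h1] at h3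
    exact hn0 h3.symm

/-- two contractions of a cone have the same fixed point -/
theorem same_fix [Nontrivial X] (hG : SelfSim G)
    (hNF : ∀ a b : K, ¬ FreePair a b) {γ γ' : K} {w t t' : List X} (hC : Cm G (φ γ) w (w ++ t))
    (ht : t ≠ []) (hC' : Cm G (φ γ') w (w ++ t')) (ht' : t' ≠ []) {p p' : ℕ → X} (hp : In w p)
    (ep : φ γ p = p) (hp' : In w p') (ep' : φ γ' p' = p') : p = p' := by
  by_contra hne
  obtain ⟨n0, hn0⟩ := exists_pre_ne hne
  refine hNF (γ ^ n0) (γ' ^ n0) (pp (φ := φ) (C := {x | In w x}) ⟨p, hp⟩ ?_ ?_ ?_)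
  · intro x hx
    obtain ⟨t', -, h1⟩ := hC.pow hG n0
    rw [map_pow]
    exact in_append (h1.in hx)
  · intro x hx
    obtain ⟨t', -, h1⟩ := hC'.pow hG n0
    rw [map_pow]
    exact in_append (h1.in hx)
  · intro x hx y hy e
    have h1 := hC.conv hG ht hp ep hx (n := n0) le_rfl
    have h2 := hC'.conv hG ht' hp' ep' hy (n := n0) le_rfl
    rw [map_pow, map_pow] at e
    rw [← e, h1] at h2
    exact hn0 h2

/-! ## finitely generated kernels -/

theorem sub_fg_comm {A : Type*} [CommGroup A] (hA : Group.FG A) (B : Subgroup A) : B.FG := by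
  rw [Subgroup.fg_iff_add_fg]
  have h1 : Module.Finite ℤ (Additive A) := Module.Finite.iff_addGroup_fg.2 inferInstance
  have h2 : IsNoetherian ℤ (Additive A) := inferInstance
  have h3 := IsNoetherian.noetherian (AddSubgroup.toIntSubmodule (Subgroup.toAddSubgroup B))
  rw [Submodule.fg_iff_addSubgroup_fg] at h3
  simpa using h3

theorem fg_between (P : Subgroup K) (hP : Group.FG P) (hc : (⁅P, P⁆ : Subgroup K).FG)
    (N : Subgroup K) (h1 : ⁅P, P⁆ ≤ N) (h2 : N ≤ P) : N.FG := by
  classical
  have hA : Group.FG (Abelianization P) := by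
    have := hP
    exact QuotientGroup.fg _
  obtain ⟨S, hS⟩ := sub_fg_comm hA ((N.subgroupOf P).map Abelianization.of)
  have hS1 : ∀ s ∈ S, ∃ n : P, (n : K) ∈ N ∧ Abelianization.of n = s := by
    intro s hs
    have h3 : s ∈ (N.subgroupOf P).map Abelianization.of := by
      rw [← hS]
      exact Subgroup.subset_closure hs
    obtain ⟨n, hn, e⟩ := h3
    exact ⟨n, hn, e⟩
  choose! f hf1 hf2 using hS1
  set T : Finset K := S.image (fun s => (f s : K)) with hT
  have h3 : N = Subgroup.closure (T : Set K) ⊔ ⁅P, P⁆ := by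
    apply le_antisymm
    · intro n hn
      have hnP : n ∈ P := h2 hn
      have h4 : Abelianization.of (⟨n, hnP⟩ : P) ∈
          (Subgroup.closure (f '' (S : Set (Abelianization P)))).map Abelianization.of := by
        rw [MonoidHom.map_closure, ← Set.image_comp]
        have h5 : (Abelianization.of ∘ f) '' (S : Set (Abelianization P)) = S := by
          ext s
          constructor
          · rintro ⟨s', hs', rfl⟩
            rw [Function.comp_apply, hf2 s' hs']
            exact hs'
          · intro hs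
            exact ⟨s, hs, hf2 s hs⟩
        rw [h5, hS]
        exact ⟨⟨n, hnP⟩, hn, rfl⟩
      obtain ⟨m, hm, e⟩ := h4
      have h5 : m⁻¹ * (⟨n, hnP⟩ : P) ∈ commutator P := by
        rw [← Abelianization.ker_of, MonoidHom.mem_ker, map_mul, map_inv, e, inv_mul_cancel]
      have h6 : (m : K) ∈ Subgroup.closure (T : Set K) := by
        have h7 : (m : K) ∈ (Subgroup.closure (f '' (S : Set (Abelianization P)))).map P.subtype :=
          ⟨m, hm, rfl⟩
        rw [MonoidHom.map_closure, ← Set.image_comp] at h7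
        rw [hT, Finset.coe_image]
        exact h7
      have h8 : (m : K)⁻¹ * n ∈ (⁅P, P⁆ : Subgroup K) := by
        rw [← Subgroup.map_subtype_commutator]
        exact ⟨_, h5, rfl⟩
      have h9 : n = (m : K) * ((m : K)⁻¹ * n) := by group
      rw [h9]
      exact Subgroup.mul_mem_sup h6 h8
    · refine sup_le ?_ h1
      rw [Subgroup.closure_le]
      intro k hk
      rw [hT, Finset.coe_image] at hk
      obtain ⟨s, hs, rfl⟩ := hk
      exact hf1 s hs
  rw [h3]
  exact Subgroup.FG.sup ⟨T, rfl⟩ hc

/-- elements of `P` which are killed by a cocycle-like map have a finitely generated kernel -/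
theorem fg_kernel (hK : Group.FG K) (hNF : ∀ a b : K, ¬ FreePair a b) (P : Subgroup K)
    (hP : P.FiniteIndex) (N : Subgroup K) (h2 : N ≤ P)
    (h1 : ∀ a ∈ P, ∀ b ∈ P, a * b * a⁻¹ * b⁻¹ ∈ N) : N.FG := by
  have hP' : Group.FG P := inferInstance
  refine fg_between P hP' (N6.W.commutator_sub_fg hK hNF P hP) N ?_ h2
  rw [Subgroup.commutator_le]
  intro a ha b hb
  rw [commutatorElement_def]
  exact h1 a ha b hb

end Pool.Agent.K6.H60.RN
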