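import Pool.Agent.K6.H60.RN.S1

/-!
# Groups without free semigroups: finitely many attracting fixed points
-/

set_option autoImplicit false

namespace Pool.Agent.K6.H60.RN

open Pool.Agent.H785R3.GrowthA (FreePair)

variable {X : Type} {G : Subgroup (Equiv.Perm (ℕ → X))} {K : Type} [Group K]
  {φ : K →* Equiv.Perm (ℕ → X)}

/-- the attracting fixed points of elements -/
def Att (G : Subgroup (Equiv.Perm (ℕ → X))) (φ : K →* Equiv.Perm (ℕ → X)) : Set (ℕ → X) :=
  {p | ∃ γ : K, φ γ p = p ∧ 0 < c G φ γ p}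

variable [Nontrivial X] (hG : SelfSim G) (hV : ∀ k, InV G (φ k))
include hG hV

theorem att_map {p : ℕ → X} (hp : p ∈ Att G φ) (k : K) : φ k p ∈ Att G φ := by
  obtain ⟨γ, h1, h2⟩ := hp
  obtain ⟨h3, h4⟩ := c_conj hG hV k γ h1
  exact ⟨_, h3, by rw [h4]; exact h2⟩

theorem c_mul_fix {p : ℕ → X} (a : K) {b : K} (hb : φ b p = p) :
    c G φ (a * b) p = c G φ a p + c G φ b p := by
  rw [c_mul hG hV, hb]

/-- the subgroup of the elements which fix `p` with cocycle `0` -/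
def neut (p : ℕ → X) : Subgroup K where
  carrier := {k | φ k p = p ∧ c G φ k p = 0}
  one_mem' := ⟨by simp, c_one hG p⟩
  mul_mem' := fun {a b} ha hb => by
    refine ⟨?_, ?_⟩
    · rw [map_mul, Equiv.Perm.mul_apply, hb.1, ha.1]
    · rw [c_mul_fix hG hV _ hb.1, ha.2, hb.2, add_zero]
  inv_mem' := fun {a} ha => ⟨fix_inv ha.1, by rw [c_inv_fix hG hV ha.1, ha.2, neg_zero]⟩

theorem mem_neut {p : ℕ → X} {k : K} : k ∈ neut hG hV p ↔ φ k p = p ∧ c G φ k p = 0 := Iff.rfl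

theorem neut_comm {p : ℕ → X} {a b : K} (ha : φ a p = p) (hb : φ b p = p) :
    a * b * a⁻¹ * b⁻¹ ∈ neut hG hV p := by
  have ha' := fix_inv ha
  have hb' := fix_inv hb
  refine ⟨?_, ?_⟩
  · rw [map_mul, map_mul, map_mul, Equiv.Perm.mul_apply, Equiv.Perm.mul_apply,
      Equiv.Perm.mul_apply, hb', ha', hb, ha]
  · rw [c_mul_fix hG hV _ hb', c_mul_fix hG hV _ ha', c_mul_fix hG hV _ hb,
      c_inv_fix hG hV ha, c_inv_fix hG hV hb]
    ring

/-- a finitely generated group of neutral elements fixes a cone -/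
theorem neut_cone {p : ℕ → X} {N : Subgroup K} (hN : N.FG) (hN' : N ≤ neut hG hV p) :
    ∃ n0, ∀ n, n0 ≤ n → N ≤ stabC G φ (pre n p) := by
  classical
  obtain ⟨T, hT⟩ := hN
  have h1 : ∀ k ∈ T, ∃ m, ∀ n, m ≤ n → Cm G (φ k) (pre n p) (pre n p) := by
    intro k hk
    have hk' : k ∈ neut hG hV p := hN' (by rw [← hT]; exact Subgroup.subset_closure hk)
    exact stable_of_fix hG hV hk'.1 hk'.2
  choose! m hm using h1
  refine ⟨T.sup m, fun n hn => ?_⟩
  rw [← hT, Subgroup.closure_le]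
  intro k hk
  exact hm k hk n ((Finset.le_sup hk).trans hn)

theorem star [Finite X] (hK : Group.FG K) (hNF : ∀ a b : K, ¬ FreePair a b) {p : ℕ → X}
    (hp : p ∈ Att G φ) (hfin : (Set.range fun k : K => φ k p).Finite) :
    ∃ n, ∀ a ∈ Att G φ, pre n a = pre n p → a = p := by
  obtain ⟨γ, hγ, hγc⟩ := hp
  have hP : (ptStab φ p).FiniteIndex := ptStab_finite hfin
  have hN : (neut hG hV p).FG := by
    refine fg_kernel hK hNF (ptStab φ p) hP _ (fun k hk => hk.1) ?_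
    intro a ha b hb
    exact neut_comm hG hV ha hb
  obtain ⟨n0, hn0⟩ := neut_cone hG hV hN le_rfl
  obtain ⟨m1, hm1⟩ := contr_of_fix hG hV hγ hγc
  set n := max n0 m1 with hn
  have hNn := hn0 n (le_max_left _ _)
  obtain ⟨t, ht, htl, hC⟩ := hm1 n (le_max_right _ _)
  refine ⟨n, fun a ha hpre => ?_⟩
  obtain ⟨η, hη, hηc⟩ := ha
  obtain ⟨j, hj, -, hjP⟩ := Subgroup.exists_pow_mem_of_index_ne_zero hP.index_ne_zero η
  have hηa : φ (η ^ j) a = a := fix_pow hη j
  have hηp : φ (η ^ j) p = p := hjP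
  have hηca : c G φ (η ^ j) a ≠ 0 := by
    rw [c_pow hG hV hη]
    positivity
  obtain ⟨η2, h1, h2, h3, h4⟩ : ∃ η2 : K, φ η2 a = a ∧ φ η2 p = p ∧ c G φ η2 a ≠ 0 ∧
      0 ≤ c G φ η2 p := by
    rcases le_total 0 (c G φ (η ^ j) p) with h | h
    · exact ⟨η ^ j, hηa, hηp, hηca, h⟩
    · refine ⟨(η ^ j)⁻¹, fix_inv hηa, fix_inv hηp, ?_, ?_⟩
      · rw [c_inv_fix hG hV hηa]
        omega
      · rw [c_inv_fix hG hV hηp]
        omega
  obtain ⟨e, he⟩ : ∃ e : ℕ, (e : ℤ) = c G φ η2 p := ⟨(c G φ η2 p).toNat, by omega⟩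
  set κ := η2 ^ t.length * (γ ^ e)⁻¹ with hκ
  have hκN : κ ∈ neut hG hV p := by
    have h5 : φ (γ ^ e)⁻¹ p = p := fix_inv (fix_pow hγ e)
    refine ⟨?_, ?_⟩
    · rw [hκ, map_mul, Equiv.Perm.mul_apply, h5, fix_pow h2]
    · rw [hκ, c_mul_fix hG hV _ h5, c_inv_fix hG hV (fix_pow hγ e), c_pow hG hV h2,
        c_pow hG hV hγ, ← he, ← htl]
      ring
  have hκC : Cm G (φ κ) (pre n p) (pre n p) := hNn hκN
  obtain ⟨t1, ht1, hC1⟩ := hC.pow hG e
  obtain ⟨t2, ht2, hC2⟩ := hκC.restrict hG t1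
  have hC3 : Cm G (φ (η2 ^ t.length)) (pre n p) (pre n p ++ t2) := by
    have h5 : η2 ^ t.length = κ * γ ^ e := by rw [hκ]; group
    rw [h5, map_mul, map_pow]
    exact hC2.mul hC1
  have htl0 : 0 < t.length := List.length_pos_iff.2 ht
  have hin : In (pre n p) a := in_pre_iff.2 hpre
  by_cases ht20 : t2 = []
  · exfalso
    have h5 : c G φ (η2 ^ t.length) a = 0 := by
      have : c G φ (η2 ^ t.length) a = t2.length := hC3.cc_fix hG hin
      rw [this, ht20]
      simp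
    rw [c_pow hG hV h1] at h5
    rcases mul_eq_zero.1 h5 with h6 | h6
    · omega
    · exact h3 h6
  · exact hC3.fix_unique hG ht20 hin (in_pre n p) (fix_pow h1 _) (fix_pow h2 _)

theorem star' [Finite X] (hK : Group.FG K) (hNF : ∀ a b : K, ¬ FreePair a b) {p : ℕ → X}
    (hp : p ∈ Att G φ) (hfin : (Set.range fun k : K => φ k p).Finite)
    {γ : K} {w t : List X} (hC : Cm G (φ γ) w (w ++ t)) (ht : t ≠ []) (hpw : In w p)
    (ep : φ γ p = p) {a : ℕ → X} (ha : a ∈ Att G φ) (haw : In w a) : a = p := by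
  obtain ⟨n, hn⟩ := star hG hV hK hNF hp hfin
  have h1 := hC.conv hG ht hpw ep haw (n := n) le_rfl
  rw [← map_pow] at h1
  have h2 := hn _ (att_map hG hV ha _) h1
  have h3 : φ (γ ^ n) p = p := fix_pow ep n
  exact (φ (γ ^ n)).injective (h2.trans h3.symm)

omit hV in
/-- the fixed points of contractions of cones of depth `m` -/
theorem finite_cand [Finite X] (hNF : ∀ a b : K, ¬ FreePair a b) (m : ℕ) :
    {q | ∃ (w : List X) (γ : K) (t : List X), w.length = m ∧ t ≠ [] ∧ Cm G (φ γ) w (w ++ t) ∧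
      In w q ∧ φ γ q = q}.Finite := by
  have h1 : (⋃ w ∈ {w : List X | w.length = m}, {q | ∃ (γ : K) (t : List X), t ≠ [] ∧
      Cm G (φ γ) w (w ++ t) ∧ In w q ∧ φ γ q = q}).Finite := by
    refine (finite_words m).biUnion (fun w _ => Set.Subsingleton.finite ?_)
    rintro q ⟨γ, t, ht, hC, hq, e⟩ q' ⟨γ', t', ht', hC', hq', e'⟩
    exact same_fix hG hNF hC ht hC' ht' hq e hq' e'
  refine h1.subset ?_
  rintro q ⟨w, γ, t, hw, ht, hC, hq, e⟩
  exact Set.mem_biUnion (show w ∈ {w : List X | w.length = m} from hw) ⟨γ, t, ht, hC, hq, e⟩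

theorem cand_att {q : ℕ → X} {w t : List X} {γ : K} (ht : t ≠ []) (hC : Cm G (φ γ) w (w ++ t))
    (hq : In w q) (e : φ γ q = q) : q ∈ Att G φ := by
  refine ⟨γ, e, ?_⟩
  have h1 : c G φ γ q = t.length := hC.cc_fix hG hq
  have h2 : 0 < t.length := List.length_pos_iff.2 ht
  omega

theorem att_low {x : ℕ → X} (hx : x ∈ Att G φ) (M : ℕ) : ∃ h : K, c G φ h x ≤ -M := by
  obtain ⟨γ, hγ, hγc⟩ := hx
  refine ⟨(γ ^ M)⁻¹, ?_⟩
  rw [c_inv_fix hG hV (fix_pow hγ M), c_pow hG hV hγ]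
  have : (M : ℤ) ≤ M * c G φ γ x := by
    have h1 : (1 : ℤ) ≤ c G φ γ x := hγc
    nlinarith
  omega

theorem inf_step [Finite X] (hK : Group.FG K) (hNF : ∀ a b : K, ¬ FreePair a b) (D : Data G φ)
    {p : ℕ → X} (hp : p ∈ Att G φ) (hinf : (Set.range fun k : K => φ k p).Infinite) :
    ∃ q ∈ {q | ∃ (w : List X) (γ : K) (t : List X), w.length = D.m ∧ t ≠ [] ∧
      Cm G (φ γ) w (w ++ t) ∧ In w q ∧ φ γ q = q}, (Set.range fun k : K => φ k q).Infinite ∧
      q ∈ cl φ p ∧ p ∉ cl φ q := by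
  classical
  set R := D.m + D.M + D.C with hR
  -- a point of the orbit which is not isolated at depth R
  obtain ⟨x, ⟨g0, hg0⟩, y, ⟨g1, hg1⟩, hxy, hpre⟩ : ∃ x ∈ Set.range (fun k : K => φ k p),
      ∃ y ∈ Set.range (fun k : K => φ k p), x ≠ y ∧ pre R x = pre R y := by
    by_contra hcon
    push Not at hcon
    apply hinf
    refine Set.Finite.of_finite_image (f := pre R) ((finite_words (X := X) R).subset ?_) ?_
    · rintro _ ⟨x, -, rfl⟩
      simp
    · intro x hx y hy e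
      by_contra hne
      exact hcon x hx y hy hne e
  have hx : x ∈ Att G φ := by rw [← hg0]; exact att_map hG hV hp g0
  have hyx : ∃ k, φ k x = y := by
    refine ⟨g1 * g0⁻¹, ?_⟩
    rw [map_mul, Equiv.Perm.mul_apply, ← hg0, map_inv]
    simp only [Equiv.Perm.inv_def, Equiv.symm_apply_apply]
    exact hg1
  -- isolating depth
  let Iso : (ℕ → X) → ℕ → Prop := fun z n => ∀ k : K, pre n (φ k z) = pre n z → φ k z = z
  have hIsoMono : ∀ z n n', n ≤ n' → Iso z n → Iso z n' := fun z n n' hnn h k hk =>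
    h k (pre_mono hnn hk)
  have hex : ∃ n, Iso x n := by
    obtain ⟨γ, hγ, hγc⟩ := hx
    obtain ⟨m1, hm1⟩ := contr_of_fix hG hV hγ hγc
    obtain ⟨t, ht, -, hC⟩ := hm1 m1 le_rfl
    exact ⟨m1, fun k hk => isolate hG hV hNF hC ht (in_pre _ _) hγ (in_pre_iff.2 hk)⟩
  set r := Nat.find hex with hr
  have hr1 : Iso x r := Nat.find_spec hex
  have hr2 : ∀ n, n < r → ¬ Iso x n := fun n hn => Nat.find_min hex hn
  have hRr : R < r := by
    by_contra hcon
    push Not at hcon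
    have h1 := hIsoMono x r R hcon hr1
    obtain ⟨k, hk⟩ := hyx
    apply hxy
    rw [← hk]
    exact (h1 k (by rw [hk]; exact hpre.symm)).symm
  have htrans : ∀ (g : K) (w : List X) (L : ℕ), Cm G (φ g) w (pre L x) → ∀ j,
      (Iso (φ g⁻¹ x) (w.length + j) ↔ Iso x (L + j)) := by
    intro g w L hC j
    have hz : In w (φ g⁻¹ x) := by
      rw [map_inv]
      exact hC.inv.in (in_pre L x)
    have hgz : φ g (φ g⁻¹ x) = x := by rw [map_inv]; simp
    have hC1 := hC.atPre hG hz j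
    rw [hgz, pre_length] at hC1
    constructor
    · intro h k hk
      have h1 := hC1.inv.in (in_pre_iff.2 hk)
      rw [in_pre_iff] at h1
      have h2 := h (g⁻¹ * k * g) (by
        rw [map_mul, map_mul, Equiv.Perm.mul_apply, Equiv.Perm.mul_apply, hgz, map_inv]
        rw [map_inv] at h1
        exact h1)
      rw [map_mul, map_mul, Equiv.Perm.mul_apply, Equiv.Perm.mul_apply, hgz] at h2
      exact (φ g⁻¹).injective h2
    · intro h k hk
      have h1 := hC1.in (in_pre_iff.2 hk)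
      rw [in_pre_iff] at h1
      have h2 := h (g * k * g⁻¹) (by
        rw [map_mul, map_mul, Equiv.Perm.mul_apply, Equiv.Perm.mul_apply]
        exact h1)
      rw [map_mul, map_mul, Equiv.Perm.mul_apply, Equiv.Perm.mul_apply] at h2
      apply (φ g).injective
      rw [h2, hgz]
  obtain ⟨h0, hh0⟩ := att_low hG hV hx D.M
  obtain ⟨w, hw, g, g', L, L', hlt, hL', h1, h2⟩ := path_pigeon hG hV D h0 x hh0
  have hzz : φ g⁻¹ x ≠ φ g'⁻¹ x := by
    intro e
    have h3 : Iso (φ g'⁻¹ x) (w.length + (r - L')) := by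
      rw [htrans g' w L' h2, show L' + (r - L') = r by omega]
      exact hr1
    have h4 : ¬ Iso (φ g⁻¹ x) (w.length + (r - 1 - L)) := by
      rw [htrans g w L h1, show L + (r - 1 - L) = r - 1 by omega]
      exact hr2 _ (by omega)
    rw [← e] at h3
    exact h4 (hIsoMono _ _ _ (by omega) h3)
  obtain ⟨n, rfl⟩ := Nat.exists_eq_add_of_lt hlt
  have h2' := h2
  rw [Nat.add_assoc, pre_add] at h2'
  obtain ⟨t, ht, h3⟩ := h1.inv.restrict hG (pre (n + 1) (dr L x))
  have ht' : t ≠ [] := by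
    intro h0
    rw [h0] at ht
    simp at ht
  have hC : Cm G (φ (g⁻¹ * g')) w (w ++ t) := by
    rw [map_mul, map_inv]
    exact h3.mul h2'
  obtain ⟨q, hq, eq⟩ := hC.fix_exists hG ht'
  set z' := φ g'⁻¹ x with hz'
  have hz'w : In w z' := by
    rw [hz', map_inv]
    exact h2.inv.in (in_pre _ x)
  have hz'q : z' ≠ q := by
    intro e
    apply hzz
    rw [← e] at eq
    rw [map_mul, Equiv.Perm.mul_apply] at eq
    have h4 : φ g' z' = x := by rw [hz', map_inv]; simp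
    rw [h4] at eq
    exact eq
  have hz'p : ∃ k, φ k p = z' := by
    refine ⟨g'⁻¹ * g0, ?_⟩
    rw [map_mul, Equiv.Perm.mul_apply]
    rw [hz', ← hg0]
  have hqA : q ∈ Att G φ := cand_att hG hV ht' hC hq eq
  have hz'A : z' ∈ Att G φ := att_map hG hV hx _
  refine ⟨q, ⟨w, _, t, hw, ht', hC, hq, eq⟩, ?_, ?_, ?_⟩
  · intro hfin
    exact hz'q (star' hG hV hK hNF hqA hfin hC ht' hq eq hz'A hz'w)
  · intro n1
    obtain ⟨k, hk⟩ := hz'p
    refine ⟨(g⁻¹ * g') ^ n1 * k, ?_⟩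
    rw [map_mul, Equiv.Perm.mul_apply, hk, map_pow]
    exact hC.conv hG ht' hq eq hz'w le_rfl
  · intro hpq
    obtain ⟨k, hk⟩ := hz'p
    have h4 : z' ∈ cl φ q := by
      rw [← hk]
      exact cl_map hG hV hpq k
    obtain ⟨N, hN⟩ := exists_pre_ne hz'q
    obtain ⟨k', hk'⟩ := h4 (max N w.length)
    have h5 : In w (φ k' q) := by
      have h6 := pre_mono (le_max_right N w.length) hk'
      show pre w.length _ = w
      rw [h6]
      exact hz'w
    have h6 := isolate hG hV hNF hC ht' hq eq h5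
    rw [h6] at hk'
    exact hN (pre_mono (le_max_left N w.length) hk').symm

theorem orbits_finite [Finite X] (hK : Group.FG K) (hNF : ∀ a b : K, ¬ FreePair a b)
    {p : ℕ → X} (hp : p ∈ Att G φ) : (Set.range fun k : K => φ k p).Finite := by
  by_contra hinf
  obtain ⟨D⟩ := exists_data hG hV hK
  set S := {q | q ∈ {q | ∃ (w : List X) (γ : K) (t : List X), w.length = D.m ∧ t ≠ [] ∧
      Cm G (φ γ) w (w ++ t) ∧ In w q ∧ φ γ q = q} ∧ (Set.range fun k : K => φ k q).Infinite}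
    with hS
  have hSf : S.Finite := (finite_cand hG hNF D.m).subset (fun q hq => hq.1)
  have hSn : S.Nonempty := by
    obtain ⟨q, hq, hqi, -⟩ := inf_step hG hV hK hNF D hp hinf
    exact ⟨q, hq, hqi⟩
  obtain ⟨q, hq, hmin⟩ := Set.Finite.exists_minimalFor (fun q => cl φ q) S hSf hSn
  obtain ⟨⟨w, γ, t, hw, ht, hC, hqw, eq⟩, hqi⟩ := hq
  obtain ⟨q', hq', hqi', h1, h2⟩ := inf_step hG hV hK hNF D (cand_att hG hV ht hC hqw eq) hqi
  have h3 := hmin (j := q') ⟨hq', hqi'⟩ (fun z hz => cl_trans hG hV h1 hz)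
  exact h2 (h3 (self_cl' q))

theorem att_finite [Finite X] (hK : Group.FG K) (hNF : ∀ a b : K, ¬ FreePair a b) :
    (Att G φ).Finite := by
  obtain ⟨D⟩ := exists_data hG hV hK
  have h1 := finite_cand (φ := φ) hG hNF D.m
  set S := {q | ∃ (w : List X) (γ : K) (t : List X), w.length = D.m ∧ t ≠ [] ∧
      Cm G (φ γ) w (w ++ t) ∧ In w q ∧ φ γ q = q} with hS
  have h2 : (⋃ q ∈ S, Set.range fun k : K => φ k q).Finite := by
    refine h1.biUnion ?_
    rintro q ⟨w, γ, t, hw, ht, hC, hqw, eq⟩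
    exact orbits_finite hG hV hK hNF (cand_att hG hV ht hC hqw eq)
  refine h2.subset ?_
  intro p hp
  obtain ⟨h0, hh0⟩ := att_low hG hV hp D.M
  obtain ⟨w, hw, γ, t, ht, hC, g, hg⟩ := path_contr hG hV D h0 p hh0
  obtain ⟨q, hq, eq⟩ := hC.fix_exists hG ht
  have hqA := cand_att hG hV ht hC hq eq
  have h3 : φ g p = q := star' hG hV hK hNF hqA (orbits_finite hG hV hK hNF hqA) hC ht hq eq
    (att_map hG hV hp g) hg
  refine Set.mem_biUnion (x := q) ⟨w, γ, t, hw, ht, hC, hq, eq⟩ ⟨g⁻¹, ?_⟩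
  show φ g⁻¹ q = p
  rw [← h3, map_inv]
  simp

end Pool.Agent.K6.H60.RN
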