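import Pool.Agent.K6.H60.RN.S2

/-!
# Groups without free semigroups: germs at the attracting fixed points
-/

set_option autoImplicit false

namespace Pool.Agent.K6.H60.RN

open Pool.Agent.H785R3.GrowthA (FreePair)

variable {X : Type} {G : Subgroup (Equiv.Perm (ℕ → X))} {K : Type} [Group K]
  {φ : K →* Equiv.Perm (ℕ → X)}

/-- the sections of `g` -/
def Sec (g : Equiv.Perm (ℕ → X)) : Set (Equiv.Perm (ℕ → X)) :=
  {g' | ∃ u v : List X, u.length = v.length ∧ ∀ x, g (ap u x) = ap v (g' x)}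

theorem rho_exists {N : Subgroup K} {u : List X} (h : N ≤ stabC G φ u) :
    ∃ ρ : N →* G, ∀ (k : N) (x : ℕ → X),
      φ (k : K) (ap u x) = ap u ((ρ k : Equiv.Perm (ℕ → X)) x) :=
  ⟨(secHom G φ u).comp (Subgroup.inclusion h), fun k x =>
    secHom_spec (G := G) (φ := φ) u (⟨(k : K), h k.2⟩ : stabC G φ u) x⟩

theorem divSub_finite [Nontrivial X] (hG : SelfSim G) (hV : ∀ k, InV G (φ k)) {x : ℕ → X}
    (hx : ∀ k, φ k x = x) {d : ℤ} (hd : 0 < d) :
    ∃ P : Subgroup K, P.FiniteIndex ∧ ∀ k, k ∈ P ↔ d ∣ c G φ k x := by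
  let P : Subgroup K :=
    { carrier := {h | d ∣ c G φ h x}
      one_mem' := by
        show d ∣ c G φ (1 : K) x
        rw [c_one hG]
        exact dvd_zero _
      mul_mem' := fun {a b} ha hb => by
        show d ∣ c G φ (a * b) x
        rw [c_mul hG hV, hx b]
        exact dvd_add ha hb
      inv_mem' := fun {a} ha => by
        show d ∣ c G φ a⁻¹ x
        rw [c_inv_fix hG hV (hx a)]
        exact (dvd_neg).2 ha }
  refine ⟨P, ?_, fun k => Iff.rfl⟩
  refine finIdx_of_map P (fun h => c G φ h x % d) ?_ ?_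
  · refine (Set.finite_Icc (0 : ℤ) d).subset ?_
    rintro _ ⟨h, rfl⟩
    exact ⟨Int.emod_nonneg _ (by omega), (Int.emod_lt_of_pos _ (by omega)).le⟩
  · intro a b hab
    show d ∣ c G φ (a⁻¹ * b) x
    rw [c_mul hG hV, hx b, c_inv_fix hG hV (hx a)]
    have h1 : d ∣ c G φ b x - c G φ a x := Int.ModEq.dvd hab
    have h2 : -c G φ a x + c G φ b x = c G φ b x - c G φ a x := by ring
    rw [h2]
    exact h1

theorem germ [Finite X] [Nontrivial X] (hG : SelfSim G) (hV : ∀ k, InV G (φ k))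
    (hFS : ∀ g ∈ G, (Sec g).Finite) (hK : Group.FG K) (hNF : ∀ a b : K, ¬ FreePair a b)
    {p : ℕ → X} (hfix : ∀ k, φ k p = p) (hp : p ∈ Att G φ) :
    ∃ (P : Subgroup K) (Ψ : P →* G × Multiplicative ℤ) (u : List X), P.FiniteIndex ∧ In u p ∧
      ∀ k : P, Ψ k = 1 → ∀ (h : K) (x : ℕ → X), In u (φ h x) → φ (k : K) x = x := by
  classical
  obtain ⟨γ, hγ, hγc⟩ := hp
  set N := neut hG hV p with hNdef
  have hNfg : N.FG := fg_kernel hK hNF ⊤ inferInstance N le_top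
    (fun a _ b _ => neut_comm hG hV (hfix a) (hfix b))
  have hNn : N.Normal := by
    constructor
    intro k hk h
    refine ⟨hfix _, ?_⟩
    rw [c_mul_fix hG hV _ (hfix _), c_mul_fix hG hV _ (hfix _), c_inv_fix hG hV (hfix _), hk.2]
    ring
  obtain ⟨n0, hn0⟩ := neut_cone hG hV hNfg le_rfl
  obtain ⟨m1, hm1⟩ := contr_of_fix hG hV hγ hγc
  set n := max n0 m1 with hn
  obtain ⟨t, ht, htl, hC⟩ := hm1 n (le_max_right _ _)
  set u := pre n p with hu
  have hup : In u p := in_pre n p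
  have htl0 : 0 < t.length := List.length_pos_iff.2 ht
  -- the action of powers of γ
  have hCi : ∀ i : ℕ, Cm G (φ (γ ^ i)) u (pre (n + i * t.length) p) := by
    intro i
    obtain ⟨t', ht', h1⟩ := hC.pow hG i
    have h2 := h1.in hup
    rw [← map_pow, fix_pow hγ i] at h2
    have h3 : u ++ t' = pre (n + i * t.length) p := by
      rw [← h2, List.length_append, ht', hu, pre_length]
    rw [← h3, map_pow]
    exact h1
  choose gi hgi hgi' using hCi
  have hstab : ∀ m, n ≤ m → N ≤ stabC G φ (pre m p) := fun m hm =>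
    hn0 m (le_trans (le_max_left _ _) hm)
  obtain ⟨ρ0, hρ0⟩ := rho_exists (hstab n le_rfl)
  rw [← hu] at hρ0
  have hρi := fun i : ℕ => rho_exists (hstab (n + i * t.length) (by omega))
  choose ρ hρ using hρi
  have hrel : ∀ (i : ℕ) (k k' : N), (k' : K) = (γ ^ i)⁻¹ * k * γ ^ i →
      (ρ0 k' : Equiv.Perm (ℕ → X)) = (gi i)⁻¹ * ρ i k * gi i := by
    intro i k k' e
    apply sec_unique (u := u)
    intro x
    rw [← hρ0, e, map_mul, map_mul, map_inv, Equiv.Perm.mul_apply, Equiv.Perm.mul_apply, hgi', hρ,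
      Equiv.Perm.inv_eq_iff_eq, hgi']
    simp
  have hsec : ∀ (i : ℕ) (k : N), (ρ i k : Equiv.Perm (ℕ → X)) ∈ Sec (ρ0 k : Equiv.Perm (ℕ → X)) := by
    intro i k
    refine ⟨pre (i * t.length) (dr n p), pre (i * t.length) (dr n p), rfl, fun x => ?_⟩
    have h1 := hρ i k x
    rw [pre_add, ap_append, ap_append, ← hu, hρ0] at h1
    exact (ap_inj rfl h1).2
  obtain ⟨T, hT⟩ := hNfg
  have hTN : ∀ k : T, (k : K) ∈ N := fun k => by rw [← hT]; exact Subgroup.subset_closure k.2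
  have hrange : (Set.range fun (i : ℕ) (k : T) => (ρ i ⟨k, hTN k⟩ : Equiv.Perm (ℕ → X))).Finite := by
    refine (Set.Finite.pi (t := fun k : T => Sec (ρ0 ⟨k, hTN k⟩ : Equiv.Perm (ℕ → X)))
      (fun k => hFS _ (ρ0 _).2)).subset ?_
    rintro _ ⟨i, rfl⟩ k _
    exact hsec i _
  obtain ⟨i, i', hii, heq⟩ : ∃ i i' : ℕ, i < i' ∧ ∀ k : T,
      (ρ i ⟨k, hTN k⟩ : Equiv.Perm (ℕ → X)) = ρ i' ⟨k, hTN k⟩ := by
    have h1 : ¬ Function.Injective
        (fun (i : ℕ) (k : T) => (ρ i ⟨k, hTN k⟩ : Equiv.Perm (ℕ → X))) := by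
      intro hinj
      exact Set.infinite_range_of_injective hinj hrange
    unfold Function.Injective at h1
    push Not at h1
    obtain ⟨i, i', e, hne⟩ := h1
    rcases lt_or_gt_of_ne hne with h | h
    · exact ⟨i, i', h, fun k => congrFun e k⟩
    · exact ⟨i', i, h, fun k => (congrFun e k).symm⟩
  have hρeq : ∀ k : N, ρ i k = ρ i' k := by
    have h1 : N ≤ (MonoidHom.eqLocus (ρ i) (ρ i')).map N.subtype := by
      conv_lhs => rw [← hT]
      rw [Subgroup.closure_le]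
      intro k hk
      exact ⟨⟨k, hTN ⟨k, hk⟩⟩, Subtype.ext (heq ⟨k, hk⟩), rfl⟩
    intro k
    obtain ⟨k', hk', e⟩ := h1 k.2
    have : k' = k := Subtype.ext e
    rw [← this]
    exact hk'
  set j := i' - i with hj
  have hj0 : 0 < j := by omega
  set δ := γ ^ j with hδ
  let gG : G := ⟨(gi i')⁻¹ * gi i, G.mul_mem (G.inv_mem (hgi i')) (hgi i)⟩
  have hss : ∀ k k' : N, (k' : K) = δ⁻¹ * k * δ → ρ0 k' = gG * ρ0 k * gG⁻¹ := by
    intro k k' e
    have hk1 : γ ^ i * (k : K) * (γ ^ i)⁻¹ ∈ N := hNn.conj_mem _ k.2 _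
    have e1 := hrel i ⟨_, hk1⟩ k (by simp only; group)
    have e2 := hrel i' ⟨_, hk1⟩ k' (by
      rw [e, hδ]
      simp only
      have h3 : γ ^ i' = γ ^ i * γ ^ j := by rw [← pow_add]; congr 1; omega
      rw [h3]
      group)
    apply Subtype.ext
    rw [e2]
    show _ = (gi i')⁻¹ * gi i * (ρ0 k : Equiv.Perm (ℕ → X)) * ((gi i')⁻¹ * gi i)⁻¹
    rw [e1, hρeq]
    group
  have hSS : ∀ (z : ℤ) (k : N), ρ0 (MulAut.conjNormal (δ ^ z) k) = gG ^ (-z) * ρ0 k * gG ^ z := by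
    have h1 : ∀ k : N, ρ0 (MulAut.conjNormal δ k) = gG⁻¹ * ρ0 k * gG := by
      intro k
      have h2 := hss (MulAut.conjNormal δ k) k (by rw [MulAut.conjNormal_apply]; group)
      rw [h2]
      group
    have h2 : ∀ k : N, ρ0 (MulAut.conjNormal δ⁻¹ k) = gG * ρ0 k * gG⁻¹ := by
      intro k
      exact hss k (MulAut.conjNormal δ⁻¹ k) (by rw [MulAut.conjNormal_apply]; group)
    intro z
    induction z using Int.induction_on with
    | zero => intro k; simp
    | succ z ih =>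
      intro k
      rw [zpow_add_one, map_mul, MulAut.mul_apply, ih, h1, neg_add, zpow_add, zpow_add]
      group
    | pred z ih =>
      intro k
      rw [zpow_sub_one, map_mul, MulAut.mul_apply, ih, h2]
      group
  -- triviality of germs
  have hG1 : ∀ k : N, ρ0 k = 1 → ∀ x, In u x → φ (k : K) x = x := by
    intro k hk x hx
    obtain ⟨y, rfl⟩ := in_iff.1 hx
    rw [hρ0, hk]
    rfl
  have hG2 : ∀ k : N, (∃ M, ∀ x, pre M x = pre M p → φ (k : K) x = x) → ρ0 k = 1 := by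
    rintro k ⟨M, hM⟩
    have h1 := hSS (-(M : ℤ)) k
    have h2 : ρ0 (MulAut.conjNormal (δ ^ (-(M : ℤ))) k) = 1 := by
      apply Subtype.ext
      apply sec_unique (u := u)
      intro x
      rw [← hρ0, MulAut.conjNormal_apply]
      have h3 : pre M (φ (δ ^ M) (ap u x)) = pre M p := by
        rw [hδ, ← pow_mul, map_pow]
        exact hC.conv hG ht hup hγ (in_ap _ _) (Nat.le_mul_of_pos_left _ hj0)
      have h4 := hM _ h3
      rw [zpow_neg, zpow_natCast, map_mul, map_mul, inv_inv, Equiv.Perm.mul_apply,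
        Equiv.Perm.mul_apply, h4, map_inv]
      simp
    rw [h2] at h1
    have h3 : ρ0 k = gG ^ (-(M : ℤ)) * 1 * gG ^ (M : ℤ) := by
      rw [h1]
      group
    rw [h3]
    group
  -- the homomorphism
  set d := c G φ δ p with hd
  have hd0 : 0 < d := by
    rw [hd, hδ, c_pow hG hV hγ]
    positivity
  obtain ⟨P, hPf, hP⟩ := divSub_finite hG hV hfix hd0
  have hmemN : ∀ k ∈ P, k * δ ^ (-(c G φ k p / d)) ∈ N := by
    intro k hk
    refine ⟨hfix _, ?_⟩
    rw [c_mul_fix hG hV _ (hfix _), c_zpow hG hV (hfix δ), ← hd]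
    have := Int.ediv_mul_cancel ((hP k).1 hk)
    linarith
  have hadd : ∀ k ∈ P, ∀ k' ∈ P, c G φ (k * k') p / d = c G φ k p / d + c G φ k' p / d := by
    intro k hk k' hk'
    rw [c_mul_fix hG hV _ (hfix _)]
    exact Int.add_ediv_of_dvd_left ((hP k).1 hk)
  have key : ∀ (a b : K) (za zb z : ℤ) (ha : a * δ ^ (-za) ∈ N) (hb : b * δ ^ (-zb) ∈ N)
      (hab : a * b * δ ^ (-z) ∈ N), z = za + zb →
      ρ0 ⟨a * b * δ ^ (-z), hab⟩ * gG ^ (-z) = ρ0 ⟨a * δ ^ (-za), ha⟩ * gG ^ (-za) *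
        (ρ0 ⟨b * δ ^ (-zb), hb⟩ * gG ^ (-zb)) := by
    rintro a b za zb z ha hb hab rfl
    have h1 : (⟨a * b * δ ^ (-(za + zb)), hab⟩ : N) = ⟨a * δ ^ (-za), ha⟩ *
        MulAut.conjNormal (δ ^ za) ⟨b * δ ^ (-zb), hb⟩ := by
      apply Subtype.ext
      rw [Subgroup.coe_mul, MulAut.conjNormal_apply]
      simp only
      rw [neg_add, zpow_add]
      group
    rw [h1, map_mul, hSS, neg_add, zpow_add]
    group
  let Ψ : P →* G × Multiplicative ℤ := MonoidHom.mk'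
    (fun k => (ρ0 ⟨_, hmemN k k.2⟩ * gG ^ (-(c G φ (k : K) p / d)),
      Multiplicative.ofAdd (c G φ (k : K) p / d))) (by
    intro k k'
    refine Prod.ext ?_ ?_
    · exact key k k' _ _ _ _ _ _ (hadd k k.2 k' k'.2)
    · exact congrArg Multiplicative.ofAdd (hadd k k.2 k' k'.2))
  refine ⟨P, Ψ, u, hPf, hup, ?_⟩
  intro k hk h x hx
  have hk2 : c G φ (k : K) p / d = 0 := by
    have h1 : (Ψ k).2 = 1 := by rw [hk]; rfl
    exact Multiplicative.ofAdd.injective h1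
  have hkc : c G φ (k : K) p = 0 := by
    have := Int.ediv_mul_cancel ((hP k).1 k.2)
    rw [hk2] at this
    omega
  have hkN : (k : K) ∈ N := ⟨hfix _, hkc⟩
  have hρk : ρ0 ⟨k, hkN⟩ = 1 := by
    have h1 : (Ψ k).1 = 1 := by rw [hk]; rfl
    have h2 : ∀ (z : ℤ) (hz : (k : K) * δ ^ (-z) ∈ N), z = 0 →
        ρ0 ⟨(k : K) * δ ^ (-z), hz⟩ * gG ^ (-z) = 1 → ρ0 ⟨k, hkN⟩ = 1 := by
      rintro z hz rfl h3
      have h4 : (⟨(k : K) * δ ^ (-(0 : ℤ)), hz⟩ : N) = ⟨k, hkN⟩ := Subtype.ext (by simp)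
      rw [h4] at h3
      simpa using h3
    exact h2 _ _ hk2 h1
  have hkt := hG1 _ hρk
  have hkh : h * (k : K) * h⁻¹ ∈ N := hNn.conj_mem _ hkN _
  have h5 : ρ0 ⟨_, hkh⟩ = 1 := by
    apply hG2
    obtain ⟨n', hn'⟩ := (hV h⁻¹).cont hG n p
    refine ⟨n', fun y hy => ?_⟩
    have h6 := hn' y hy
    rw [hfix] at h6
    have h7 : φ (k : K) (φ h⁻¹ y) = φ h⁻¹ y := hkt _ (in_pre_iff.2 h6)
    simp only
    rw [map_mul, map_mul, Equiv.Perm.mul_apply, Equiv.Perm.mul_apply, h7, map_inv]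
    simp
  have h6 := hG1 _ h5 _ hx
  simp only at h6
  rw [map_mul, map_mul, Equiv.Perm.mul_apply, Equiv.Perm.mul_apply, map_inv] at h6
  simp only [Equiv.Perm.inv_def, Equiv.symm_apply_apply] at h6
  exact (φ h).injective h6

end Pool.Agent.K6.H60.RN
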