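import Pool.Agent.K6.H60.RN.S3

/-!
# Groups without free semigroups in `V(G)` virtually embed in `(G × ℤ)^n`
-/

set_option autoImplicit false

namespace Pool.Agent.K6.H60.RN

open Pool.Agent.H785R3.GrowthA (FreePair)

variable {X : Type} {G : Subgroup (Equiv.Perm (ℕ → X))} {K : Type} [Group K]
  {φ : K →* Equiv.Perm (ℕ → X)}

theorem assembly [Finite X] [Nontrivial X] (hG : SelfSim G) (hV : ∀ k, InV G (φ k))
    (hFS : ∀ g ∈ G, (Sec g).Finite) (hK : Group.FG K) (hNF : ∀ a b : K, ¬ FreePair a b)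
    (hfix : ∀ p ∈ Att G φ, ∀ k, φ k p = p) (hinj : Function.Injective φ) :
    ∃ P : Subgroup K, P.FiniteIndex ∧ ∃ (n : ℕ) (Φ : P →* (Fin n → G × Multiplicative ℤ)),
      Function.Injective Φ := by
  classical
  have hAf : Finite (Att G φ) := (att_finite hG hV hK hNF).to_subtype
  obtain ⟨D⟩ := exists_data hG hV hK
  have hg := fun p : Att G φ => germ hG hV hFS hK hNF (hfix p p.2) p.2
  choose P1 Ψ up hP1 hup hΨ using hg
  set U : Set (List X) := {u | u.length = D.m + D.M ∧ ∃ x, In u x ∧ ∀ h : K, |c G φ h x| ≤ D.M}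
    with hU
  have hUf : Finite U := ((finite_words (D.m + D.M)).subset (fun u hu => hu.1)).to_subtype
  have hUs : ∀ u : U, (stabC G φ (u : List X)).FiniteIndex := by
    rintro ⟨u, hu, x, hx, hb⟩
    have h1 := stabC_finite hG hV D hb (n := D.m + D.M) le_rfl
    have h2 : pre (D.m + D.M) x = u := by
      rw [← hu]
      exact hx
    rwa [h2] at h1
  set P : Subgroup K := (⨅ p : Att G φ, P1 p) ⊓ ⨅ u : U, stabC G φ (u : List X) with hP
  have hPf : P.FiniteIndex := by
    have h1 : (⨅ p : Att G φ, P1 p).FiniteIndex := Subgroup.finiteIndex_iInf hP1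
    have h2 : (⨅ u : U, stabC G φ (u : List X)).FiniteIndex := Subgroup.finiteIndex_iInf hUs
    exact inferInstance
  have hle1 : ∀ p : Att G φ, P ≤ P1 p := fun p => inf_le_left.trans (iInf_le _ p)
  have hle2 : ∀ u : U, P ≤ stabC G φ (u : List X) := fun u => inf_le_right.trans (iInf_le _ u)
  let F : (Att G φ) ⊕ U → (P →* G × Multiplicative ℤ) := fun s => match s with
    | Sum.inl p => (Ψ p).comp (Subgroup.inclusion (hle1 p))
    | Sum.inr u => MonoidHom.prod ((secHom G φ (u : List X)).comp (Subgroup.inclusion (hle2 u))) 1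
  obtain ⟨n, ⟨e⟩⟩ := Finite.exists_equiv_fin ((Att G φ) ⊕ U)
  refine ⟨P, hPf, n, Pi.monoidHom (fun i => F (e.symm i)), ?_⟩
  rw [injective_iff_map_eq_one]
  intro k hk
  have hkF : ∀ s, F s k = 1 := by
    intro s
    have h1 : F (e.symm (e s)) k = 1 := congrFun hk (e s)
    rwa [e.symm_apply_apply] at h1
  apply Subtype.ext
  apply hinj
  show φ (k : K) = φ 1
  rw [map_one]
  apply Equiv.ext
  intro x
  show φ (k : K) x = x
  by_cases hb : ∀ h : K, |c G φ h x| ≤ D.M
  · have hu : pre (D.m + D.M) x ∈ U := ⟨by simp, x, in_pre _ _, hb⟩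
    have h1 : (secHom G φ (pre (D.m + D.M) x)) ⟨(k : K), hle2 ⟨_, hu⟩ k.2⟩ = 1 :=
      congrArg Prod.fst (hkF (Sum.inr ⟨_, hu⟩))
    have h2 := secHom_spec (G := G) (φ := φ) (pre (D.m + D.M) x) ⟨(k : K), hle2 ⟨_, hu⟩ k.2⟩
      (dr (D.m + D.M) x)
    rw [h1, ap_pre_dr] at h2
    simp only at h2
    rw [h2]
    exact ap_pre_dr _ _
  · push Not at hb
    obtain ⟨h, hh⟩ := hb
    obtain ⟨w, -, γ, t, ht, hC, g, hgx⟩ := path_contr' hG hV D h x hh.le
    obtain ⟨q, hq, eq⟩ := hC.fix_exists hG ht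
    have hqA := cand_att hG hV ht hC hq eq
    refine hΨ ⟨q, hqA⟩ ⟨(k : K), hle1 _ k.2⟩ (hkF (Sum.inl ⟨q, hqA⟩))
      (γ ^ (up ⟨q, hqA⟩).length * g) x ?_
    show pre _ _ = _
    rw [map_mul, Equiv.Perm.mul_apply, map_pow, hC.conv hG ht hq eq hgx le_rfl]
    exact hup ⟨q, hqA⟩

/-- finitely generated groups without free semigroups in `V(G)` virtually embed in `(G × ℤ)^n` -/
theorem virt_emb [Finite X] [Nontrivial X] (hG : SelfSim G) (hV : ∀ k, InV G (φ k))
    (hFS : ∀ g ∈ G, (Sec g).Finite) (hK : Group.FG K) (hNF : ∀ a b : K, ¬ FreePair a b)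
    (hinj : Function.Injective φ) :
    ∃ P : Subgroup K, P.FiniteIndex ∧ ∃ (n : ℕ) (Φ : P →* (Fin n → G × Multiplicative ℤ)),
      Function.Injective Φ := by
  have hAf : Finite (Att G φ) := (att_finite hG hV hK hNF).to_subtype
  set K0 : Subgroup K := ⨅ p : Att G φ, ptStab φ (p : ℕ → X) with hK0
  have hK0f : K0.FiniteIndex := Subgroup.finiteIndex_iInf
    (fun p : Att G φ => ptStab_finite (orbits_finite hG hV hK hNF p.2))
  have hsub : ∀ p ∈ Att G (φ.comp K0.subtype), p ∈ Att G φ := by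
    rintro p ⟨γ, h1, h2⟩
    exact ⟨γ, h1, h2⟩
  obtain ⟨P, hP, n, Φ, hΦ⟩ := assembly (K := K0) (φ := φ.comp K0.subtype) hG (fun k => hV _) hFS
    inferInstance (N6.W.freePair_sub hNF K0) (by
      intro p hp k
      have h1 : (k : K) ∈ ptStab φ p := (iInf_le (fun p : Att G φ => ptStab φ (p : ℕ → X))
        ⟨p, hsub p hp⟩) k.2
      exact h1) (by
      intro a b hab
      exact Subtype.ext (hinj hab))
  refine ⟨P.map K0.subtype, ⟨?_⟩, n, Φ.comp
    (P.equivMapOfInjective K0.subtype K0.subtype_injective).symm.toMonoidHom, ?_⟩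
  · rw [Subgroup.index_map_subtype]
    exact mul_ne_zero hP.index_ne_zero hK0f.index_ne_zero
  · exact hΦ.comp (MulEquiv.injective _)

end Pool.Agent.K6.H60.RN
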