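import Pool.Agent.K6.H60.RN.S4
import Pool.Agent.K6.H60.RN.Ner
import Pool.Agent.N59.TT.Fin
import Pool.Agent.N607.TT_TOR

/-!
# Finitely presented groups without free semigroups in `V(G)`
-/

set_option autoImplicit false

namespace Pool.Agent.K6.H60.RN

open Pool.Agent.H785R3.GrowthA (FreePair)
open Pool.Agent.Y462.SS (Closed IsTree Sections)
open Pool.Agent.N510.PA (IsPol PolActivity)
open Pool.Agent.N59.TT (TT VAb F2)

theorem closed_pow {C : ∀ (G : Type) [Group G], Prop} (hC : Closed C) {G : Type} [Group G]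
    (hG : C G) (n : ℕ) : C (Fin n → G) := by
  induction n with
  | zero =>
    refine hC.of_injective _ G (1 : (Fin 0 → G) →* G) ?_ hG
    intro a b _
    exact Subsingleton.elim a b
  | succ n ih =>
    refine hC.of_injective _ (G × (Fin n → G))
      (MonoidHom.mk' (fun f => (f 0, fun i => f i.succ)) (fun a b => rfl)) ?_ (hC.prod _ _ hG ih)
    intro a b hab
    funext i
    refine Fin.cases ?_ (fun j => ?_) i
    · exact congrArg Prod.fst hab
    · exact congrFun (congrArg Prod.snd hab) j

theorem free_positive {l l' : List Bool}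
    (h : Pool.Agent.H785R3.GrowthA.ev (FreeGroup.of (0 : Fin 2)) (FreeGroup.of 1) l =
      Pool.Agent.H785R3.GrowthA.ev (FreeGroup.of 0) (FreeGroup.of 1) l') : l = l' := by
  have hmk : ∀ l : List Bool, Pool.Agent.H785R3.GrowthA.ev (FreeGroup.of (0 : Fin 2))
      (FreeGroup.of 1) l =
      FreeGroup.mk (l.map (fun t => ((if t then 1 else 0 : Fin 2), true))) := by
    intro l
    induction l with
    | nil => simp [FreeGroup.one_eq_mk]
    | cons t l ih =>
      rw [Pool.Agent.H785R3.GrowthA.ev_cons, ih]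
      cases t <;> simp [FreeGroup.of, FreeGroup.mul_mk]
  have hred : ∀ l : List Bool, FreeGroup.IsReduced
      (l.map (fun t => ((if t then 1 else 0 : Fin 2), true))) := by
    intro l
    unfold FreeGroup.IsReduced
    induction l with
    | nil => simp
    | cons t l ih =>
      cases l with
      | nil => simp
      | cons t' l =>
        simp only [List.map_cons, List.isChain_cons_cons]
        exact ⟨fun _ => trivial, by simpa using ih⟩
  rw [hmk, hmk] at h
  obtain ⟨L, h1, h2⟩ := FreeGroup.Red.exact.1 h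
  rw [(hred l).red_iff_eq] at h1
  rw [(hred l').red_iff_eq] at h2
  have h3 := h1.symm.trans h2
  have hinj : Function.Injective (fun t : Bool => ((if t then 1 else 0 : Fin 2), true)) := by
    intro a b hab
    cases a <;> cases b <;> simp_all
  exact hinj.list_map h3

theorem not_F2 {K : Type} [Group K] (h : ∀ a b : K, ∃ l l' : List Bool, l ≠ l' ∧
    Pool.Agent.H785R3.GrowthA.ev a b l = Pool.Agent.H785R3.GrowthA.ev a b l') : ¬ F2 K := by
  rintro ⟨f, hf⟩
  obtain ⟨l, l', hne, e⟩ := h (f (FreeGroup.of 0)) (f (FreeGroup.of 1))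
  have hev : ∀ l : List Bool, Pool.Agent.H785R3.GrowthA.ev (f (FreeGroup.of 0))
      (f (FreeGroup.of 1)) l =
      f (Pool.Agent.H785R3.GrowthA.ev (FreeGroup.of 0) (FreeGroup.of 1) l) := by
    intro l
    induction l with
    | nil => simp
    | cons t l ih =>
      rw [Pool.Agent.H785R3.GrowthA.ev_cons, Pool.Agent.H785R3.GrowthA.ev_cons, ih, map_mul]
      cases t <;> simp
  rw [hev, hev] at e
  exact hne (free_positive (hf e))

variable {X : Type} {G : Subgroup (Equiv.Perm (ℕ → X))} {K : Type} [Group K]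
  {φ : K →* Equiv.Perm (ℕ → X)}

/-- the image of a group without free semigroups is in every closed class which contains `G` -/
theorem range_closed [Finite X] [Nontrivial X] (hG : SelfSim G) (hV : ∀ k, InV G (φ k))
    (hFS : ∀ g ∈ G, (Sec g).Finite) (hK : Group.FG K)
    (hNF : ∀ a b : K, ∃ l l' : List Bool, l ≠ l' ∧
      Pool.Agent.H785R3.GrowthA.ev a b l = Pool.Agent.H785R3.GrowthA.ev a b l')
    {C : ∀ (G : Type) [Group G], Prop} (hC : Closed C) (hCG : C G) : C φ.range := by
  have hV' : ∀ k : φ.range, InV G (φ.range.subtype k) := by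
    rintro ⟨_, k, rfl⟩
    exact hV k
  have hK' : Group.FG φ.range := by
    have := hK
    exact Group.fg_range φ
  have hNF' : ∀ a b : φ.range, ¬ FreePair a b := by
    rintro ⟨_, a, rfl⟩ ⟨_, b, rfl⟩
    obtain ⟨l, l', hne, e⟩ := hNF a b
    refine N6.W.homog _ _ l l' hne ?_
    have hev : ∀ l : List Bool, Pool.Agent.H785R3.GrowthA.ev (φ.rangeRestrict a)
        (φ.rangeRestrict b) l = φ.rangeRestrict (Pool.Agent.H785R3.GrowthA.ev a b l) := by
      intro l
      induction l with
      | nil => simp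
      | cons t l ih =>
        rw [Pool.Agent.H785R3.GrowthA.ev_cons, Pool.Agent.H785R3.GrowthA.ev_cons, ih, map_mul]
        cases t <;> simp
    have h1 := hev l
    have h2 := hev l'
    rw [e, ← h2] at h1
    exact h1
  obtain ⟨P, hP, n, Φ, hΦ⟩ := virt_emb hG hV' hFS hK' hNF' Subtype.val_injective
  refine hC.finiteIndex _ P hP (hC.of_injective _ _ Φ hΦ ?_)
  exact closed_pow hC (hC.prod _ _ hCG hC.int) n

/-! ## translation of polynomial activity -/

/-- `g` acts nontrivially below at most `c (m + 1) ^ n` words of length `m` -/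
def PolAct (g : Equiv.Perm (ℕ → X)) : Prop :=
  ∃ c n : ℕ, ∀ m : ℕ, {v : List X | v.length = m ∧ ¬ ∃ v' : List X, v'.length = v.length ∧
    ∀ x, g (ap v x) = ap v' x}.ncard ≤ c * (m + 1) ^ n

theorem SelfSim.isAut (hG : SelfSim G) {g : Equiv.Perm (ℕ → X)} (hg : g ∈ G) : IsAut g := by
  intro n x y
  constructor
  · intro h
    have := hG.pre_eq (G.inv_mem hg) h
    simpa using this
  · exact fun h => hG.pre_eq hg h

/-- the action on words -/
def wfun (z : ℕ → X) (g : Equiv.Perm (ℕ → X)) (u : List X) : List X := pre u.length (g (ap u z))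

theorem wfun_len (z : ℕ → X) (g : Equiv.Perm (ℕ → X)) (u : List X) :
    (wfun z g u).length = u.length := by simp [wfun]

theorem wfun_eq {g : Equiv.Perm (ℕ → X)} (hg : IsAut g) (z : ℕ → X) (n : ℕ) (x : ℕ → X) :
    wfun z g (pre n x) = pre n (g x) := by
  unfold wfun
  rw [pre_length, hg n]
  have := pre_ap' (pre n x) z
  rw [pre_length] at this
  exact this

theorem wfun_mul {g h : Equiv.Perm (ℕ → X)} (hg : IsAut g) (z : ℕ → X) (u : List X) :
    wfun z g (wfun z h u) = wfun z (g * h) u := by
  have h1 : wfun z h u = pre u.length (h (ap u z)) := rfl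
  rw [h1, wfun_eq hg]
  rfl

theorem wfun_one (z : ℕ → X) (u : List X) : wfun z 1 u = u := pre_ap' u z

/-- the homomorphism to the permutations of the words -/
def wHom (hG : SelfSim G) (z : ℕ → X) : G →* Equiv.Perm (List X) where
  toFun g :=
    { toFun := wfun z g
      invFun := wfun z (g : Equiv.Perm (ℕ → X))⁻¹
      left_inv := fun u => by
        rw [wfun_mul (IsAut.inv (hG.isAut g.2)), inv_mul_cancel, wfun_one]
      right_inv := fun u => by
        rw [wfun_mul (hG.isAut g.2), mul_inv_cancel, wfun_one] }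
  map_one' := Equiv.ext fun u => wfun_one z u
  map_mul' g h := Equiv.ext fun u => (wfun_mul (hG.isAut g.2) z u).symm

theorem wHom_apply (hG : SelfSim G) (z : ℕ → X) (g : G) (u : List X) :
    wHom hG z g u = wfun z g u := rfl

theorem wHom_inj (hG : SelfSim G) (z : ℕ → X) : Function.Injective (wHom hG z) := by
  intro g h e
  apply Subtype.ext
  apply Equiv.ext
  intro x
  apply ext_pre
  intro n
  rw [← wfun_eq (hG.isAut g.2) z, ← wfun_eq (hG.isAut h.2) z, ← wHom_apply hG, ← wHom_apply hG, e]

theorem wfun_append {g g' : Equiv.Perm (ℕ → X)} {v v' : List X}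
    (z : ℕ → X) (hl : v'.length = v.length) (e : ∀ x, g (ap v x) = ap v' (g' x)) (w : List X) :
    wfun z g (v ++ w) = v' ++ wfun z g' w := by
  unfold wfun
  rw [ap_append, e, List.length_append, ← hl, pre_ap]

theorem wfun_self {g g' : Equiv.Perm (ℕ → X)} {v v' : List X}
    (z : ℕ → X) (hl : v'.length = v.length) (e : ∀ x, g (ap v x) = ap v' (g' x)) :
    wfun z g v = v' := by
  have := wfun_append z hl e []
  simpa [wfun, pre] using this

theorem wHom_isTree (hG : SelfSim G) (z : ℕ → X) (g : G) : IsTree (wHom hG z g) := by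
  refine ⟨fun v => ?_, fun v w => ?_⟩
  · rw [wHom_apply]
    exact wfun_len _ _ _
  · obtain ⟨v', hv', g', hg', e⟩ := hG.word v g.2
    rw [wHom_apply, wHom_apply, wfun_append z hv' e, wfun_self z hv' e]
    exact List.prefix_append _ _

theorem wHom_sections (hG : SelfSim G) (z : ℕ → X) (g : G)
    (h : (Sec (g : Equiv.Perm (ℕ → X))).Finite) : (Sections (wHom hG z g)).Finite := by
  refine (h.image (fun g' => wfun z g')).subset ?_
  rintro f ⟨v, hv⟩
  obtain ⟨v', hv', g', hg', e⟩ := hG.word v g.2
  refine ⟨g', ⟨v, v', hv'.symm, e⟩, ?_⟩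
  funext w
  have h1 := hv w
  rw [wHom_apply, wHom_apply, wfun_append z hv' e, wfun_self z hv' e] at h1
  exact List.append_cancel_left h1

theorem wHom_pol [Finite X] (hG : SelfSim G) (z : ℕ → X) (g : G)
    (h : PolAct (g : Equiv.Perm (ℕ → X))) : PolActivity (wHom hG z g) := by
  obtain ⟨c, n, h⟩ := h
  refine ⟨c, n, fun m => (Set.ncard_le_ncard ?_ ?_).trans (h m)⟩
  · rintro v ⟨hvm, w, hw⟩
    refine ⟨hvm, ?_⟩
    rintro ⟨v', hv', e⟩
    apply hw
    have e1 : ∀ x, (g : Equiv.Perm (ℕ → X)) (ap v x) = ap v' ((1 : Equiv.Perm (ℕ → X)) x) := e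
    rw [wHom_apply, wHom_apply, wfun_append z hv' e1, wfun_self z hv' e1, wfun_one]
  · exact (finite_words m).subset fun v hv => hv.1

end Pool.Agent.K6.H60.RN
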