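import Pool.Agent.K6.H60.RN.T3b
import Pool.Agent.K6.H60.RN.T3d

/-!
# Groups whose proper subgroups are cyclic do not act
-/

set_option autoImplicit false

namespace Pool.Agent.K6.H60.RN

variable {X : Type} {G : Subgroup (Equiv.Perm (ℕ → X))} {K : Type} [Group K]
  {φ : K →* Equiv.Perm (ℕ → X)}

theorem type3_trivial [Finite X] [Nontrivial X] (hG : SelfSim G) (hV : ∀ k, InV G (φ k))
    (hK : Group.FG K) (hno : ∀ H : Subgroup K, H.FiniteIndex → H = ⊤)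
    (hcyc : ∀ H : Subgroup K, H ≠ ⊤ → IsCyclic H) (x : ℕ → X) (k : K) : φ k x = x := by
  by_contra hcon
  obtain ⟨D⟩ := exists_data hG hV hK
  obtain ⟨γ, p, hγp, hγc⟩ := exists_contr hG hV hno D (x := x) (fun h => hcon (h k))
  obtain ⟨s, hp, hc, hgen⟩ := exists_gen hG hV hno hcyc hγp hγc
  have hpF : ¬ ∀ k, φ k p = p := by
    intro h
    have := fixed_c_zero hG hV hno h s
    omega
  have hFx : ∀ x ∈ cl φ p, ¬ ∀ k, φ k x = x := fun x hx => not_fixed_of_cl hG hV hno D hpF hx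
  obtain ⟨φs, hφs⟩ : ∃ φs : Subgroup.zpowers s →* Equiv.Perm (ℕ → X),
      φs = φ.comp (Subgroup.zpowers s).subtype := ⟨_, rfl⟩
  have hφs' : ∀ k : Subgroup.zpowers s, φs k = φ (k : K) := fun k => by rw [hφs]; rfl
  have hVs : ∀ k, InV G (φs k) := fun k => by rw [hφs']; exact hV _
  have hfg : Group.FG (Subgroup.zpowers s) := by
    rw [Group.fg_iff_subgroup_fg]
    exact ⟨{s}, by rw [Finset.coe_singleton, Subgroup.zpowers_eq_closure]⟩
  obtain ⟨Ds⟩ := exists_data (φ := φs) hG hVs hfg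
  by_cases h : ∃ x ∈ cl φ p, ∀ n : ℤ, |c G φ (s ^ n) x| ≤ Ds.M
  · obtain ⟨x, hx, hb⟩ := h
    exact caseI hG hV hno hcyc hp hc hgen hφs Ds hx hb
  · push Not at h
    refine caseII hG hV hno hcyc hp hc (m := Ds.m) hFx ?_
    intro x hx
    obtain ⟨n, hn⟩ := h x hx
    have h1 : (Ds.M : ℤ) ≤ |c G φs ⟨s ^ n, n, rfl⟩ x| := by
      unfold c at hn ⊢
      rw [hφs']
      exact hn.le
    obtain ⟨w, hw, ⟨_, j, rfl⟩, t, ht, hC, ⟨_, i, rfl⟩, hin⟩ := path_contr' hG hVs Ds _ x h1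
    rw [hφs'] at hC hin
    exact ⟨w, t, j, i, hw, ht, hC, hin⟩

end Pool.Agent.K6.H60.RN
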