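import Pool.Agent.K6.H60.RN.Cl
import Pool.Agent.R673.MG.Types

/-!
# Groups without subgroups of finite index
-/

set_option autoImplicit false

namespace Pool.Agent.K6.H60.RN

variable {X : Type} {G : Subgroup (Equiv.Perm (ℕ → X))} {K : Type*} [Group K]
  {φ : K →* Equiv.Perm (ℕ → X)}

theorem fixed_c_zero [Nontrivial X] (hG : SelfSim G) (hV : ∀ k, InV G (φ k))
    (hno : ∀ H : Subgroup K, H.FiniteIndex → H = ⊤) {x : ℕ → X} (hx : ∀ k, φ k x = x) (k : K) :
    c G φ k x = 0 := by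
  by_contra hne
  set n := c G φ k x with hn
  let P : Subgroup K :=
    { carrier := {h | (2 * n) ∣ c G φ h x}
      one_mem' := by
        show (2 * n) ∣ c G φ (1 : K) x
        rw [c_one hG]
        exact dvd_zero _
      mul_mem' := fun {a b} ha hb => by
        show (2 * n) ∣ c G φ (a * b) x
        rw [c_mul hG hV, hx b]
        exact dvd_add ha hb
      inv_mem' := fun {a} ha => by
        show (2 * n) ∣ c G φ a⁻¹ x
        rw [c_inv_fix hG hV (hx a)]
        exact (dvd_neg).2 ha }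
  have hP : P.FiniteIndex := by
    refine finIdx_of_map P (fun h => c G φ h x % (2 * n)) ?_ ?_
    · refine (Set.finite_Icc (0 : ℤ) |2 * n|).subset ?_
      rintro _ ⟨h, rfl⟩
      exact ⟨Int.emod_nonneg _ (by omega), (Int.emod_lt_abs _ (by omega)).le⟩
    · intro a b hab
      show (2 * n) ∣ c G φ (a⁻¹ * b) x
      rw [c_mul hG hV, hx b, c_inv_fix hG hV (hx a)]
      have h1 : (2 * n) ∣ c G φ b x - c G φ a x := Int.ModEq.dvd hab
      have h2 : -c G φ a x + c G φ b x = c G φ b x - c G φ a x := by ring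
      rw [h2]
      exact h1
  have h1 : k ∈ P := by rw [hno P hP]; trivial
  have h2 : (2 * n) ∣ n := h1
  obtain ⟨q, hq⟩ := h2
  have h3 : n * (1 - 2 * q) = 0 := by linarith
  rcases mul_eq_zero.1 h3 with h4 | h4
  · exact hne h4
  · omega

theorem fixed_open [Finite X] [Nontrivial X] (hG : SelfSim G) (hV : ∀ k, InV G (φ k))
    (hno : ∀ H : Subgroup K, H.FiniteIndex → H = ⊤) (D : Data G φ) {x : ℕ → X}
    (hx : ∀ k, φ k x = x) {y : ℕ → X} (hy : pre D.m y = pre D.m x) (k : K) : φ k y = y := by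
  have hb : ∀ h : K, |c G φ h x| ≤ (0 : ℕ) := by
    intro h
    rw [fixed_c_zero hG hV hno hx]
    simp
  have h1 := hno _ (stabC_finite hG hV D hb (n := D.m) (by omega))
  have h2 : ∀ h : K, Cm G (φ h) (pre D.m x) (pre D.m x) := by
    intro h
    have : h ∈ stabC G φ (pre D.m x) := by rw [h1]; trivial
    exact this
  have hb' : ∀ h : K, |c G φ h y| ≤ (0 : ℕ) := by
    intro h
    have : c G φ h y = 0 := by
      unfold c
      rw [cc_eq hG (in_pre_iff.2 hy) (h2 h)]
      simp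
    rw [this]
    simp
  exact fixed_of_bounded hG hV hno D hb' k

theorem exists_contr [Finite X] [Nontrivial X] (hG : SelfSim G) (hV : ∀ k, InV G (φ k))
    (hno : ∀ H : Subgroup K, H.FiniteIndex → H = ⊤) (D : Data G φ) {x : ℕ → X}
    (hx : ¬ ∀ k, φ k x = x) : ∃ (γ : K) (p : ℕ → X), φ γ p = p ∧ 0 < c G φ γ p := by
  by_contra hcon
  push Not at hcon
  apply hx
  apply fixed_of_bounded hG hV hno D (M := D.M)
  intro h
  by_contra h1
  push Not at h1
  obtain ⟨w, -, γ, t, ht, h3, -⟩ := path_contr' hG hV D h x h1.le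
  obtain ⟨p, hp, ep⟩ := h3.fix_exists hG ht
  have h4 := hcon γ p ep
  have h5 : c G φ γ p = t.length := h3.cc_fix hG hp
  have h6 : 0 < t.length := List.length_pos_iff.2 ht
  omega

theorem orbit_infinite (hno : ∀ H : Subgroup K, H.FiniteIndex → H = ⊤) {x : ℕ → X}
    (hx : ¬ ∀ k, φ k x = x) : (Set.range fun k : K => φ k x).Infinite := by
  intro h
  apply hx
  intro k
  have h1 := hno _ (ptStab_finite h)
  have : k ∈ ptStab φ x := by rw [h1]; trivial
  exact this

theorem not_fixed_of_cl [Finite X] [Nontrivial X] (hG : SelfSim G) (hV : ∀ k, InV G (φ k))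
    (hno : ∀ H : Subgroup K, H.FiniteIndex → H = ⊤) (D : Data G φ) {x y : ℕ → X}
    (hx : ¬ ∀ k, φ k x = x) (hy : y ∈ cl φ x) : ¬ ∀ k, φ k y = y := by
  intro h
  obtain ⟨k, hk⟩ := hy D.m
  have h1 := fixed_open hG hV hno D h hk
  apply hx
  intro g
  have h2 := h1 (k * g * k⁻¹)
  rw [map_mul, map_mul, map_inv, Equiv.Perm.mul_apply, Equiv.Perm.mul_apply] at h2
  have h3 : (φ k)⁻¹ (φ k x) = x := by simp
  rw [h3] at h2
  exact (φ k).injective h2

/-- the power of an element with an attracting fixed point is nontrivial -/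
theorem pow_ne_one [Nontrivial X] (hG : SelfSim G) (hV : ∀ k, InV G (φ k)) {s : K} {p : ℕ → X}
    (hp : φ s p = p) (hc : 0 < c G φ s p) {n : ℕ} (hn : 0 < n) : s ^ n ≠ 1 := by
  intro e
  have h1 := c_pow hG hV hp n
  rw [e, c_one hG] at h1
  have h2 : (0 : ℤ) < n * c G φ s p := by positivity
  omega

theorem no_central [Finite X] [Nontrivial X] (hG : SelfSim G) (hV : ∀ k, InV G (φ k))
    (hno : ∀ H : Subgroup K, H.FiniteIndex → H = ⊤) {s : K} {p : ℕ → X}
    (hp : φ s p = p) (hc : 0 < c G φ s p) (hgen : ∀ k, φ k p = p → ∃ i : ℤ, k = s ^ i)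
    {ζ : K} (hζ : ∀ g, g * ζ = ζ * g) (hinf : ∀ n : ℕ, 0 < n → ζ ^ n ≠ 1) : False := by
  have hnf : ¬ ∀ k, φ k p = p := by
    intro h
    have := fixed_c_zero hG hV hno h s
    omega
  obtain ⟨n, hn, hr⟩ := pow_return (k := ζ) (x := p) (finite_att hG hV s) (by
    intro n
    obtain ⟨h1, h2⟩ := c_conj hG hV (ζ ^ n) s hp
    have h3 : ζ ^ n * s * (ζ ^ n)⁻¹ = s := by
      have : Commute s (ζ ^ n) := Commute.pow_right (hζ s) n
      rw [← this.eq]
      group
    rw [h3] at h1 h2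
    exact ⟨h1, by rw [h2]; exact hc⟩)
  obtain ⟨i, hi⟩ := hgen _ hr
  have hi0 : i ≠ 0 := by
    rintro rfl
    exact hinf n hn (by rw [hi, zpow_zero])
  have hcz : c G φ (ζ ^ n) p = i * c G φ s p := by rw [hi]; exact c_zpow hG hV hp i
  have hcz0 : c G φ (ζ ^ n) p ≠ 0 := by
    rw [hcz]
    exact mul_ne_zero hi0 hc.ne'
  obtain ⟨η, hη, hη1, hη2⟩ : ∃ η : K, (∀ g, g * η = η * g) ∧ φ η p = p ∧ 0 < c G φ η p := by
    have h1 : ∀ g, g * ζ ^ n = ζ ^ n * g := fun g => (Commute.pow_right (hζ g) n).eq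
    rcases lt_or_gt_of_ne hcz0 with h | h
    · refine ⟨(ζ ^ n)⁻¹, fun g => (Commute.inv_right (h1 g)).eq, fix_inv hr, ?_⟩
      rw [c_inv_fix hG hV hr]
      omega
    · exact ⟨ζ ^ n, h1, hr, h⟩
  apply orbit_infinite hno hnf
  refine (finite_att hG hV η).subset ?_
  rintro _ ⟨g, rfl⟩
  obtain ⟨h1, h2⟩ := c_conj hG hV g η hη1
  have h3 : g * η * g⁻¹ = η := by rw [hη g]; group
  rw [h3] at h1 h2
  exact ⟨h1, by rw [h2]; exact hη2⟩

theorem cyc_comm {H : Subgroup K} (h : IsCyclic H) {a b : K} (ha : a ∈ H) (hb : b ∈ H) :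
    a * b = b * a := by
  obtain ⟨⟨z, hz⟩, hgen⟩ := h
  obtain ⟨i, hi⟩ := hgen ⟨a, ha⟩
  obtain ⟨j, hj⟩ := hgen ⟨b, hb⟩
  have hi' : z ^ i = a := by simpa using congrArg Subtype.val hi
  have hj' : z ^ j = b := by simpa using congrArg Subtype.val hj
  rw [← hi', ← hj', ← zpow_add, ← zpow_add, add_comm]

theorem trivial_of_cyclic {B : Type*} [Group B] {z : B} (hz : Subgroup.zpowers z = ⊤)
    (hno : ∀ H : Subgroup B, H.FiniteIndex → H = ⊤) (b : B) : b = 1 := by
  have hrep : ∀ b : B, ∃ i : ℤ, z ^ i = b := by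
    intro b
    have : b ∈ Subgroup.zpowers z := by rw [hz]; trivial
    exact this
  by_cases hf : IsOfFinOrder z
  · have h1 : (Set.univ : Set B).Finite := by
      refine hf.finite_zpowers.subset ?_
      intro b _
      exact hrep b
    have h2 : Finite B := Set.finite_univ_iff.1 h1
    have h3 : (⊥ : Subgroup B) = ⊤ := hno ⊥ inferInstance
    have h4 : b ∈ (⊥ : Subgroup B) := by rw [h3]; trivial
    exact h4
  · exfalso
    choose f hf' using hrep
    have h1 : (Subgroup.zpowers (z ^ (2 : ℤ))).FiniteIndex := by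
      refine finIdx_of_map _ (fun b => f b % 2) ?_ ?_
      · refine (Set.finite_Icc (0 : ℤ) 2).subset ?_
        rintro _ ⟨h, rfl⟩
        exact ⟨by simp only; omega, by simp only; omega⟩
      · intro a b hab
        refine ⟨(f b - f a) / 2, ?_⟩
        show (z ^ (2 : ℤ)) ^ ((f b - f a) / 2) = a⁻¹ * b
        rw [← zpow_mul]
        have h2 : 2 * ((f b - f a) / 2) = f b - f a := by
          have hab' : f a % 2 = f b % 2 := hab
          omega
        rw [h2, sub_eq_neg_add, zpow_add, zpow_neg, hf' a, hf' b]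
    have h2 := hno _ h1
    have h3 : z ∈ Subgroup.zpowers (z ^ (2 : ℤ)) := by rw [h2]; trivial
    obtain ⟨j, hj⟩ := h3
    have hj' : z ^ (2 * j) = z ^ (1 : ℤ) := by
      rw [zpow_mul, zpow_one]
      exact hj
    have := R673.MG.zpow_inj_of hf hj'
    omega

/-- the generator of the stabilizer of an attracting fixed point -/
theorem exists_gen [Nontrivial X] (hG : SelfSim G) (hV : ∀ k, InV G (φ k))
    (hno : ∀ H : Subgroup K, H.FiniteIndex → H = ⊤)
    (hcyc : ∀ H : Subgroup K, H ≠ ⊤ → IsCyclic H) {γ : K} {p : ℕ → X}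
    (hp : φ γ p = p) (hc : 0 < c G φ γ p) :
    ∃ s : K, φ s p = p ∧ 0 < c G φ s p ∧ ∀ k, φ k p = p → ∃ i : ℤ, k = s ^ i := by
  have hne : ptStab φ p ≠ ⊤ := by
    intro h
    have h1 : ∀ k, φ k p = p := by
      intro k
      have : k ∈ ptStab φ p := by rw [h]; trivial
      exact this
    have := fixed_c_zero hG hV hno h1 γ
    omega
  obtain ⟨⟨z, hz⟩, hgen⟩ := hcyc _ hne
  have hz' : φ z p = p := hz
  have hg : ∀ k, φ k p = p → ∃ i : ℤ, k = z ^ i := by
    intro k hk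
    obtain ⟨i, hi⟩ := hgen ⟨k, hk⟩
    exact ⟨i, by simpa using (congrArg Subtype.val hi).symm⟩
  obtain ⟨i, hi⟩ := hg γ hp
  have h1 : c G φ γ p = i * c G φ z p := by rw [hi]; exact c_zpow hG hV hz' i
  rcases lt_trichotomy (c G φ z p) 0 with h | h | h
  · refine ⟨z⁻¹, fix_inv hz', by rw [c_inv_fix hG hV hz']; omega, fun k hk => ?_⟩
    obtain ⟨i, hi⟩ := hg k hk
    exact ⟨-i, by rw [hi]; simp⟩
  · rw [h, mul_zero] at h1
    omega
  · exact ⟨z, hz', h, hg⟩

/-- elements which fix a point of the orbit with zero cocycle are trivial -/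
theorem eq_one_of_c_zero [Nontrivial X] (hG : SelfSim G) (hV : ∀ k, InV G (φ k)) {s : K}
    {p : ℕ → X} (hp : φ s p = p) (hc : 0 < c G φ s p)
    (hgen : ∀ k, φ k p = p → ∃ i : ℤ, k = s ^ i) {g k : K}
    (hk : φ k (φ g p) = φ g p) (hkc : c G φ k (φ g p) = 0) : k = 1 := by
  obtain ⟨h1, h2⟩ := c_conj hG hV g⁻¹ k hk
  have h3 : φ g⁻¹ (φ g p) = p := by rw [map_inv]; simp
  rw [h3] at h1 h2
  obtain ⟨i, hi⟩ := hgen _ h1
  rw [hi, c_zpow hG hV hp, hkc] at h2
  rcases mul_eq_zero.1 h2 with h4 | h4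
  · rw [h4, zpow_zero] at hi
    have : k = g * (g⁻¹ * k * g⁻¹⁻¹) * g⁻¹ := by group
    rw [this, hi]
    group
  · omega

end Pool.Agent.K6.H60.RN
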