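import Pool.Agent.K6.H60.RN.T3a

/-!
# Type (3): the neutral case
-/

set_option autoImplicit false

namespace Pool.Agent.K6.H60.RN

variable {X : Type} {G : Subgroup (Equiv.Perm (ℕ → X))} {K : Type*} [Group K]
  {φ : K →* Equiv.Perm (ℕ → X)}

theorem zpow_c (s : K) (h : Subgroup.zpowers s) (x : ℕ → X) :
    c G (φ.comp (Subgroup.zpowers s).subtype) h x = c G φ (h : K) x := rfl

theorem caseI [Finite X] [Nontrivial X] (hG : SelfSim G) (hV : ∀ k, InV G (φ k))
    (hno : ∀ H : Subgroup K, H.FiniteIndex → H = ⊤)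
    (hcyc : ∀ H : Subgroup K, H ≠ ⊤ → IsCyclic H) {s : K} {p : ℕ → X}
    (hp : φ s p = p) (hc : 0 < c G φ s p) (hgen : ∀ k, φ k p = p → ∃ i : ℤ, k = s ^ i)
    {φs : Subgroup.zpowers s →* Equiv.Perm (ℕ → X)} (hφs : φs = φ.comp (Subgroup.zpowers s).subtype)
    (D : Data G φs) {x : ℕ → X} (hx : x ∈ cl φ p)
    (hb : ∀ n : ℤ, |c G φ (s ^ n) x| ≤ D.M) : False := by
  have hφs' : ∀ k : Subgroup.zpowers s, φs k = φ (k : K) := fun k => by rw [hφs]; rfl
  have hVs : ∀ k, InV G (φs k) := fun k => by rw [hφs']; exact hV _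
  have hb1 : ∀ h : Subgroup.zpowers s, |c G φs h x| ≤ D.M := by
    rintro ⟨_, n, rfl⟩
    have h1 := hb n
    unfold c at h1 ⊢
    rw [hφs']
    exact h1
  obtain ⟨g, hg⟩ := hx (D.m + D.M)
  set p1 := φ g p with hp1
  have hb2 : ∀ h : Subgroup.zpowers s, |c G φs h p1| ≤ D.M := by
    intro h
    obtain ⟨k, ek, hk⟩ := bounded_cm hG hVs D hb1 le_rfl h
    have h1 : c G φs h p1 = c G φs h x := by
      unfold c
      rw [cc_eq hG (in_pre_iff.2 hg) hk, cc_eq hG (in_pre _ x) hk]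
    rw [h1]
    exact hb1 h
  obtain ⟨hs1, hs1c⟩ := c_conj hG hV g s hp
  set s1 := g * s * g⁻¹ with hs1d
  rw [← hp1] at hs1 hs1c
  obtain ⟨m1, hm1⟩ := contr_of_fix hG hV hs1 (by rw [hs1c]; exact hc)
  set n1 := max m1 (D.m + D.M) with hn1
  obtain ⟨t1, ht1, -, hC1⟩ := hm1 n1 (le_max_left _ _)
  set u1 := pre n1 p1 with hu1
  have hu1p : In u1 p1 := in_pre _ _
  have hu1t : In (u1 ++ t1) p1 := by
    have := hC1.in hu1p
    rwa [hs1] at this
  have hu1t' : u1 ++ t1 = pre (u1 ++ t1).length p1 := hu1t.symm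
  have hlen : n1 ≤ (u1 ++ t1).length := by
    rw [List.length_append, hu1, pre_length]
    omega
  have hf1 : (stabC G φs u1).FiniteIndex :=
    stabC_finite hG hVs D hb2 (le_max_right _ _)
  have hf2 : (stabC G φs (u1 ++ t1)).FiniteIndex := by
    rw [hu1t']
    exact stabC_finite hG hVs D hb2 (le_trans (le_max_right _ _) hlen)
  obtain ⟨N1, hN1, -, hN1'⟩ := Subgroup.exists_pow_mem_of_index_ne_zero hf1.index_ne_zero
    (⟨s, Subgroup.mem_zpowers s⟩ : Subgroup.zpowers s)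
  obtain ⟨N2, hN2, -, hN2'⟩ := Subgroup.exists_pow_mem_of_index_ne_zero hf2.index_ne_zero
    (⟨s, Subgroup.mem_zpowers s⟩ : Subgroup.zpowers s)
  have hA1 : s ^ N1 ∈ stabC G φ u1 := by
    have h := mem_stabC.1 hN1'
    rw [hφs'] at h
    exact h
  have hA2 : s ^ N2 ∈ stabC G φ (u1 ++ t1) := by
    have h := mem_stabC.1 hN2'
    rw [hφs'] at h
    exact h
  set ζ := s ^ (N1 * N2) with hζ
  have hζ1 : ζ ∈ stabC G φ u1 := by
    rw [hζ, pow_mul]
    exact Subgroup.pow_mem _ hA1 _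
  have hζ2 : ζ ∈ stabC G φ (u1 ++ t1) := by
    rw [hζ, mul_comm, pow_mul]
    exact Subgroup.pow_mem _ hA2 _
  have hζinf : ∀ n : ℕ, 0 < n → ζ ^ n ≠ 1 := by
    intro n hn
    rw [hζ, ← pow_mul]
    exact pow_ne_one hG hV hp hc (by positivity)
  set P := stabC G φ u1 with hP
  have hPne : P ≠ ⊤ := by
    intro h
    have h1 : s1 ∈ P := by rw [h]; trivial
    have h2 : u1 = u1 ++ t1 := Cm.unique (mem_stabC.1 h1) hC1
    exact ht1 (by simpa using h2.symm)
  obtain ⟨⟨α0, hα0⟩, hPg⟩ := hcyc P hPne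
  have hPg' : ∀ k ∈ P, ∃ i : ℤ, k = α0 ^ i := by
    intro k hk
    obtain ⟨i, hi⟩ := hPg ⟨k, hk⟩
    exact ⟨i, by simpa using (congrArg Subtype.val hi).symm⟩
  obtain ⟨j, hj⟩ := hPg' ζ hζ1
  have h3 : s1⁻¹ * ζ * s1 ∈ P := by
    show Cm G (φ (s1⁻¹ * ζ * s1)) u1 u1
    rw [map_mul, map_mul, map_inv]
    exact (hC1.inv.mul (mem_stabC.1 hζ2)).mul hC1
  obtain ⟨i, hi⟩ := hPg' _ h3
  set β := s1 * α0 * s1⁻¹ with hβ
  have hζβ : ζ = β ^ i := by
    rw [hβ, conj_zpow, ← hi]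
    group
  set Q := Subgroup.centralizer ({ζ} : Set K) with hQ
  have memQ : ∀ h : K, h ∈ Q ↔ ζ * h = h * ζ := by
    intro h
    rw [hQ, Subgroup.mem_centralizer_iff]
    simp
  have hQne : Q ≠ ⊤ := by
    intro h
    refine no_central hG hV hno hp hc hgen (ζ := ζ) (fun g => ?_) hζinf
    have : g ∈ Q := by rw [h]; trivial
    exact ((memQ g).1 this).symm
  have hQc := hcyc Q hQne
  have hα0Q : α0 ∈ Q := by
    rw [memQ, hj]
    exact (Commute.zpow_left (Commute.refl α0) j).eq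
  have hβQ : β ∈ Q := by
    rw [memQ, hζβ]
    exact (Commute.zpow_left (Commute.refl β) i).eq
  have hQα : ∀ h : K, h ∈ Q ↔ α0 * h = h * α0 := by
    intro h
    constructor
    · intro hh
      exact cyc_comm hQc hα0Q hh
    · intro hh
      rw [memQ, hj]
      exact (Commute.zpow_left hh j).eq
  have hQβ : ∀ h : K, h ∈ Q ↔ β * h = h * β := by
    intro h
    constructor
    · intro hh
      exact cyc_comm hQc hβQ hh
    · intro hh
      rw [memQ, hζβ]
      exact (Commute.zpow_left hh i).eq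
  have hs1Q : ∀ h : K, h ∈ Q ↔ s1 * h * s1⁻¹ ∈ Q := by
    intro h
    rw [hQα, hQβ, hβ]
    constructor
    · intro hh
      have : s1 * α0 * s1⁻¹ * (s1 * h * s1⁻¹) = s1 * (α0 * h) * s1⁻¹ := by group
      rw [this, hh]
      group
    · intro hh
      have h4 : s1 * (α0 * h) * s1⁻¹ = s1 * (h * α0) * s1⁻¹ := by
        have e1 : s1 * (α0 * h) * s1⁻¹ = s1 * α0 * s1⁻¹ * (s1 * h * s1⁻¹) := by group
        have e2 : s1 * (h * α0) * s1⁻¹ = s1 * h * s1⁻¹ * (s1 * α0 * s1⁻¹) := by group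
        rw [e1, e2, hh]
      exact mul_left_cancel (mul_right_cancel h4)
  set α := s ^ N1 with hα
  have hαQ : α ∈ Q := by
    rw [memQ, hζ, hα, ← pow_add, ← pow_add, add_comm]
  have hα1 : α ≠ 1 := pow_ne_one hG hV hp hc hN1
  -- α and s1 generate K
  have hgenK : Subgroup.closure ({α, s1} : Set K) = ⊤ := by
    by_contra hne
    have hcomm : α * s1 = s1 * α := cyc_comm (hcyc _ hne) (Subgroup.subset_closure (by simp))
      (Subgroup.subset_closure (by simp))
    have h4 : φ s1 (φ α p1) = φ α p1 := by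
      rw [← Equiv.Perm.mul_apply, ← map_mul, ← hcomm, map_mul, Equiv.Perm.mul_apply, hs1]
    have hCα : Cm G (φ α) u1 u1 := mem_stabC.1 hA1
    have h5 : In u1 (φ α p1) := hCα.in hu1p
    have h6 : φ α p1 = p1 := hC1.fix_unique hG ht1 h5 hu1p h4 hs1
    have h7 : c G φ α p1 = 0 := by
      unfold c
      rw [cc_eq hG hu1p hCα]
      ring
    exact hα1 (eq_one_of_c_zero hG hV hp hc hgen h6 h7)
  have hnorm : Subgroup.normalizer (Q : Set K) = ⊤ := by
    rw [eq_top_iff, ← hgenK, Subgroup.closure_le]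
    intro k hk
    rcases hk with rfl | rfl
    · exact Subgroup.le_normalizer hαQ
    · rw [SetLike.mem_coe, Subgroup.mem_normalizer_iff]
      exact hs1Q
  have hQn : Q.Normal := Subgroup.normalizer_eq_top_iff.1 hnorm
  have hz : Subgroup.zpowers (QuotientGroup.mk s1 : K ⧸ Q) = ⊤ := by
    have h4 : (Subgroup.zpowers (QuotientGroup.mk s1 : K ⧸ Q)).comap (QuotientGroup.mk' Q) = ⊤ := by
      rw [eq_top_iff, ← hgenK, Subgroup.closure_le]
      intro k hk
      rcases hk with rfl | rfl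
      · rw [SetLike.mem_coe, Subgroup.mem_comap]
        have : QuotientGroup.mk' Q α = 1 := (QuotientGroup.eq_one_iff α).2 hαQ
        rw [this]
        exact Subgroup.one_mem _
      · exact Subgroup.mem_zpowers _
    rw [eq_top_iff]
    intro b _
    obtain ⟨k, rfl⟩ := QuotientGroup.mk'_surjective Q b
    have : k ∈ (Subgroup.zpowers (QuotientGroup.mk s1 : K ⧸ Q)).comap (QuotientGroup.mk' Q) := by
      rw [h4]; trivial
    exact this
  have htriv := trivial_of_cyclic hz (by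
    intro H hH
    have h5 : H.comap (QuotientGroup.mk' Q) = ⊤ := hno _ ⟨by
      rw [Subgroup.index_comap_of_surjective _ (QuotientGroup.mk'_surjective Q)]
      exact hH.index_ne_zero⟩
    rw [eq_top_iff]
    intro b _
    obtain ⟨k, rfl⟩ := QuotientGroup.mk'_surjective Q b
    have : k ∈ H.comap (QuotientGroup.mk' Q) := by rw [h5]; trivial
    exact this)
  apply hQne
  rw [eq_top_iff]
  intro k _
  exact (QuotientGroup.eq_one_iff k).1 (htriv _)

end Pool.Agent.K6.H60.RN
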