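import Pool.Agent.K6.H60.RN.T3a

/-!
# Type (3): the hyperbolic case, dynamics
-/

set_option autoImplicit false

namespace Pool.Agent.K6.H60.RN

variable {X : Type} {G : Subgroup (Equiv.Perm (ℕ → X))} {K : Type*} [Group K]
  {φ : K →* Equiv.Perm (ℕ → X)}

theorem per_fix [Nonempty X] (hG : SelfSim G) {s : K} {j : ℤ} {w t : List X} (ht : t ≠ [])
    (hC : Cm G (φ (s ^ j)) w (w ++ t)) {y : ℕ → X} (hy : In w y) {n : ℕ} (hn : 0 < n)
    (hyn : φ (s ^ n) y = y) : φ (s ^ j) y = y := by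
  obtain ⟨p, hp, ep⟩ := hC.fix_exists hG ht
  have h1 : y = p := by
    apply ext_pre
    intro N
    have h2 := hC.conv hG ht hp ep hy (n := N) (k := n * N) (Nat.le_mul_of_pos_left _ hn)
    rw [← map_pow] at h2
    have h3 : (s ^ j) ^ (n * N) = (s ^ n) ^ (j * N) := by
      rw [← zpow_natCast, ← zpow_mul, ← zpow_natCast, ← zpow_mul]
      congr 1
      push_cast
      ring
    rw [h3, fix_zpow hyn] at h2
    exact h2
  rw [h1, ep]

theorem finite_orbit {s : K} {y : ℕ → X} {n : ℕ} (hn : 0 < n) (hyn : φ (s ^ n) y = y) :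
    (Set.range fun k : ℤ => φ (s ^ k) y).Finite := by
  refine ((Set.finite_Icc (0 : ℤ) n).image (fun k : ℤ => φ (s ^ k) y)).subset ?_
  rintro _ ⟨k, rfl⟩
  refine ⟨k % n, ⟨Int.emod_nonneg _ (by omega), (Int.emod_lt_of_pos _ (by omega)).le⟩, ?_⟩
  have h1 : s ^ k = s ^ (k % n) * (s ^ n) ^ (k / n) := by
    rw [← zpow_natCast, ← zpow_mul, ← zpow_add]
    congr 1
    exact (Int.emod_add_mul_ediv k n).symm
  show φ (s ^ (k % n)) y = φ (s ^ k) y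
  rw [h1, map_mul, Equiv.Perm.mul_apply, fix_zpow hyn]

/-- the set of the contracting data -/
def Cand (G : Subgroup (Equiv.Perm (ℕ → X))) (φ : K →* Equiv.Perm (ℕ → X)) (s : K) (w : List X) :
    Set (ℕ → X) :=
  {y | In w y ∧ ∃ (j : ℤ) (t : List X), t ≠ [] ∧ Cm G (φ (s ^ j)) w (w ++ t) ∧ φ (s ^ j) y = y}

theorem cand_sub (hG : SelfSim G) (s : K) (w : List X) : (Cand G φ s w).Subsingleton := by
  rintro y ⟨hy, j, t, ht, hC, e⟩ y' ⟨hy', j', t', ht', hC', e'⟩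
  have h1 : In w (φ (s ^ j') y) := in_append (hC'.in hy)
  have h2 : φ (s ^ j) (φ (s ^ j') y) = φ (s ^ j') y := by
    rw [← Equiv.Perm.mul_apply, ← map_mul, ← zpow_add, add_comm, zpow_add, map_mul,
      Equiv.Perm.mul_apply, e]
  have h3 : φ (s ^ j') y = y := hC.fix_unique hG ht h1 hy h2 e
  exact hC'.fix_unique hG ht' hy hy' h3 e'

theorem finite_per [Finite X] [Nonempty X] (hG : SelfSim G) {s : K} {m : ℕ} {M : Set (ℕ → X)}
    (hM : ∀ x ∈ M, ∃ (w t : List X) (j i : ℤ), w.length = m ∧ t ≠ [] ∧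
      Cm G (φ (s ^ j)) w (w ++ t) ∧ In w (φ (s ^ i) x)) :
    {x | x ∈ M ∧ ∃ n : ℕ, 0 < n ∧ φ (s ^ n) x = x}.Finite := by
  have h1 : (⋃ w ∈ {w : List X | w.length = m}, Cand G φ s w).Finite :=
    (finite_words m).biUnion (fun w _ => (cand_sub hG s w).finite)
  have h2 : {y | y ∈ (⋃ w ∈ {w : List X | w.length = m}, Cand G φ s w) ∧
      ∃ n : ℕ, 0 < n ∧ φ (s ^ n) y = y}.Finite := h1.subset (fun y hy => hy.1)
  refine (h2.biUnion (t := fun y => Set.range fun k : ℤ => φ (s ^ k) y) ?_).subset ?_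
  · rintro y ⟨-, n, hn, hy⟩
    exact finite_orbit hn hy
  · rintro x ⟨hx, n, hn, hxn⟩
    obtain ⟨w, t, j, i, hw, ht, hC, hin⟩ := hM x hx
    have h3 : φ (s ^ n) (φ (s ^ i) x) = φ (s ^ i) x := by
      rw [← Equiv.Perm.mul_apply, ← map_mul, ← zpow_natCast, ← zpow_add, add_comm, zpow_add,
        zpow_natCast, map_mul, Equiv.Perm.mul_apply, hxn]
    have h4 : φ (s ^ j) (φ (s ^ i) x) = φ (s ^ i) x := per_fix hG ht hC hin hn h3
    refine Set.mem_biUnion (x := φ (s ^ i) x) ⟨?_, n, hn, h3⟩ ⟨-i, ?_⟩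
    · exact Set.mem_biUnion (show w ∈ {w : List X | w.length = m} from hw)
        ⟨hin, j, t, ht, hC, h4⟩
    · show φ (s ^ (-i)) (φ (s ^ i) x) = x
      rw [← Equiv.Perm.mul_apply, ← map_mul, ← zpow_add]
      simp

theorem common_period {s : K} {A : Set (ℕ → X)} (hA : A.Finite)
    (h : ∀ x ∈ A, ∃ n : ℕ, 0 < n ∧ φ (s ^ n) x = x) :
    ∃ J : ℕ, 0 < J ∧ ∀ x ∈ A, φ (s ^ J) x = x := by
  classical
  choose! n hn1 hn2 using h
  refine ⟨∏ x ∈ hA.toFinset, n x, Finset.prod_pos fun x hx => hn1 x (by simpa using hx), ?_⟩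
  intro x hx
  obtain ⟨q, hq⟩ := Finset.dvd_prod_of_mem n (show x ∈ hA.toFinset by simpa using hx)
  rw [hq, pow_mul]
  exact fix_pow (hn2 x hx) q

/-- every point of `M` moves towards a periodic point -/
theorem typeD [Finite X] [Nontrivial X] (hG : SelfSim G) (hV : ∀ k, InV G (φ k)) {s : K} {m : ℕ}
    {M : Set (ℕ → X)} (hMc : ∀ x, x ∉ M → ∃ n, ∀ y, pre n y = pre n x → y ∉ M)
    (hMi : ∀ x ∈ M, ∀ k : K, φ k x ∈ M)
    (hM : ∀ x ∈ M, ∃ (w t : List X) (j i : ℤ), w.length = m ∧ t ≠ [] ∧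
      Cm G (φ (s ^ j)) w (w ++ t) ∧ In w (φ (s ^ i) x))
    {J : ℕ} (hJ : 0 < J)
    (hper : ∀ x ∈ {x | x ∈ M ∧ ∃ n : ℕ, 0 < n ∧ φ (s ^ n) x = x}, φ (s ^ J) x = x)
    (d : ℕ) {x : ℕ → X} (hx : x ∈ M) :
    ∃ e ∈ {x | x ∈ M ∧ ∃ n : ℕ, 0 < n ∧ φ (s ^ n) x = x}, ∃ n : ℕ,
      (0 < c G φ (s ^ J) e ∧ pre d (φ ((s ^ J) ^ n) x) = pre d e) ∨
      (c G φ (s ^ J) e < 0 ∧ pre d (φ ((s ^ J)⁻¹ ^ n) x) = pre d e) := by
  obtain ⟨w, t, j, i, hw, ht, hC, hin⟩ := hM x hx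
  set y := φ (s ^ i) x with hy
  obtain ⟨p', hp', ep'⟩ := hC.fix_exists hG ht
  have ht' : 0 < t.length := List.length_pos_iff.2 ht
  have hcp : c G φ (s ^ j) p' = t.length := hC.cc_fix hG hp'
  have hj0 : j ≠ 0 := by
    rintro rfl
    rw [zpow_zero, c_one hG] at hcp
    omega
  have hp'M : p' ∈ M := by
    by_contra hnot
    obtain ⟨n, hn⟩ := hMc p' hnot
    apply hn (φ ((s ^ j) ^ n) y) ?_ (hMi _ (hMi x hx _) _)
    rw [map_pow]
    exact hC.conv hG ht hp' ep' hin le_rfl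
  have hp'per : ∃ n : ℕ, 0 < n ∧ φ (s ^ n) p' = p' := by
    refine ⟨j.natAbs, by omega, ?_⟩
    rcases Int.natAbs_eq j with h | h
    · rw [← zpow_natCast, ← h]
      exact ep'
    · have h2 : s ^ j.natAbs = (s ^ j)⁻¹ := by
        rw [← zpow_neg, ← zpow_natCast]
        congr 1
        omega
      rw [h2]
      exact fix_inv ep'
  have hJp : φ (s ^ J) p' = p' := hper p' ⟨hp'M, hp'per⟩
  have hsign : j * c G φ (s ^ J) p' = J * t.length := by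
    rw [← c_zpow hG hV hJp, ← hcp, ← c_pow hG hV ep' J]
    congr 1
    rw [← zpow_natCast, ← zpow_natCast, ← zpow_mul, ← zpow_mul, mul_comm]
  have hsign' : 0 < j * c G φ (s ^ J) p' := by
    rw [hsign]
    positivity
  obtain ⟨e1, e2⟩ := c_conj hG hV (s ^ (-i)) (s ^ J) hJp
  have e3 : s ^ (-i) * s ^ J * (s ^ (-i))⁻¹ = s ^ J := by
    rw [← zpow_natCast, ← zpow_neg, ← zpow_add, ← zpow_add]
    congr 1
    ring
  rw [e3] at e1 e2
  have e4 : ∃ n : ℕ, 0 < n ∧ φ (s ^ n) (φ (s ^ (-i)) p') = φ (s ^ (-i)) p' := ⟨J, hJ, e1⟩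
  refine ⟨φ (s ^ (-i)) p', ⟨hMi _ hp'M _, e4⟩, ?_⟩
  obtain ⟨N, hN⟩ := (hV (s ^ (-i))).cont hG d p'
  have h5 := hC.conv hG ht hp' ep' hin (n := N) (k := J * N) (Nat.le_mul_of_pos_left _ hJ)
  have h6 := hN _ h5
  rw [← map_pow, hy, ← Equiv.Perm.mul_apply, ← Equiv.Perm.mul_apply, ← map_mul, ← map_mul] at h6
  have h7 : s ^ (-i) * ((s ^ j) ^ (J * N)) * s ^ i = s ^ (j * (J * N : ℕ)) := by
    rw [← zpow_natCast, ← zpow_mul, ← zpow_add, ← zpow_add]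
    congr 1
    ring
  rw [h7] at h6
  rcases lt_or_gt_of_ne hj0 with h | h
  · refine ⟨j.natAbs * N, Or.inr ⟨?_, ?_⟩⟩
    · rw [e2]
      by_contra hcon
      push Not at hcon
      have := mul_nonpos_of_nonpos_of_nonneg h.le hcon
      omega
    · rw [← h6]
      congr 2
      rw [← zpow_natCast, ← zpow_natCast, ← zpow_neg, ← zpow_mul]
      congr 2
      have : (j.natAbs : ℤ) = -j := by omega
      push_cast
      rw [Int.abs_eq_natAbs, this]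
      ring
  · refine ⟨j.natAbs * N, Or.inl ⟨?_, ?_⟩⟩
    · rw [e2]
      by_contra hcon
      push Not at hcon
      have := mul_nonpos_of_nonneg_of_nonpos h.le hcon
      omega
    · rw [← h6]
      congr 2
      rw [← zpow_natCast, ← zpow_natCast, ← zpow_mul]
      congr 2
      have : (j.natAbs : ℤ) = j := by omega
      push_cast
      rw [Int.abs_eq_natAbs, this]
      ring

/-- the periodic points have nonzero cocycle -/
theorem per_ne [Finite X] [Nontrivial X] (hG : SelfSim G) (hV : ∀ k, InV G (φ k)) {s : K} {m : ℕ}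
    {M : Set (ℕ → X)} (hMi : ∀ x ∈ M, ∀ k : K, φ k x ∈ M)
    (hM : ∀ x ∈ M, ∃ (w t : List X) (j i : ℤ), w.length = m ∧ t ≠ [] ∧
      Cm G (φ (s ^ j)) w (w ++ t) ∧ In w (φ (s ^ i) x))
    {J : ℕ} (hJ : 0 < J)
    (hper : ∀ x ∈ {x | x ∈ M ∧ ∃ n : ℕ, 0 < n ∧ φ (s ^ n) x = x}, φ (s ^ J) x = x)
    {x : ℕ → X} (hx : x ∈ {x | x ∈ M ∧ ∃ n : ℕ, 0 < n ∧ φ (s ^ n) x = x}) :
    c G φ (s ^ J) x ≠ 0 := by
  have hJx := hper x hx
  obtain ⟨hxM, n, hn, hxn⟩ := hx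
  obtain ⟨w, t, j, i, hw, ht, hC, hin⟩ := hM x hxM
  have ht' : 0 < t.length := List.length_pos_iff.2 ht
  obtain ⟨e1, e2⟩ := c_conj hG hV (s ^ i) (s ^ J) hJx
  have e3 : s ^ i * s ^ J * (s ^ i)⁻¹ = s ^ J := by
    rw [← zpow_natCast, ← zpow_neg, ← zpow_add, ← zpow_add]
    congr 1
    ring
  rw [e3] at e1 e2
  rw [← e2]
  have h4 : φ (s ^ j) (φ (s ^ i) x) = φ (s ^ i) x := per_fix hG ht hC hin hJ e1
  have h5 : c G φ (s ^ j) (φ (s ^ i) x) = t.length := hC.cc_fix hG hin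
  have hsign : j * c G φ (s ^ J) (φ (s ^ i) x) = J * t.length := by
    rw [← c_zpow hG hV e1, ← h5, ← c_pow hG hV h4 J]
    congr 1
    rw [← zpow_natCast, ← zpow_natCast, ← zpow_mul, ← zpow_mul, mul_comm]
  intro h0
  rw [h0, mul_zero] at hsign
  have : (0 : ℤ) < J * t.length := by positivity
  omega

end Pool.Agent.K6.H60.RN
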