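import Pool.Agent.K6.H60.RN.Bdd

/-!
# Attracting fixed points and roots, conjugacy classes, torsion
-/

set_option autoImplicit false

namespace Pool.Agent.K6.H60.RN

variable {X : Type} {G : Subgroup (Equiv.Perm (ℕ → X))} {K : Type*} [Group K]
  {φ : K →* Equiv.Perm (ℕ → X)} [Finite X] [Nontrivial X]

theorem dich (hG : SelfSim G) (hV : ∀ k, InV G (φ k)) (D : Data G φ) :
    (∀ (x : ℕ → X) (h : K), |c G φ h x| ≤ D.M) ∨
      ∃ (γ : K) (p : ℕ → X), φ γ p = p ∧ 0 < c G φ γ p := by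
  by_contra hcon
  push Not at hcon
  obtain ⟨⟨x, h, hx⟩, h2⟩ := hcon
  obtain ⟨w, -, γ, t, ht, h3, -⟩ := path_contr' hG hV D h x hx.le
  obtain ⟨p, hp, ep⟩ := h3.fix_exists hG ht
  have h4 := h2 γ p ep
  have h5 : c G φ γ p = t.length := h3.cc_fix hG hp
  have h6 : 0 < t.length := List.length_pos_iff.2 ht
  omega

theorem no_att_of_torsion (hG : SelfSim G) (hV : ∀ k, InV G (φ k))
    (ht : ∀ k : K, ∃ n : ℕ, 0 < n ∧ k ^ n = 1) {γ : K} {p : ℕ → X} (hp : φ γ p = p) :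
    ¬ 0 < c G φ γ p := by
  intro h
  obtain ⟨n, hn, e⟩ := ht γ
  have h1 := c_pow hG hV hp n
  rw [e, c_one hG] at h1
  have h2 : (0 : ℤ) < n * c G φ γ p := by positivity
  omega

theorem no_att_of_conj (hG : SelfSim G) (hV : ∀ k, InV G (φ k)) (hc : Finite (ConjClasses K))
    {γ : K} {p : ℕ → X} (hp : φ γ p = p) : ¬ 0 < c G φ γ p := by
  intro h
  choose C hC using fun k => cc_bdd hG (hV k)
  obtain ⟨B, hB⟩ := (Set.finite_range (fun q : ConjClasses K => C (Quotient.out q))).bddAbove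
  set k := γ ^ (B + 1) with hk
  have h1 : c G φ k p = ((B + 1 : ℕ) : ℤ) * c G φ γ p := c_pow hG hV hp _
  have h4 : IsConj (Quotient.out (ConjClasses.mk k)) k := by
    rw [← ConjClasses.mk_eq_mk_iff_isConj]
    exact Quotient.out_eq _
  obtain ⟨g, hg⟩ := isConj_iff.1 h4.symm
  obtain ⟨h5, h6⟩ := c_conj hG hV g k (x := p) (fix_pow hp _)
  rw [hg, h1] at h6
  have h7 := hC (Quotient.out (ConjClasses.mk k)) (φ g p)
  have h8 : c G φ (Quotient.out (ConjClasses.mk k)) (φ g p) =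
    cc G (φ (Quotient.out (ConjClasses.mk k))) (φ g p) := rfl
  rw [h8] at h6
  rw [h6] at h7
  have h9 : C (Quotient.out (ConjClasses.mk k)) ≤ B := hB ⟨_, rfl⟩
  have h10 := (abs_le.1 h7).2
  have h11 : ((B + 1 : ℕ) : ℤ) ≤ ((B + 1 : ℕ) : ℤ) * c G φ γ p := by
    have : (1 : ℤ) ≤ c G φ γ p := h
    nlinarith
  push_cast at h11 h10
  omega

theorem no_att_of_div (hG : SelfSim G) (hV : ∀ k, InV G (φ k))
    (hd : ∀ g : K, ∀ m : ℕ, 1 ≤ m → ∃ h : K, h ^ m = g) {γ : K} {p : ℕ → X} (hp : φ γ p = p) :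
    ¬ 0 < c G φ γ p := by
  intro h
  have hfin := finite_att hG hV γ
  set A := {x | φ γ x = x ∧ 0 < c G φ γ x} with hA
  have hAf : Finite A := hfin.to_subtype
  set N := Nat.card A with hN
  obtain ⟨c0, hc0⟩ : ∃ c0 : ℕ, (c0 : ℤ) = c G φ γ p := ⟨(c G φ γ p).toNat, by omega⟩
  obtain ⟨g, hg⟩ := hd γ (N.factorial * (c0 + 1)) (Nat.mul_pos (Nat.factorial_pos _) (by omega))
  have hmem : ∀ i : ℕ, φ (g ^ i) p ∈ A := by
    intro i
    obtain ⟨h1, h2⟩ := c_conj hG hV (g ^ i) γ (x := p) hp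
    have h3 : g ^ i * γ * (g ^ i)⁻¹ = γ := by
      rw [← hg, ← pow_add, add_comm, pow_add]
      group
    rw [h3] at h1 h2
    exact ⟨h1, by rw [h2]; exact h⟩
  obtain ⟨i, j, hij, e⟩ : ∃ i j : Fin (N + 1), i ≠ j ∧
      (⟨φ (g ^ (i : ℕ)) p, hmem i⟩ : A) = ⟨φ (g ^ (j : ℕ)) p, hmem j⟩ := by
    by_contra hcon
    push Not at hcon
    have hinj : Function.Injective (fun i : Fin (N + 1) => (⟨φ (g ^ (i : ℕ)) p, hmem i⟩ : A)) := by
      intro a b hab
      by_contra hne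
      exact hcon a b hne hab
    have := Nat.card_le_card_of_injective _ hinj
    rw [Nat.card_fin] at this
    exact absurd this (by rw [← hN]; omega)
  have e' : φ (g ^ (i : ℕ)) p = φ (g ^ (j : ℕ)) p := congrArg Subtype.val e
  clear e
  wlog hlt : (i : ℕ) < j generalizing i j
  · have h1 : (i : ℕ) ≠ j := fun h => hij (Fin.ext h)
    exact this j i hij.symm e'.symm (by omega)
  obtain ⟨q, hq⟩ := Nat.exists_eq_add_of_lt hlt
  have hqp : φ (g ^ (q + 1)) p = p := by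
    have h1 : g ^ (j : ℕ) = g ^ (i : ℕ) * g ^ (q + 1) := by rw [← pow_add]; congr 1
    rw [h1, map_mul, Equiv.Perm.mul_apply] at e'
    exact ((φ (g ^ (i : ℕ))).injective e').symm
  have hqN : q + 1 ≤ N := by
    have := j.2
    omega
  obtain ⟨r, hr⟩ := Nat.dvd_factorial (Nat.succ_pos q) hqN
  have hr0 : 0 < r := by
    rcases Nat.eq_zero_or_pos r with h0 | h0
    · rw [h0] at hr
      have := Nat.factorial_pos N
      simp at hr
      omega
    · exact h0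
  have h2 : (g ^ (q + 1)) ^ (r * (c0 + 1)) = γ := by
    rw [← pow_mul, ← hg]
    congr 1
    rw [hr, Nat.succ_eq_add_one]
    ring
  have h3 := c_pow hG hV hqp (r * (c0 + 1))
  rw [h2, ← hc0] at h3
  have h4 : 0 < c G φ (g ^ (q + 1)) p := by
    by_contra hcon
    push Not at hcon
    have h5 : (((r * (c0 + 1) : ℕ) : ℤ)) * c G φ (g ^ (q + 1)) p ≤ 0 :=
      mul_nonpos_of_nonneg_of_nonpos (by positivity) hcon
    omega
  have h5 : ((c0 + 1 : ℕ) : ℤ) ≤ ((r * (c0 + 1) : ℕ) : ℤ) * c G φ (g ^ (q + 1)) p := by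
    have h6 : ((c0 + 1 : ℕ) : ℤ) ≤ ((r * (c0 + 1) : ℕ) : ℤ) := by
      exact_mod_cast Nat.le_mul_of_pos_left _ hr0
    have h7 : (1 : ℤ) ≤ c G φ (g ^ (q + 1)) p := h4
    nlinarith
  push_cast at h5 h3
  omega

end Pool.Agent.K6.H60.RN
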